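import Pool.Agent.Lib.MP_c86c76_al.C.Bas

/-!
Tables as trees of packed numbers, and splitting of long checks.
-/

set_option autoImplicit false

noncomputable section

namespace Pool.Agent.MC

inductive Tr (α : Type) : Type
  | lf (v : α) : Tr α
  | nd (l r : Tr α) : Tr α

def Tr.get {α : Type} (t : Tr α) : ℕ → α :=
  Tr.rec (motive := fun _ => ℕ → α) (fun v _ => v) (fun _ _ a b i =>
    Nat.rec (motive := fun _ => α) (a (Nat.shiftRight i 1)) (fun _ _ => b (Nat.shiftRight i 1))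
      (Nat.land i 1)) t

/-- Lane number `A` of a table with `2 ^ s` lanes of width `w` in each leaf. -/
def lk (T : Tr ℕ) (s m w k A : ℕ) : ℕ :=
  fc 0 (Nat.shiftRight A s) fun c => bits (T.get c) (Nat.mul w (Nat.land A m)) k

/-- Sixty-four rows. -/
def unit (nr : ℕ → ℕ) (p : ℕ → ℕ → Bool) (y : ℕ) : Bool :=
  fc false (Nat.shiftRight y 3) fun i => fc false (Nat.mul 64 (Nat.land y 7)) fun t0 =>
    allIn t0 (Nat.sub 64 (Nat.sub (Nat.add t0 64) (nr i))) (p i)

theorem allIn_app {a l l' : ℕ} {p : ℕ → Bool} (h : allIn a l p = true)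
    (h' : allIn (a + l) l' p = true) : allIn a (l + l') p = true := by
  rw [allIn_iff] at *
  intro i h1 h2
  rcases Nat.lt_or_ge i (a + l) with h3 | h3
  exacts [h i h1 h3, h' i h3 (by omega)]

theorem allIn_lt {l : ℕ} {p : ℕ → Bool} (h : allIn 0 l p = true) (i : ℕ) (hi : i < l) :
    p i = true := (allIn_iff _ _ _).1 h i (Nat.zero_le _) (by omega)

theorem unit_all {nr : ℕ → ℕ} {p : ℕ → ℕ → Bool} {n : ℕ} (h : allIn 0 (8 * n) (unit nr p) = true)
    (hn : allLT n (fun i => Nat.ble (nr i) 512) = true) (i : ℕ) (hi : i < n) (t : ℕ)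
    (ht : t < nr i) : p i t = true := by
  have h1 : nr i ≤ 512 := Nat.le_of_ble_eq_true ((allLT_iff _ _).1 hn i hi)
  have h2 : allIn (64 * Nat.land (8 * i + t / 64) (2 ^ 3 - 1))
      (64 - (64 * Nat.land (8 * i + t / 64) (2 ^ 3 - 1) + 64 - nr ((8 * i + t / 64) >>> 3)))
      (p ((8 * i + t / 64) >>> 3)) = true := allIn_lt h (8 * i + t / 64) (by omega)
  rw [land_eq, Nat.shiftRight_eq_div_pow, show (8 * i + t / 64) / 2 ^ 3 = i by omega,
    allIn_iff] at h2
  exact h2 t (by omega) (by omega)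

end Pool.Agent.MC
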