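import Pool.Agent.Lib.MP_c86c76_al.C.KT
import Pool.Agent.Lib.MP_c86c76_al.C.Tab

/-!
The multiplication table of the group of order 320.
-/

set_option autoImplicit false

noncomputable section

namespace Pool.Agent.MC

/-- The last letter removed from a normal form. -/
def gm (a : ℕ) : ℕ :=
  if a % 2 = 1 then 1 else if a % 4 = 2 then 2 else if a % 8 = 4 then 4 else if a % 16 = 8 then 8
  else if a % 32 = 16 then 16 else if a = 160 then 160 else 32

def kt1 (a : ℕ) : Bool := fc false (invK a) fun c => fc false (gm a) fun e =>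
  fc false (Nat.sub a e) fun p => allLT 320 fun b => fc false (mulK a b) fun z =>
    an (Nat.blt z 320) (an (Nat.beq (mulK c z) b) (Bool.rec (Nat.beq z (mulK e (mulK p b)))
      (Nat.beq z b) (Nat.beq a 0)))

theorem kt1_all : allIn 0 320 kt1 = true := by
  have h0 : allIn 0 40 kt1 = true := by decide +kernel
  have h1 : allIn 40 40 kt1 = true := by decide +kernel
  have h2 : allIn 80 40 kt1 = true := by decide +kernel
  have h3 : allIn 120 40 kt1 = true := by decide +kernel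
  have h4 : allIn 160 40 kt1 = true := by decide +kernel
  have h5 : allIn 200 40 kt1 = true := by decide +kernel
  have h6 : allIn 240 40 kt1 = true := by decide +kernel
  have h7 : allIn 280 40 kt1 = true := by decide +kernel
  rw [allIn_iff] at *
  intro i _ hi
  by_cases i < 40; · exact h0 i (by omega) (by omega)
  by_cases i < 80; · exact h1 i (by omega) (by omega)
  by_cases i < 120; · exact h2 i (by omega) (by omega)
  by_cases i < 160; · exact h3 i (by omega) (by omega)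
  by_cases i < 200; · exact h4 i (by omega) (by omega)
  by_cases i < 240; · exact h5 i (by omega) (by omega)
  by_cases i < 280; · exact h6 i (by omega) (by omega)
  exact h7 i (by omega) (by omega)

theorem kt1_spec {a b : ℕ} (ha : a < 320) (hb : b < 320) : mulK a b < 320 ∧
    mulK (invK a) (mulK a b) = b ∧ (a = 0 → mulK a b = b) ∧
    (a ≠ 0 → mulK a b = mulK (gm a) (mulK (a - gm a) b)) := by
  have h := allIn_lt kt1_all a ha
  rw [kt1, fc_eq, fc_eq, fc_eq, allLT_iff] at h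
  replace h := h b hb
  simp only [fc_eq, an_iff, Nat.blt_eq, Nat.beq_eq] at h
  refine ⟨h.1, h.2.1, fun h0 => ?_, fun h0 => ?_⟩
  · subst h0
    exact Nat.eq_of_beq_eq_true h.2.2
  · have := h.2.2
    rw [show Nat.beq a 0 = false by rcases a with _ | a; exacts [absurd rfl h0, rfl]] at this
    exact Nat.eq_of_beq_eq_true this

theorem ktabSt : KtabSt := by
  refine ⟨fun a ha b hb => ⟨(kt1_spec ha hb).1, (kt1_spec ha hb).2.1⟩, by decide +kernel,
    by decide +kernel, fun x _ k _ => ?_⟩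
  have e1 : Nat.shiftRight (32 * (x / 32)) 5 = Nat.shiftRight x 5 := by
    show (32 * (x / 32)) >>> 5 = x >>> 5
    rw [Nat.shiftRight_eq_div_pow, Nat.shiftRight_eq_div_pow]; omega
  rw [mulK, mulK, e1, show 31 = 2 ^ 5 - 1 from rfl, land_eq, land_eq,
    show 32 * (x / 32) % 2 ^ 5 = 0 by omega]
  exact congrArg (· ^^^ _) (Nat.xor_zero _).symm

/-- The exponents of a normal form. -/
def bt (k : ℕ) : List ℕ := [k % 2, k / 2 % 2, k / 4 % 2, k / 8 % 2, k / 16 % 2, k / 32 % 5, k / 160]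

theorem kt2 : ∀ b < 320,
    bt (mulK 1 b) = [(b % 2 + 1) % 2, b / 2 % 2, b / 4 % 2, b / 8 % 2, b / 16 % 2, b / 32 % 5, b / 160] ∧
    bt (mulK 2 b) = [b % 2, (b / 2 % 2 + 1) % 2, b / 4 % 2, b / 8 % 2, b / 16 % 2, b / 32 % 5, b / 160] ∧
    bt (mulK 4 b) = [b % 2, b / 2 % 2, (b / 4 % 2 + 1) % 2, b / 8 % 2, b / 16 % 2, b / 32 % 5, b / 160] ∧
    bt (mulK 8 b) = [b % 2, b / 2 % 2, b / 4 % 2, (b / 8 % 2 + 1) % 2, b / 16 % 2, b / 32 % 5, b / 160] ∧
    bt (mulK 16 b) = [b % 2, b / 2 % 2, b / 4 % 2, b / 8 % 2, (b / 16 % 2 + 1) % 2, b / 32 % 5, b / 160] ∧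
    bt (mulK 32 b) = [b / 16 % 2, b % 2, b / 2 % 2, b / 4 % 2, b / 8 % 2, (b / 32 % 5 + 1) % 5, b / 160] ∧
    bt (mulK 160 b) =
      [b % 2, b / 16 % 2, b / 8 % 2, b / 4 % 2, b / 2 % 2, 4 * (b / 32 % 5) % 5, (b / 160 + 1) % 2] := by
  decide +kernel

theorem kt3 : ∀ a < 320, a ≠ 0 → a - gm a < a ∧ mulK (gm a) (a - gm a) = a ∧
    gm a ∈ [1, 2, 4, 8, 16, 32, 160] := by decide +kernel

variable {G : Type} [Group G] {x r s : G}

theorem KRel.rx (h : KRel x r s) (i : ℕ) : r * xi x r i = xi x r ((i + 1) % 5) * r := by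
  have : r ^ ((i + 1) % 5) = r ^ (i + 1) := (pow_eq_pow_mod _ h.r5).symm
  rw [xi, xi, this]; group

theorem KRel.sr' (h : KRel x r s) (i : ℕ) : s * r ^ i = r ^ (4 * i % 5) * s := by
  have h1 : s * r = r ^ 4 * s := by
    have a : r ^ 4 = r⁻¹ := eq_inv_of_mul_eq_one_left (by rw [← pow_succ, h.r5])
    have b : s = s⁻¹ := eq_inv_of_mul_eq_one_left h.ss
    rw [a, ← mul_inv_eq_one, mul_inv_rev, inv_inv, ← b, ← mul_assoc, h.sr]
  rw [← pow_eq_pow_mod _ h.r5, pow_mul]
  exact (SemiconjBy.pow_right h1 i)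

theorem KRel.sx' (h : KRel x r s) (i : ℕ) : s * xi x r i = xi x r (4 * i % 5) * s := by
  have h1 : SemiconjBy s (r ^ i) (r ^ (4 * i % 5)) := h.sr' i
  exact (h1.mul_right h.sx).mul_right h1.inv_right

theorem KRel.xx' (h : KRel x r s) (i : ℕ) : xi x r i ^ 2 = 1 := by
  rw [xi, conj_pow, pow_two, h.xx]; group

theorem KRel.com (h : KRel x r s) : ∀ i < 5, ∀ j < 5, Commute (xi x r i) (xi x r j) := by
  have up : ∀ i j, Commute (xi x r i) (xi x r j) →
      Commute (xi x r ((i + 1) % 5)) (xi x r ((j + 1) % 5)) := fun i j c => by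
    have := c.conj r
    rwa [h.rx, h.rx, mul_inv_cancel_right, mul_inv_cancel_right] at this
  have e0 : xi x r 0 = x := by simp [xi]
  have a0 : Commute (xi x r 0) (xi x r 1) := by rw [e0]; exact h.c1
  have b0 : Commute (xi x r 0) (xi x r 2) := by rw [e0]; exact h.c2
  have a1 := up _ _ a0
  have a2 := up _ _ a1
  have a3 := up _ _ a2
  have a4 := up _ _ a3
  have b1 := up _ _ b0
  have b2 := up _ _ b1
  have b3 := up _ _ b2
  have b4 := up _ _ b3
  norm_num at a1 a2 a3 a4 b1 b2 b3 b4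
  intro i hi j hj
  interval_cases i <;> interval_cases j <;>
    first | exact Commute.refl _ | assumption | (apply Commute.symm; assumption)

theorem KRel.step (h : KRel x r s) {e : ℕ} (he : e ∈ [1, 2, 4, 8, 16, 32, 160]) :
    ∃ y, ∀ b < 320, kap x r s (mulK e b) = y * kap x r s b := by
  have lc : ∀ i j, i < 5 → j < i → ∀ (a c : ℕ) (t : G), xi x r i ^ a * (xi x r j ^ c * t) =
      xi x r j ^ c * (xi x r i ^ a * t) := fun i j hi hj a c t =>
    ((h.com i hi j (by omega)).pow_pow a c).left_comm t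
  have md : ∀ i n t, xi x r i ^ ((n + 1) % 2) * t = xi x r i ^ 1 * (xi x r i ^ n * t) :=
    fun i n t => by rw [← pow_eq_pow_mod _ (h.xx' i), ← mul_assoc, ← pow_add, add_comm]
  have rp : ∀ i n t, r * (xi x r i ^ n * t) = xi x r ((i + 1) % 5) ^ n * (r * t) := fun i n t => by
    rw [← mul_assoc, (SemiconjBy.pow_right (h.rx i) n).eq, mul_assoc]
  have sp : ∀ i n t, s * (xi x r i ^ n * t) = xi x r (4 * i % 5) ^ n * (s * t) := fun i n t => by
    rw [← mul_assoc, (SemiconjBy.pow_right (h.sx' i) n).eq, mul_assoc]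
  have s2 : s ^ 2 = 1 := by rw [pow_two, h.ss]
  have l10 := lc 1 0 (by omega) (by omega)
  have l20 := lc 2 0 (by omega) (by omega)
  have l30 := lc 3 0 (by omega) (by omega)
  have l40 := lc 4 0 (by omega) (by omega)
  have l21 := lc 2 1 (by omega) (by omega)
  have l31 := lc 3 1 (by omega) (by omega)
  have l41 := lc 4 1 (by omega) (by omega)
  have l32 := lc 3 2 (by omega) (by omega)
  have l42 := lc 4 2 (by omega) (by omega)
  have l43 := lc 4 3 (by omega) (by omega)
  have lt : ∀ b < 320, mulK e b < 320 := fun b hb => (kt1_spec (by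
    simp only [List.mem_cons, List.not_mem_nil, or_false] at he; omega) hb).1
  have k := kt2
  simp only [bt, List.cons.injEq, and_true] at k
  simp only [List.mem_cons, List.not_mem_nil, or_false] at he
  rcases he with rfl | rfl | rfl | rfl | rfl | rfl | rfl
  on_goal 1 => refine ⟨xi x r 0 ^ 1, fun b hb => ?_⟩; have := (k b hb).1
  on_goal 2 => refine ⟨xi x r 1 ^ 1, fun b hb => ?_⟩; have := (k b hb).2.1
  on_goal 3 => refine ⟨xi x r 2 ^ 1, fun b hb => ?_⟩; have := (k b hb).2.2.1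
  on_goal 4 => refine ⟨xi x r 3 ^ 1, fun b hb => ?_⟩; have := (k b hb).2.2.2.1
  on_goal 5 => refine ⟨xi x r 4 ^ 1, fun b hb => ?_⟩; have := (k b hb).2.2.2.2.1
  on_goal 6 => refine ⟨r, fun b hb => ?_⟩; have := (k b hb).2.2.2.2.2.1
  on_goal 7 => refine ⟨s, fun b hb => ?_⟩; have := (k b hb).2.2.2.2.2.2
  all_goals
    obtain ⟨a0, a1, a2, a3, a4, a5, a6⟩ := this
    rw [kap, kap, if_pos (lt b hb), if_pos hb, a0, a1, a2, a3, a4, a5, a6]
    simp only [mul_assoc, md, rp, sp, Nat.reduceAdd, Nat.reduceMul, Nat.reduceMod, l10, l20, l30,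
      l40, l21, l31, l41, l32, l42, l43]
  · rw [← pow_eq_pow_mod _ h.r5, pow_succ', mul_assoc]
  · rw [← pow_eq_pow_mod _ s2, pow_succ', ← mul_assoc s (r ^ _), h.sr', mul_assoc]

theorem ktSt : KtSt := by
  intro G _ x r s h a
  induction a using Nat.strong_induction_on with
  | _ a ih =>
    intro ha b hb
    rcases eq_or_ne a 0 with rfl | h0
    · rw [(kt1_spec ha hb).2.2.1 rfl]; simp [kap]
    obtain ⟨h1, h2, h3⟩ := kt3 a ha h0
    have hp : a - gm a < 320 := by omega
    obtain ⟨y, hy⟩ := h.step h3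
    rw [(kt1_spec ha hb).2.2.2 h0, hy _ (kt1_spec hp hb).1, ih _ h1 hp b hb, ← mul_assoc,
      ← hy _ hp, h2]

end Pool.Agent.MC
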