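import Pool.Agent.Lib.MP_c86c76_al.C.Eng
import Pool.Agent.Lib.MP_c86c76_al.C.Kt
import Pool.Agent.Lib.MP_c86c76_al.C.D5.Ok

/-!
Every group generated by a model of the relations has property (T).
-/

set_option autoImplicit false

namespace Pool.Agent.MC

theorem five (G : Type) [Group G] (κ g : ℕ → G) (hM : Model κ g datM) :
    MT.HasT (Subgroup.closure (Set.range κ ∪ Set.range g)) :=
  D5.eng5 ktabSt engSt G κ g hM

end Pool.Agent.MC
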