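import Pool.Agent.Lib.MP_c86c76_al.C.Md
import Pool.Agent.Lib.MP_c86c76_al.T.Surf

/-!
The standard marking of a group with one relator.
-/

set_option autoImplicit false

noncomputable section

namespace Pool.Agent.MQ

open Pool.Agent.MC Pool.Agent.MT Pool.Agent.Lib.MP_c86c76_al

/-- A raw word as a number. -/
def pkW (w : MB.RW) : ℕ := w.foldl (fun a l => 32 * a + (2 * (l.1 + 1) + cond l.2 0 1)) 0

def twOk (f : ℕ → ℕ → ℕ) (n : ℕ) (V W : ℕ → ℕ) (p : MB.SA) (u : ℕ) : Bool :=
  an (MB.okS n p) (allIn 1 n fun l => an (MB.bd 15 (MB.sub p.1 [(l - 1, true)]))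
    (cj f (sif f V 0 (pkW (MB.sub p.1 [(l - 1, true)]))) (sif f W 0 (V (Nat.mul 2 l))) u))

variable {Q : Type} [Group Q]

theorem pkW_ev {Y : ℕ → Q} (h : Y 0 = 1) (w : MB.RW) (hb : MB.bd 15 w = true) :
    ev Y (pkW w) = MB.gw (fun i => Y (i + 1)) w := by
  have key : ∀ a, ev Y (w.foldl (fun a l => 32 * a + (2 * (l.1 + 1) + cond l.2 0 1)) a) =
      ev Y a * MB.gw (fun i => Y (i + 1)) w := by
    rw [MB.Raw_bd] at hb
    induction w with
    | nil => intro a; rw [MB.Raw_nil, mul_one]; rfl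
    | cons l t ih =>
      intro a
      have := hb l List.mem_cons_self
      rw [List.foldl_cons, ih fun x hx => hb x (List.mem_cons_of_mem _ hx), MB.Raw_cons,
        ← mul_assoc]
      refine congrArg (· * _) ((evL_step (lt_zero h) _).trans ?_)
      obtain ⟨i, _ | _⟩ := l
      · simp only [cond_false] at this ⊢
        rw [show (32 * a + (2 * (i + 1) + 1)) / 32 = a by omega,
          show (32 * a + (2 * (i + 1) + 1)) % 32 = 2 * (i + 1) + 1 by omega, lt_odd]; rfl
      · simp only [cond_true] at this ⊢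
        rw [show (32 * a + (2 * (i + 1) + 0)) / 32 = a by omega,
          show (32 * a + (2 * (i + 1) + 0)) % 32 = 2 * (i + 1) by omega, lt_two]; rfl
  rw [pkW, key, ev_zero, one_mul]

variable {n : ℕ} {r : MB.RW} (e : OneRel (MB.ev n r) ≃* Q)

/-- The projection from the free group. -/
def prj : FreeGroup (Fin n) →* Q := e.toMonoidHom.comp (QuotientGroup.mk' _)

/-- The standard generators. -/
def Zg (l : ℕ) : Q := if l = 0 then 1 else prj e (MB.io n (l - 1))

theorem Zg_ev (w : MB.RW) (hb : MB.bd 15 w = true) : ev (Zg e) (pkW w) = prj e (MB.ev n w) := by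
  rw [pkW_ev (Y := Zg e) (if_pos rfl) w hb, MB.ev, MB.Raw_map]; rfl

theorem mark_std (hn : n < 16) (hb : MB.bd 15 r = true) : Mark (Zg e) n (pkW r) where
  lt := hn
  out l h := by
    unfold Zg
    split_ifs with h0
    · rfl
    · rw [MB.io, dif_neg (by omega), map_one]
  top := by
    rw [eq_top_iff, ← Subgroup.map_top_of_surjective (prj e)
      (e.surjective.comp QuotientGroup.mk_surjective), ← FreeGroup.closure_range_of,
      MonoidHom.map_closure]
    refine Subgroup.closure_mono ?_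
    rintro _ ⟨_, ⟨i, rfl⟩, rfl⟩
    exact ⟨i + 1, congrArg (prj e) (dif_pos i.2)⟩
  rel := by
    rw [Zg_ev e r hb]
    exact (map_eq_one_iff e e.injective).2
      ((QuotientGroup.eq_one_iff _).2 (Subgroup.subset_normalClosure rfl))
  lift Y h0 h1 := by
    have a : ∀ i, FreeGroup.lift (fun i : Fin n => Y (i + 1)) (MB.io n i) = Y (i + 1) := fun i => by
      unfold MB.io
      split_ifs with h
      · exact FreeGroup.lift_apply_of
      · rw [map_one, h0 _ (by omega)]
    refine ⟨(QuotientGroup.lift _ (FreeGroup.lift fun i : Fin n => Y (i + 1))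
      (Subgroup.normalClosure_le_normal ?_)).comp e.symm.toMonoidHom, fun l => ?_⟩
    · rintro _ rfl
      show _ = 1
      rw [MB.ev, MB.Raw_map, funext a, ← pkW_ev (h0 0 (Or.inl rfl)) r hb, h1]
    · rcases l with _ | l
      · rw [h0 0 (Or.inl rfl)]; exact map_one _
      · exact (congrArg _ (e.symm_apply_apply _)).trans (a l)

theorem tw_oc (hn : n < 16) (hb : MB.bd 15 r = true) {X : ℕ → Q} {r' s u : ℕ} (M : Mark X n r')
    {f : ℕ → ℕ → ℕ} (h : Snd X f) {V tab : ℕ → ℕ} (p : prOk n V = true) (hV : val X V = Zg e)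
    (g : Gd tab X s) {q : MB.SA} (c : twOk f n V (lan (tab s)) q u = true)
    (hq : MB.aut n q ∈ MulAction.stabilizer (MulAut (FreeGroup (Fin n))) (MB.ev n r)) :
    toOut _ e ⟨_, hq⟩ = oc tab X s := by
  obtain ⟨φ, a⟩ := g
  obtain ⟨b, b'⟩ := pr_val h.1 p
  rw [twOk, an_iff, allIn_iff] at c
  rw [M.oc a]
  refine cls_eq (ev X u) fun x => DFunLike.congr_fun ((mark_std e hn hb).ext
    (φ := (MulAut.congr e (ind _ ⟨_, hq⟩)).toMonoidHom)
    (ψ := (MulAut.conj (ev X u) * φ).toMonoidHom) fun l h1 h2 => ?_) x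
  have c' := (an_iff _ _).1 (c.2 l h1 h2)
  have k := h.cj c'.2
  rw [h.si b (lt_zero (b' hn 0 (Or.inl rfl))), a.si h, ev_zero, one_mul] at k
  change (ev (val X V) _)⁻¹ = _ * (φ (ev X (V (2 * l))))⁻¹ * _ at k
  rw [← b _ (by omega), lt_two, hV, Zg_ev e _ c'.1, ← (MB.Raw_aut n q _ c.1).1, MB.ev,
    MB.Raw_pos, inv_eq_iff_eq_inv] at k
  show e (ind _ _ (e.symm (Zg e l))) = ev X u * φ (Zg e l) * (ev X u)⁻¹
  rw [show ev X u * φ (Zg e l) * (ev X u)⁻¹ = _ from Eq.trans (by group) k.symm, Zg,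
    if_neg (by omega)]
  exact congrArg e (congrArg _ (e.symm_apply_apply _))

end Pool.Agent.MQ
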