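import Pool.Agent.Lib.MP_c86c76_al.C.M5.Mod
import Pool.Agent.Lib.MP_c86c76_al.C.Mk
import Pool.Agent.Lib.MP_c86c76_al.C.Five
import Pool.Agent.Lib.MP_c86c76_al.B.Lv5
import Pool.Agent.Lib.MP_c86c76_al.T.All

/-!
The outer automorphism group of the surface group of genus five has property (T).
-/

set_option autoImplicit false

noncomputable section

namespace Pool.Agent.MQ.M5

open Pool.Agent.MC Pool.Agent.MT Pool.Agent.Lib.MP_c86c76_al

theorem chg5 : chgOk 10 (pkW (MB.rW 5)) r0 (lan th) (lan thi) u5 v5 = true := by decide +kernel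

theorem tw5 : allIn 0 14 (fun i => an (Nat.ble 320 (twL.getD i (0, 0)).1)
    (an (Nat.blt (twL.getD i (0, 0)).1 440) (twOk p3 10 (lan thi)
      (lan (tab (twL.getD i (0, 0)).1)) (MB.Tl5.getD i ([], [])) (twL.getD i (0, 0)).2))) = true := by
  decide +kernel

theorem model5 : ∃ κ g : ℕ → Out (Pi1 5), MC.Model κ g datM ∧
    (toMod 5).range ≤ Subgroup.closure (Set.range κ ∪ Set.range g) := by
  have hb : MB.bd 15 (MB.rW 5) = true := by decide
  obtain ⟨M, hV⟩ := (mark_std (n := 10) (surfI 5) (by norm_num) hb).chg chg5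
  refine ⟨_, _, model M, ?_⟩
  rintro _ ⟨⟨φ, hφ⟩, rfl⟩
  have p : prOk 10 (lan thi) = true := by decide +kernel
  have key : ∀ ψ ∈ Subgroup.closure
      ((fun i => MB.aut 10 (MB.Tl5.getD i ([], []))) '' {i | i < 14}), ∃ h : ψ ∈ St 5,
      toMod 5 ⟨ψ, h⟩ ∈ Subgroup.closure (Set.range (kp5 _) ∪ Set.range (gp5 _)) := fun ψ h => by
    induction h using Subgroup.closure_induction with
    | mem x hx =>
      obtain ⟨i, hi, rfl⟩ := hx
      have e := allIn_lt tw5 i hi
      simp only [an_iff, Nat.ble_eq, Nat.blt_eq] at e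
      refine ⟨MB.fix5 i hi, ?_⟩
      exact tw_oc (n := 10) (surfI 5) (by norm_num) hb M (snd3 M) p hV (gd M e.2.1) e.2.2
        (MB.fix5 i hi) ▸ oc_mem M e.1 e.2.1
    | one => exact ⟨one_mem _, (map_one (toMod 5)).symm ▸ one_mem _⟩
    | mul x y _ _ a b =>
      exact ⟨mul_mem a.1 b.1, (map_mul (toMod 5) ⟨x, a.1⟩ ⟨y, b.1⟩).symm ▸ mul_mem a.2 b.2⟩
    | inv x _ a => exact ⟨inv_mem a.1, (map_inv (toMod 5) ⟨x, a.1⟩).symm ▸ inv_mem a.2⟩
  exact (key φ (MB.gen5 φ hφ)).2

theorem toMod_index {g : ℕ} (hg : 0 < g) : (toMod g).range.FiniteIndex := by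
  obtain ⟨f, -, c, hc⟩ := MG.rwASt (2 * g) g rfl
  have hr : c.r = MB.ev (2 * g) (MB.rW g) := by rw [MB.Ctx.r, hc, MB.Raw_ev]
  have key : ∀ (r : MG.FN (2 * g)) (e : OneRel r ≃* Pi1 g), c.r = r → MG.Uni r →
      (toOut r e).range.FiniteIndex := by
    rintro _ e rfl u
    refine toOut_index c (fun h => ?_) u e
    have := c.full.2 (⟨0, by omega⟩, true)
    rw [h] at this
    exact List.not_mem_nil this
  exact key _ _ hr (MG.RwB_uni g)

theorem out5 : HasT (Out (Pi1 5)) := by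
  obtain ⟨κ, g, M, h⟩ := model5
  have := toMod_index (g := 5) (by norm_num)
  have := Subgroup.finiteIndex_of_le h
  exact HasT.of_sub _ (five _ κ g M)

theorem mod5 : HasT (toMod 5).range :=
  have := toMod_index (g := 5) (by norm_num)
  out5.sub _

end Pool.Agent.MQ.M5
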