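import Pool.Agent.Lib.MP_c86c76_al.C.Afp
import Pool.Agent.Lib.MP_c86c76_al.C.Five

/-!
Every group generated by a model of the relations has almost fixed points.
-/

set_option autoImplicit false

namespace Pool.Agent.MC

theorem fiveA (G : Type) [Group G] (κ g : ℕ → G) (hM : Model κ g datM) :
    MT.AFP (Subgroup.closure (Set.range κ ∪ Set.range g)) :=
  engA D5.cer (D5.kOk ktabSt) D5.canOk D5.dedOk D5.virOk D5.gatOk D5.finOk (D5.sosOk ktabSt)
    ⟨hM.mul, hM.kout, hM.gout, hM.g0, hM.rel⟩

end Pool.Agent.MC
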