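import Pool.Agent.Lib.MP_c86c76_al.C.Eng
import Pool.Agent.Lib.MP_c86c76_al.S.Harm

/-!
From the energy inequality to almost fixed points of affine actions.
-/

set_option autoImplicit false

noncomputable section

namespace Pool.Agent.MC

open Pool.Agent.MT Finset Pool.Agent.Lib.MP_c8f1ce_al.HN
open scoped InnerProductSpace

variable {G : Type} [Group G] {κ g : ℕ → G} {D : Dat}

theorem fin_kap (hK : KOk D) (hM : Model κ g D) : Finite (Subgroup.closure (Set.range κ)) := by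
  have o : ∀ k, ∃ a < D.nK, κ k = κ a := fun k => (lt_or_ge k D.nK).elim (fun h => ⟨k, h, rfl⟩)
    fun h => ⟨0, hK.k0, (hM.kout k h).trans (hM.k0 hK).symm⟩
  refine Set.Finite.subset ((Set.finite_lt_nat D.nK).image κ) fun x hx => ?_
  induction hx using Subgroup.closure_induction with
  | mem y hy =>
    obtain ⟨k, rfl⟩ := hy
    obtain ⟨a, h, e⟩ := o k
    exact ⟨a, h, e.symm⟩
  | one => exact ⟨0, hK.k0, hM.k0 hK⟩
  | mul x y _ _ hx hy =>
    obtain ⟨a, h, rfl⟩ := hx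
    obtain ⟨b, k, rfl⟩ := hy
    exact ⟨_, (hK.mul a h b k).1, hM.mul a h b k⟩
  | inv x _ hx =>
    obtain ⟨a, h, rfl⟩ := hx
    exact ⟨_, (hK.inv a h).1, hM.kinv hK h⟩

theorem gen_top (hM : Model κ g D) (hV : Vir κ g D)
    (hG : Subgroup.closure (Set.range κ ∪ Set.range g) = ⊤) :
    Subgroup.closure (Set.range κ ∪ Set.range fun a : Fin D.ng => g (D.gen a)) = ⊤ := by
  set L := Subgroup.closure (Set.range κ ∪ Set.range fun a : Fin D.ng => g (D.gen a))
  have k : ∀ a, κ a ∈ L := fun a => Subgroup.subset_closure (Or.inl ⟨a, rfl⟩)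
  have key : ∀ n j, D.bl j < n → g j ∈ L := fun n => by
    induction n with
    | zero => exact fun _ h => absurd h (Nat.not_lt_zero _)
    | succ n ih =>
      intro j hj
      obtain rfl | h0 := Nat.eq_zero_or_pos j
      · exact hM.g0 ▸ one_mem L
      obtain h1 | h1 := le_or_gt D.n j
      · exact hM.gout j h1 ▸ one_mem L
      obtain ⟨i, c, a, x, y, e, ha, hb, h⟩ := hV.bl j h0 h1
      have m : g (D.gen a) ∈ L := Subgroup.subset_closure (Or.inr ⟨⟨a, ha⟩, rfl⟩)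
      have m' : zz κ g i c j ∈ L := h ▸ mul_mem (mul_mem (k x) (by
        unfold pw
        split_ifs
        exacts [m, inv_mem m])) (k y)
      exact (mul_mem_cancel_left (mul_mem (inv_mem (ih i (by omega))) (k c))).1 m'
  rw [eq_top_iff, ← hG, Subgroup.closure_le]
  rintro _ (⟨a, rfl⟩ | ⟨j, rfl⟩)
  exacts [k a, key _ j (Nat.lt_succ_self _)]

theorem afp_ineq {c : ℝ} (hK : KOk D) (hM : Model κ g D) (hV : Vir κ g D) (hI : Ineq κ g D c)
    (hG : Subgroup.closure (Set.range κ ∪ Set.range g) = ⊤) : AFP G := by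
  have := fin_kap hK hM
  refine afp_of_harm (Set.range κ) (fun a : Fin D.ng => g (D.gen a)) (fun a => D.wt a)
    (fun a => Nat.cast_pos.2 (hV.gen a a.2).2.1) (gen_top hM hV hG) FH.finite hG
    fun H _ _ _ β hβ => ?_
  have z : ∀ k, β (κ k) 0 = 0 := fun k => hβ.1 _ ⟨k, rfl⟩
  have sumK : ∀ k0 (v : H), lin β (κ k0) (∑ k ∈ range D.nK, lin β (κ k) v) =
      ∑ k ∈ range D.nK, lin β (κ k) v := by
    intro k0 v
    rcases le_or_gt D.nK k0 with h | h
    · rw [hM.kout k0 h, map_one]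
      rfl
    · rw [map_sum]
      have hi := hK.inv k0 h
      refine sum_nbij' (D.mul k0) (D.mul (D.inv k0)) (fun k hk => ?_) (fun k hk => ?_)
        (fun k hk => ?_) (fun k hk => ?_) (fun k hk => ?_)
      · exact mem_range.2 (hK.mul _ h _ (mem_range.1 hk)).1
      · exact mem_range.2 (hK.mul _ hi.1 _ (mem_range.1 hk)).1
      · exact (hK.mul _ h _ (mem_range.1 hk)).2
      · have := (hK.mul _ hi.1 _ (mem_range.1 hk)).2
        rwa [hi.2.2] at this
      · rw [hM.mul _ h _ (mem_range.1 hk), rep_mul]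
  obtain ⟨L, hL⟩ : ∃ L, L = ∑ a ∈ range D.ng, ((D.wt a : ℝ) : ℂ) •
    ∑ k ∈ range D.nK, lin β (κ k) (β (g (D.gen a)) 0) := ⟨_, rfl⟩
  have fx : ∀ k, lin β (κ k) L = L := fun k => by
    rw [hL, map_sum]
    exact sum_congr rfl fun a _ => by rw [map_smul, sumK]
  have mv : ∀ k x, ⟪L, lin β (κ k) x⟫_ℂ = ⟪L, x⟫_ℂ := fun k x => by
    conv_lhs => rw [← fx k]
    exact (lin β (κ k)).inner_map_map L x
  have L0 : L = 0 := by
    have h := hβ.2 L (Set.forall_mem_range.2 fx)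
    rw [Fin.sum_univ_eq_sum_range (fun a => ((D.wt a : ℝ) : ℂ) *
      ⟪L, β (g (D.gen a)) 0 + β (g (D.gen a))⁻¹ 0⟫_ℂ)] at h
    refine inner_self_eq_zero.1 (mul_left_cancel₀ (two_ne_zero (α := ℂ)) ?_)
    rw [mul_zero, ← mul_zero (D.nK : ℂ), ← h, mul_sum]
    nth_rw 2 [hL]
    rw [inner_sum, mul_sum]
    refine sum_congr rfl fun a ha => ?_
    obtain ⟨x, y, e⟩ := hV.sy a (mem_range.1 ha)
    rw [inner_smul_right, inner_sum, inner_add_right, e, act_mul, act_mul, z, act_eq β (κ x), z,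
      add_zero, mv]
    simp only [mv, sum_const, card_range, nsmul_eq_mul]
    ring
  let _ : InnerProductSpace ℝ H := InnerProductSpace.rclikeToReal ℂ H
  obtain ⟨h1, h2⟩ := hI H (fun x => β x 0) ⟨fun a x y => by rw [act_mul, act_mul, act_norm],
    fun x k => by rw [act_mul, z]⟩
  have e : lap κ g D (fun x => β x 0) = -L := by
    rw [hL, ← sum_neg_distrib]
    refine sum_congr rfl fun a _ => ?_
    rw [← smul_neg, ← sum_neg_distrib]
    refine (Complex.coe_smul _ _).symm.trans (congrArg (((D.wt a : ℝ) : ℂ) • ·) ?_)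
    refine sum_congr rfl fun k _ => ?_
    change β 1 0 - β (κ k * g (D.gen a)) 0 = _
    rw [act_one, act_mul, act_eq β (κ k), z, add_zero, zero_sub]
  rw [e, L0, neg_zero, norm_zero, mul_zero] at h1
  rintro _ ⟨j, rfl⟩
  have h3 := h2 j
  rw [le_antisymm h1 (sum_nonneg fun _ _ => sq_nonneg _), mul_zero, ph, act_one, sub_zero] at h3
  exact norm_eq_zero.1 (pow_eq_zero_iff two_ne_zero |>.1 (le_antisymm h3 (sq_nonneg _)))

/-- The engine gives almost fixed points. -/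
theorem engA (C : Cer) (hK : KOk D) (hC : CanOk D) (hD : DedOk D) (hV : VirOk D) (hG : GatOk D C)
    (hF : FinOk D C) (hS : SosOk D C) (hM : Model κ g D) :
    AFP (Subgroup.closure (Set.range κ ∪ Set.range g)) := by
  let κ' : ℕ → Subgroup.closure (Set.range κ ∪ Set.range g) := fun k =>
    ⟨κ k, Subgroup.subset_closure (Or.inl ⟨k, rfl⟩)⟩
  let g' : ℕ → Subgroup.closure (Set.range κ ∪ Set.range g) := fun k =>
    ⟨g k, Subgroup.subset_closure (Or.inr ⟨k, rfl⟩)⟩
  have hM' : Model κ' g' D := by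
    refine ⟨fun a ha b hb => Subtype.ext (hM.mul a ha b hb), fun k hk => Subtype.ext (hM.kout k hk),
      fun j hj => Subtype.ext (hM.gout j hj), Subtype.ext hM.g0, fun t ht => ?_⟩
    obtain ⟨a, b, e⟩ := hM.rel t ht
    refine ⟨a, b, Subtype.ext ?_⟩
    unfold pw at e ⊢
    split_ifs at e ⊢ <;> exact e
  have hc := canSt D _ κ' g' hK hC hM'
  have hd := dedSt D _ κ' g' hK hM' hc hD
  have hv := virSt D _ κ' g' hK hM' hc hd hV
  obtain ⟨c, -, hI⟩ := asmSt gatSt D C _ κ' g' hK hM' hC hc hd hV hv hG hF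
    (sosBSt sosASt D C _ κ' g' hK hM' hc hS)
  refine afp_ineq hK hM' hv hI ?_
  rw [← Subgroup.closure_closure_coe_preimage]
  congr 1
  ext x
  constructor
  · rintro (⟨k, rfl⟩ | ⟨k, rfl⟩)
    exacts [Or.inl ⟨k, rfl⟩, Or.inr ⟨k, rfl⟩]
  · rintro (⟨k, e⟩ | ⟨k, e⟩)
    exacts [Or.inl ⟨k, Subtype.ext e⟩, Or.inr ⟨k, Subtype.ext e⟩]

end Pool.Agent.MC
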