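import Pool.Agent.Lib.MP_c86c76_al.C.Bas

/-!
From the energy inequality to property (T), and the assembly of the engine.
-/

set_option autoImplicit false

noncomputable section

namespace Pool.Agent.MC

open Pool.Agent.MT Finset Filter Topology

namespace AnA

/-- Gradient descent for a symmetric nonnegative operator with a gap. -/
theorem core {H : Type} [NormedAddCommGroup H] [InnerProductSpace ℝ H] [CompleteSpace H]
    (p : Submodule ℝ H) (hp : IsClosed (p : Set H)) (L : H →L[ℝ] H) (A B : ℝ) (hA : 1 ≤ A)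
    (hB : 1 ≤ B) (hL : ∀ v ∈ p, L v ∈ p)
    (sy : ∀ u ∈ p, ∀ v ∈ p, inner ℝ (L u) v = inner ℝ (L v) u)
    (pos : ∀ v ∈ p, 0 ≤ inner ℝ (L v) v) (up : ∀ v ∈ p, inner ℝ (L v) v ≤ B * ‖v‖ ^ 2)
    (gap : ∀ v ∈ p, inner ℝ (L v) v ≤ A * ‖L v‖ ^ 2) (v : H) (hv : v ∈ p) :
    ∃ w ∈ p, inner ℝ (L w) w = 0 ∧
      ‖w - v‖ ≤ √(inner ℝ (L v) v) / (1 - √(1 - 1 / (A * B))) := by
  have hB0 : 0 < B := by linarith
  have hA0 : 0 < A := by linarith
  have hAB : 1 ≤ A * B := by nlinarith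
  set q : ℝ := 1 - 1 / (A * B) with hq
  have q0 : 0 ≤ q := by
    have : 1 / (A * B) ≤ 1 := (div_le_one (by linarith)).2 hAB
    linarith
  have q1 : q < 1 := by
    have : 0 < 1 / (A * B) := by positivity
    linarith
  let T : H → H := fun x => x - B⁻¹ • L x
  have hT : ∀ x ∈ p, T x ∈ p := fun x hx => p.sub_mem hx (p.smul_mem _ (hL x hx))
  have key : ∀ x ∈ p, inner ℝ (L (T x)) (T x) ≤ inner ℝ (L x) x - B⁻¹ * ‖L x‖ ^ 2 := by
    intro x hx
    have h1 := up _ (hL x hx)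
    have h2 := sy _ (hL x hx) x hx
    have h3 : B⁻¹ * (B⁻¹ * inner ℝ (L (L x)) (L x)) ≤ B⁻¹ * ‖L x‖ ^ 2 := by
      refine mul_le_mul_of_nonneg_left ?_ (by positivity)
      rw [inv_mul_le_iff₀ hB0]; exact h1
    simp only [T, map_sub, map_smul, inner_sub_left, inner_sub_right, real_inner_smul_left,
      real_inner_smul_right, h2, real_inner_self_eq_norm_sq]
    linarith
  have dec : ∀ x ∈ p, inner ℝ (L (T x)) (T x) ≤ q * inner ℝ (L x) x := by
    intro x hx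
    have h1 : 1 / (A * B) * inner ℝ (L x) x ≤ B⁻¹ * ‖L x‖ ^ 2 := by
      have := mul_le_mul_of_nonneg_left (gap x hx) (show 0 ≤ 1 / (A * B) by positivity)
      refine this.trans (le_of_eq ?_)
      field_simp
    have := key x hx
    rw [hq]; linarith
  have stp : ∀ x ∈ p, dist x (T x) ≤ √(inner ℝ (L x) x) := by
    intro x hx
    have h1 : B⁻¹ * ‖L x‖ ^ 2 ≤ inner ℝ (L x) x := by
      have := key x hx
      have := pos _ (hT x hx)
      linarith
    have h2 : B⁻¹ ≤ 1 := inv_le_one_of_one_le₀ hB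
    have h3 : 0 ≤ B⁻¹ := by positivity
    refine Real.le_sqrt_of_sq_le ?_
    rw [dist_eq_norm, show x - T x = B⁻¹ • L x by simp [T], norm_smul, Real.norm_of_nonneg h3]
    have : 0 ≤ B⁻¹ * ‖L x‖ ^ 2 := by positivity
    nlinarith
  have it : ∀ n, T^[n] v ∈ p ∧ inner ℝ (L (T^[n] v)) (T^[n] v) ≤ inner ℝ (L v) v * q ^ n := by
    intro n
    induction n with
    | zero => exact ⟨hv, by simp⟩
    | succ n ih =>
      rw [Function.iterate_succ_apply']
      refine ⟨hT _ ih.1, (dec _ ih.1).trans ?_⟩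
      have := mul_le_mul_of_nonneg_left ih.2 q0
      rw [pow_succ]; linarith
  have r1 : √q < 1 := by rw [Real.sqrt_lt' one_pos]; linarith
  have hd : ∀ n, dist (T^[n] v) (T^[n + 1] v) ≤ √(inner ℝ (L v) v) * √q ^ n := by
    intro n
    rw [Function.iterate_succ_apply']
    refine (stp _ (it n).1).trans ((Real.sqrt_le_sqrt (it n).2).trans (le_of_eq ?_))
    rw [Real.sqrt_mul (pos v hv)]
    congr 1
    rw [Real.sqrt_eq_iff_mul_self_eq (by positivity) (by positivity), ← mul_pow,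
      Real.mul_self_sqrt q0]
  obtain ⟨w, hw⟩ := cauchySeq_tendsto_of_complete (cauchySeq_of_le_geometric _ _ r1 hd)
  have hwp : w ∈ p := hp.mem_of_tendsto hw (Eventually.of_forall fun n => (it n).1)
  refine ⟨w, hwp, le_antisymm ?_ (pos w hwp), ?_⟩
  · have h1 : Tendsto (fun n => inner ℝ (L (T^[n] v)) (T^[n] v)) atTop (𝓝 (inner ℝ (L w) w)) :=
      ((L.continuous.tendsto w).comp hw).inner hw
    have h2 : Tendsto (fun n => inner ℝ (L v) v * q ^ n) atTop (𝓝 (inner ℝ (L v) v * 0)) :=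
      (tendsto_pow_atTop_nhds_zero_of_lt_one q0 q1).const_mul _
    rw [mul_zero] at h2
    exact le_of_tendsto_of_tendsto' h1 h2 fun n => (it n).2
  · have := dist_le_of_le_geometric_of_tendsto₀ _ _ r1 hd hw
    rwa [Function.iterate_zero_apply, dist_comm, dist_eq_norm] at this

variable {G : Type} [Group G] {κ g : ℕ → G} {D : Dat}

theorem realT {c : ℝ} (hK : KOk D) (hM : Model κ g D) (hV : Vir κ g D) (hc : 0 < c)
    (hI : Ineq κ g D c) : ∃ C : ℝ, 0 < C ∧ ∀ (H : Type) [NormedAddCommGroup H]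
      [InnerProductSpace ℝ H] [CompleteSpace H] (ρ : G → H →ₗᵢ[ℝ] H),
      (∀ x y v, ρ (x * y) v = ρ x (ρ y v)) → (∀ v, ρ 1 v = v) → ∀ (ξ : H) (ε : ℝ), 0 ≤ ε →
      (∀ k < D.nK, ‖ρ (κ k) ξ - ξ‖ ≤ ε) → (∀ a < D.ng, ‖ρ (g (D.gen a)) ξ - ξ‖ ≤ ε) →
      ∃ w, (∀ k, ρ (κ k) w = w) ∧ (∀ j, ρ (g j) w = w) ∧ ‖w - ξ‖ ≤ C * ε := by
  set W : ℝ := ∑ a ∈ range D.ng, (D.wt a : ℝ) * D.nK with hW
  have W0 : 0 ≤ W := sum_nonneg fun a _ => by positivity
  set r : ℝ := 1 - √(1 - 1 / ((W * c ^ 2 + 1) * (4 * W + 1))) with hr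
  have r0 : 0 < r := by
    have : 0 < 1 / ((W * c ^ 2 + 1) * (4 * W + 1)) := by positivity
    rw [hr, sub_pos, Real.sqrt_lt' one_pos]; linarith
  refine ⟨3 * √W / r + 1, by positivity, fun H _ _ _ ρ hm h1 ξ ε he hk hg => ?_⟩
  have n1 : (1 : ℝ) ≤ D.nK := by exact_mod_cast hK.k0
  have sumK : ∀ k0 (v : H), ρ (κ k0) (∑ k ∈ range D.nK, ρ (κ k) v) =
      ∑ k ∈ range D.nK, ρ (κ k) v := by
    intro k0 v
    rcases le_or_gt D.nK k0 with h | h
    · rw [hM.kout k0 h, h1]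
    · rw [map_sum]
      have hi := hK.inv k0 h
      refine sum_nbij' (D.mul k0) (D.mul (D.inv k0)) (fun k hk => ?_) (fun k hk => ?_)
        (fun k hk => ?_) (fun k hk => ?_) (fun k hk => ?_)
      · exact mem_range.2 (hK.mul _ h _ (mem_range.1 hk)).1
      · exact mem_range.2 (hK.mul _ hi.1 _ (mem_range.1 hk)).1
      · exact (hK.mul _ h _ (mem_range.1 hk)).2
      · have := (hK.mul _ hi.1 _ (mem_range.1 hk)).2
        rwa [hi.2.2] at this
      · rw [hM.mul _ h _ (mem_range.1 hk), hm]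
  let p : Submodule ℝ H :=
    { carrier := {v | ∀ k, ρ (κ k) v = v}
      add_mem' := fun {a b} ha hb k => by rw [map_add, ha k, hb k]
      zero_mem' := fun k => map_zero _
      smul_mem' := fun t a ha k => by rw [map_smul, ha k] }
  have hp : IsClosed (p : Set H) := by
    have : (p : Set H) = ⋂ k, {v | ρ (κ k) v = v} := by
      ext v; rw [Set.mem_iInter]; exact Iff.rfl
    rw [this]
    exact isClosed_iInter fun k => isClosed_eq (ρ (κ k)).continuous continuous_id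
  let L : H →L[ℝ] H := ∑ a ∈ range D.ng, (D.wt a : ℝ) • ∑ k ∈ range D.nK,
    (ContinuousLinearMap.id ℝ H - (ρ (κ k * g (D.gen a))).toContinuousLinearMap)
  have hLv : ∀ v, L v = ∑ a ∈ range D.ng, (D.wt a : ℝ) • ∑ k ∈ range D.nK,
      (v - ρ (κ k) (ρ (g (D.gen a)) v)) := by
    intro v
    simp [L, hm]
  have mv : ∀ u ∈ p, ∀ k x, inner ℝ (ρ (κ k) x) u = inner ℝ x u := fun u hu k x => by
    conv_lhs => rw [← hu k]
    exact (ρ (κ k)).inner_map_map x u
  have frm : ∀ v, ∀ u ∈ p, inner ℝ (L v) u = ∑ a ∈ range D.ng,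
      (D.wt a : ℝ) * D.nK * (inner ℝ v u - inner ℝ (ρ (g (D.gen a)) v) u) := by
    intro v u hu
    rw [hLv, sum_inner]
    refine sum_congr rfl fun a _ => ?_
    rw [real_inner_smul_left, sum_inner]
    simp only [inner_sub_left, mv u hu, sum_const, card_range, nsmul_eq_mul, mul_assoc]
  have qf : ∀ v ∈ p, inner ℝ (L v) v = ∑ a ∈ range D.ng,
      (D.wt a : ℝ) * D.nK * (‖ρ (g (D.gen a)) v - v‖ ^ 2 / 2) := by
    intro v hv
    rw [frm v v hv]
    refine sum_congr rfl fun a _ => ?_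
    rw [norm_sub_sq_real, (ρ _).norm_map, real_inner_self_eq_norm_sq]
    ring
  have qle : ∀ v ∈ p, ∀ b : ℝ, (∀ a < D.ng, ‖ρ (g (D.gen a)) v - v‖ ^ 2 ≤ b) →
      inner ℝ (L v) v ≤ W * b := by
    intro v hv b hb
    rw [qf v hv, hW, sum_mul]
    refine sum_le_sum fun a ha => mul_le_mul_of_nonneg_left ?_ (by positivity)
    have := hb a (mem_range.1 ha)
    have := sq_nonneg ‖ρ (g (D.gen a)) v - v‖
    linarith
  have eqv : ∀ v ∈ p, Eqv κ fun x => ρ x v := fun v hv =>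
    ⟨fun a x y => by rw [hm, hm, ← map_sub, (ρ a).norm_map], fun x k => by rw [hm, hv k]⟩
  have enf : ∀ v : H, en g D (fun x => ρ x v) =
      ∑ a ∈ range D.ng, ‖ρ (g (D.gen a)) v - v‖ ^ 2 := fun v => by simp only [en, ph, h1]
  let v0 : H := (D.nK : ℝ)⁻¹ • ∑ k ∈ range D.nK, ρ (κ k) ξ
  have hv0 : v0 ∈ p := p.smul_mem _ fun k => sumK k ξ
  have d0 : ‖v0 - ξ‖ ≤ ε := by
    have e : v0 - ξ = (D.nK : ℝ)⁻¹ • ∑ k ∈ range D.nK, (ρ (κ k) ξ - ξ) := by
      rw [sum_sub_distrib, sum_const, card_range, smul_sub, ← Nat.cast_smul_eq_nsmul ℝ,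
        inv_smul_smul₀ (by linarith)]
    have := (norm_sum_le _ _).trans (sum_le_sum fun k h => hk k (mem_range.1 h))
    rw [sum_const, card_range, nsmul_eq_mul] at this
    rw [e, norm_smul, Real.norm_of_nonneg (by positivity), inv_mul_le_iff₀ (by linarith)]
    exact this
  have a1 : ∀ v ∈ p, L v ∈ p := by
    intro v hv k0
    rw [hLv, map_sum]
    refine sum_congr rfl fun a _ => ?_
    rw [map_smul, sum_sub_distrib, map_sub, sumK, sum_const, map_nsmul, hv k0]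
  have a2 : ∀ u ∈ p, ∀ v ∈ p, inner ℝ (L u) v = inner ℝ (L v) u := by
    intro u hu v hv
    rw [frm u v hv, frm v u hu]
    refine sum_congr rfl fun a ha => ?_
    obtain ⟨x, y, e⟩ := hV.sy a (mem_range.1 ha)
    have : inner ℝ (ρ (g (D.gen a)) u) v = inner ℝ (ρ (g (D.gen a)) v) u := by
      rw [← (ρ (g (D.gen a))⁻¹).inner_map_map, ← hm, inv_mul_cancel, h1, e, hm, hm, hv y,
        real_inner_comm, mv u hu]
    rw [this, real_inner_comm u v]
  have a3 : ∀ v ∈ p, 0 ≤ inner ℝ (L v) v := by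
    intro v hv
    rw [qf v hv]
    exact sum_nonneg fun a _ => by positivity
  have a4 : ∀ v ∈ p, inner ℝ (L v) v ≤ (4 * W + 1) * ‖v‖ ^ 2 := by
    intro v hv
    have := qle v hv ((2 * ‖v‖) ^ 2) fun a _ => pow_le_pow_left₀ (norm_nonneg _)
      ((norm_sub_le _ _).trans (by rw [(ρ _).norm_map]; linarith)) 2
    nlinarith [sq_nonneg ‖v‖]
  have a5 : ∀ v ∈ p, inner ℝ (L v) v ≤ (W * c ^ 2 + 1) * ‖L v‖ ^ 2 := by
    intro v hv
    have h2 := (hI H _ (eqv v hv)).1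
    have e : lap κ g D (fun x => ρ x v) = L v := by simp only [lap, hLv, h1, hm]
    rw [e] at h2
    have e0 : 0 ≤ en g D fun x => ρ x v := by rw [enf]; exact sum_nonneg fun a _ => sq_nonneg _
    have h3 : en g D (fun x => ρ x v) ≤ (c * ‖L v‖) ^ 2 := by
      have := Real.mul_self_sqrt e0
      nlinarith [sq_nonneg (√(en g D fun x => ρ x v) - c * ‖L v‖)]
    have h4 := qle v hv ((c * ‖L v‖) ^ 2) fun a ha => le_trans (by
      rw [enf]
      exact single_le_sum (f := fun a => ‖ρ (g (D.gen a)) v - v‖ ^ 2) (fun a _ => sq_nonneg _)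
        (mem_range.2 ha)) h3
    nlinarith [sq_nonneg ‖L v‖]
  obtain ⟨w, hw, w0, wd⟩ := core p hp L (W * c ^ 2 + 1) (4 * W + 1)
    (by linarith [show 0 ≤ W * c ^ 2 by positivity]) (by linarith) a1 a2 a3 a4 a5 v0 hv0
  have e0 : en g D (fun x => ρ x w) ≤ 0 := by
    rw [enf, ← mul_zero (2 : ℝ), ← w0, qf w hw, mul_sum]
    refine sum_le_sum fun a ha => ?_
    have h2 : (1 : ℝ) ≤ D.wt a := by exact_mod_cast (hV.gen a (mem_range.1 ha)).2.1
    have h3 : (1 : ℝ) ≤ D.wt a * D.nK := by nlinarith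
    nlinarith [sq_nonneg ‖ρ (g (D.gen a)) w - w‖]
  refine ⟨w, hw, fun j => ?_, ?_⟩
  · have h2 := (hI H _ (eqv w hw)).2 j
    have h3 : ‖ρ (g j) w - w‖ ^ 2 ≤ 0 := by
      simp only [ph, h1] at h2
      nlinarith
    exact sub_eq_zero.1 (norm_eq_zero.1 (pow_eq_zero_iff two_ne_zero |>.1
      (le_antisymm h3 (sq_nonneg _))))
  · have h2 : inner ℝ (L v0) v0 ≤ W * (3 * ε) ^ 2 := by
      refine qle v0 hv0 _ fun a ha => pow_le_pow_left₀ (norm_nonneg _) ?_ 2
      have e : ρ (g (D.gen a)) v0 - v0 =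
          ρ (g (D.gen a)) (v0 - ξ) + (ρ (g (D.gen a)) ξ - ξ) - (v0 - ξ) := by
        rw [map_sub]; abel
      have := hg a ha
      have h4 := norm_add_le (ρ (g (D.gen a)) (v0 - ξ)) (ρ (g (D.gen a)) ξ - ξ)
      rw [(ρ _).norm_map] at h4
      rw [e]
      refine (norm_sub_le _ _).trans ?_
      linarith
    have h3 : √(inner ℝ (L v0) v0) ≤ √W * (3 * ε) := by
      refine (Real.sqrt_le_sqrt h2).trans (le_of_eq ?_)
      rw [Real.sqrt_mul W0, Real.sqrt_sq (by positivity)]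
    have h4 := norm_sub_le_norm_sub_add_norm_sub w v0 ξ
    have h5 := wd.trans (div_le_div_of_nonneg_right h3 r0.le)
    have e : (3 * √W / r + 1) * ε = √W * (3 * ε) / r + ε := by ring
    rw [e]; linarith

end AnA

theorem anSt : AnSt := by
  classical
  intro D G _ κ g c hK hM hV hc hI hG
  obtain ⟨C, C0, h⟩ := AnA.realT hK hM hV hc hI
  refine ⟨(range D.nK).image κ ∪ (range D.ng).image fun a => g (D.gen a), 1 / (2 * C),
    by positivity, fun H _ _ _ π v hv hS => ?_⟩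
  let _ : InnerProductSpace ℝ H := InnerProductSpace.rclikeToReal ℂ H
  let ρ : G → H →ₗᵢ[ℝ] H := fun x =>
    { toFun := π x
      map_add' := map_add _
      map_smul' := fun t u => (π x).map_smul (algebraMap ℝ ℂ t) u
      norm_map' := (π x).norm_map }
  obtain ⟨w, w1, w2, w3⟩ := h H ρ (fun x y u => by show π (x * y) u = π x (π y u); simp)
    (fun u => by show π 1 u = u; simp) v (1 / (2 * C)) (by positivity)
    (fun k hk => (hS _ (mem_union_left _ (mem_image_of_mem _ (mem_range.2 hk)))).le)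
    (fun a ha => (hS _ (mem_union_right _
      (mem_image_of_mem (fun a => g (D.gen a)) (mem_range.2 ha)))).le)
  refine ⟨w, ?_, fun x => ?_⟩
  · rintro rfl
    rw [zero_sub, norm_neg, hv, show C * (1 / (2 * C)) = 1 / 2 by field_simp] at w3
    linarith
  · have hx : x ∈ Subgroup.closure (Set.range κ ∪ Set.range g) := hG ▸ Subgroup.mem_top x
    induction hx using Subgroup.closure_induction with
    | mem y hy =>
      rcases hy with ⟨k, rfl⟩ | ⟨j, rfl⟩
      exacts [w1 k, w2 j]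
    | one => simp
    | mul x y _ _ hx hy => simp [hx, hy]
    | inv x _ hx =>
      conv_lhs => rw [← hx]
      simp

theorem topSt : TopSt := by
  intro h1 h2 h3 h4 h5 h6 h7 D C G _ κ g hK hC hD hV hG hF hS hM
  let κ' : ℕ → Subgroup.closure (Set.range κ ∪ Set.range g) := fun k =>
    ⟨κ k, Subgroup.subset_closure (Or.inl ⟨k, rfl⟩)⟩
  let g' : ℕ → Subgroup.closure (Set.range κ ∪ Set.range g) := fun k =>
    ⟨g k, Subgroup.subset_closure (Or.inr ⟨k, rfl⟩)⟩
  have hM' : Model κ' g' D := by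
    refine ⟨fun a ha b hb => Subtype.ext (hM.mul a ha b hb), fun k hk => Subtype.ext (hM.kout k hk),
      fun j hj => Subtype.ext (hM.gout j hj), Subtype.ext hM.g0, fun t ht => ?_⟩
    obtain ⟨a, b, e⟩ := hM.rel t ht
    refine ⟨a, b, Subtype.ext ?_⟩
    unfold pw at e ⊢
    split_ifs at e ⊢ <;> exact e
  have hc := h1 D _ κ' g' hK hC hM'
  have hd := h2 D _ κ' g' hK hM' hc hD
  have hv := h3 D _ κ' g' hK hM' hc hd hV
  obtain ⟨c, c0, hI⟩ := h6 h5 D C _ κ' g' hK hM' hC hc hd hV hv hG hF (h4 D C _ κ' g' hK hM' hc hS)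
  refine h7 D _ κ' g' c hK hM' hv c0 hI ?_
  rw [← Subgroup.closure_closure_coe_preimage]
  congr 1
  ext x
  constructor
  · rintro (⟨k, rfl⟩ | ⟨k, rfl⟩)
    exacts [Or.inl ⟨k, rfl⟩, Or.inr ⟨k, rfl⟩]
  · rintro (⟨k, e⟩ | ⟨k, e⟩)
    exacts [Or.inl ⟨k, Subtype.ext e⟩, Or.inr ⟨k, Subtype.ext e⟩]

end Pool.Agent.MC
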