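import Pool.Agent.Lib.MP_c86c76_al.C.St

/-!
Basic lemmas about the primitives.
-/

set_option autoImplicit false

noncomputable section

namespace Pool.Agent.MC

open Finset

theorem fc_eq {α : Type} (z : α) (v : ℕ) (k : ℕ → α) : fc z v k = k v := rfl

theorem an_iff (a b : Bool) : an a b = true ↔ a = true ∧ b = true := by
  cases a <;> cases b <;> simp [an]

theorem allLT_iff (n : ℕ) (p : ℕ → Bool) : allLT n p = true ↔ ∀ i < n, p i = true := by
  induction n with
  | zero => simp [allLT]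
  | succ n ih =>
    show an (p n) (allLT n p) = true ↔ _
    rw [an_iff, ih]
    refine ⟨fun h i hi => ?_, fun h => ⟨h n (by omega), fun i hi => h i (by omega)⟩⟩
    rcases Nat.lt_succ_iff_lt_or_eq.1 hi with h1 | rfl
    exacts [h.2 i h1, h.1]

theorem allIn_iff (a l : ℕ) (p : ℕ → Bool) :
    allIn a l p = true ↔ ∀ i, a ≤ i → i < a + l → p i = true := by
  rw [allIn, allLT_iff]
  refine ⟨fun h i h1 h2 => ?_, fun h i hi => h (a + i) (by omega) (by omega)⟩
  have : p (a + (i - a)) = true := h (i - a) (by omega)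
  rwa [Nat.add_sub_cancel' h1] at this

theorem sumLT_eq (n : ℕ) (f : ℕ → ℕ) : sumLT n f = ∑ i ∈ range n, f i := by
  induction n with
  | zero => rfl
  | succ n ih =>
    show f n + sumLT n f = _
    rw [ih, sum_range_succ, add_comm]

theorem land_eq (x k : ℕ) : Nat.land x (2 ^ k - 1) = x % 2 ^ k := Nat.and_two_pow_sub_one_eq_mod x k

theorem bits_eq (x s k : ℕ) : bits x s (2 ^ k - 1) = x / 2 ^ s % 2 ^ k := by
  rw [bits, land_eq, ← Nat.shiftRight_eq_div_pow]; rfl

theorem bits_le (x s m : ℕ) : bits x s m ≤ m := Nat.and_le_right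

theorem pI_code {i k j : ℕ} (hi : i < 128) : pI (code i k j) = i := by
  rw [pI, show 127 = 2 ^ 7 - 1 from rfl, land_eq]
  show (i + 128 * j + 16384 * k) % 128 = i
  omega

theorem pJ_code {i k j : ℕ} (hi : i < 128) (hj : j < 128) : pJ (code i k j) = j := by
  rw [pJ, show 127 = 2 ^ 7 - 1 from rfl, bits_eq]
  show (i + 128 * j + 16384 * k) / 128 % 128 = j
  omega

theorem pK_code {i k j : ℕ} (hi : i < 128) (hj : j < 128) (hk : k < 512) :
    pK (code i k j) = k := by
  rw [pK, show 511 = 2 ^ 9 - 1 from rfl, bits_eq]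
  show (i + 128 * j + 16384 * k) / 16384 % 512 = k
  omega

theorem pk_succ (w n : ℕ) (f : ℕ → ℕ) : pk w (n + 1) f = pk w n f + 2 ^ (w * n) * f n := by
  show pk w n f + f n <<< (w * n) = _
  rw [Nat.shiftLeft_eq, mul_comm (f n)]

theorem pk_eq (w n : ℕ) (f : ℕ → ℕ) : pk w n f = ∑ i ∈ range n, 2 ^ (w * i) * f i := by
  induction n with
  | zero => rfl
  | succ n ih => rw [pk_succ, ih, sum_range_succ]

theorem pk_lt (w n : ℕ) (f : ℕ → ℕ) (h : ∀ i < n, f i < 2 ^ w) : pk w n f < 2 ^ (w * n) := by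
  induction n with
  | zero => exact Nat.one_pos
  | succ n ih =>
    have h1 := ih fun i hi => h i (by omega)
    have h2 : f n + 1 ≤ 2 ^ w := h n (by omega)
    rw [pk_succ, mul_add, mul_one, pow_add]
    have := Nat.mul_le_mul_left (2 ^ (w * n)) h2
    nlinarith

section Grp

variable {G : Type} [Group G] {κ g : ℕ → G} {D : Dat}

theorem dd_code {i k j : ℕ} (hi : i < 128) (hj : j < 128) (hk : k < 512) :
    dd κ g (code i k j) = zz κ g i k j := by
  rw [dd, pI_code hi, pJ_code hi hj, pK_code hi hj hk]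

theorem Model.k0 (h : Model κ g D) (hK : KOk D) : κ 0 = 1 := by
  have := h.mul 0 hK.k0 0 hK.k0
  rw [hK.one] at this
  exact left_eq_mul.1 this

theorem Model.kinv (h : Model κ g D) (hK : KOk D) {a : ℕ} (ha : a < D.nK) :
    κ (D.inv a) = (κ a)⁻¹ := by
  have := h.mul a ha _ (hK.inv a ha).1
  rw [(hK.inv a ha).2.1, h.k0 hK] at this
  exact (eq_inv_of_mul_eq_one_right this.symm)

theorem Model.d0 (h : Model κ g D) (hK : KOk D) : dd κ g 0 = 1 := by
  show (g 0)⁻¹ * κ 0 * g 0 = 1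
  rw [h.k0 hK, mul_one, inv_mul_cancel]

theorem pw_flip (x : G) (e : ℕ) : pw x (1 - e) = (pw x e)⁻¹ := by
  rcases e with _ | e <;> simp [pw]

variable {H : Type} [NormedAddCommGroup H] {f : G → H}

theorem ph_nonneg (x : G) : 0 ≤ ph f x := sq_nonneg _

theorem ph_one : ph f 1 = 0 := by simp [ph]

theorem Eqv.dist (h : Eqv κ f) (x y : G) : ‖f x - f y‖ ^ 2 = ph f (y⁻¹ * x) := by
  rw [ph, ← h.iso y (y⁻¹ * x) 1, mul_inv_cancel_left, mul_one]

theorem Eqv.inv (h : Eqv κ f) (x : G) : ph f x⁻¹ = ph f x := by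
  rw [← mul_one x⁻¹, ← h.dist, norm_sub_rev, ph]

theorem Eqv.right (h : Eqv κ f) (x : G) (k : ℕ) : ph f (x * κ k) = ph f x := by
  rw [ph, h.fix, ph]

theorem Eqv.left (h : Eqv κ f) (x : G) (k : ℕ) : ph f (κ k * x) = ph f x := by
  have := h.fix 1 k
  rw [one_mul] at this
  rw [ph, ← this, ← mul_one (κ k), mul_assoc, h.iso, one_mul, ph]

theorem Eqv.left' (h : Eqv κ f) (x : G) (k : ℕ) : ph f ((κ k)⁻¹ * x) = ph f x := by
  rw [← h.left _ k, mul_inv_cancel_left]

theorem Eqv.cls (h : Eqv κ f) (x : G) (a b e : ℕ) : ph f (κ a * pw x e * κ b) = ph f x := by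
  rw [h.right, h.left, pw]
  split_ifs
  exacts [rfl, h.inv x]

theorem Eqv.tri (h : Eqv κ f) (x y : G) : √(ph f (x * y)) ≤ √(ph f x) + √(ph f y) := by
  simp only [ph, Real.sqrt_sq (norm_nonneg _)]
  have := h.iso x y 1
  rw [mul_one] at this
  rw [← this, add_comm]
  exact norm_sub_le_norm_sub_add_norm_sub _ _ _

end Grp

end Pool.Agent.MC
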