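import Pool.Agent.Lib.MP_c86c76_al.C.Bas

/-!
The rows are the cosets of the stabilisers.
-/

set_option autoImplicit false

noncomputable section

namespace Pool.Agent.MC

open Finset

theorem sum_mod_div (m r : ℕ) (F : ℕ → ℕ → ℝ) :
    ∑ x ∈ range (m * r), F (x / m) (x % m) = ∑ t ∈ range r, ∑ u ∈ range m, F t u := by
  induction r with
  | zero => simp
  | succ r ih =>
    rw [Nat.mul_succ, sum_range_add, ih, sum_range_succ]
    congr 1
    refine sum_congr rfl fun u hu => ?_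
    have h := mem_range.1 hu
    rw [Nat.mul_add_mod, Nat.mod_eq_of_lt h, Nat.mul_add_div (by omega), Nat.div_eq_of_lt h,
      Nat.add_zero]

theorem sum_of_linv (N : ℕ) (φ ψ : ℕ → ℕ) (h : ∀ k < N, ψ k < N ∧ φ (ψ k) = k) (F : ℕ → ℝ) :
    ∑ k ∈ range N, F k = ∑ x ∈ range N, F (φ x) := by
  have hi : Set.InjOn ψ (range N : Finset ℕ) := fun a ha b hb e => by
    rw [← (h a (mem_range.1 ha)).2, e, (h b (mem_range.1 hb)).2]
  have hs : (range N).image ψ = range N :=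
    eq_of_subset_of_card_le
      (image_subset_iff.2 fun k hk => mem_range.2 (h k (mem_range.1 hk)).1)
      (by rw [card_image_of_injOn hi])
  conv_rhs => rw [← hs, sum_image hi]
  exact sum_congr rfl fun k hk => by rw [(h k (mem_range.1 hk)).2]

variable {G : Type} [Group G] {κ g : ℕ → G} {D : Dat}

theorem can_ss (hK : KOk D) (hM : Model κ g D) {i : ℕ} (hi : i < D.n)
    (h : ∀ u < D.m i, D.spOk i u = true) : ∀ u < D.m i, D.ss i u < D.nK ∧ D.st i u < D.nK ∧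
      (g i)⁻¹ * κ (D.ss i u) = κ (D.st i u) * (g i)⁻¹ := by
  intro u
  induction u using Nat.strong_induction_on with
  | _ u ih =>
    intro hu
    have h1 := h u hu
    rw [Dat.spOk, Dat.spOk1, an_iff, an_iff, Nat.blt_eq, Nat.blt_eq] at h1
    obtain ⟨hs, ht, h1⟩ := h1
    refine ⟨hs, ht, ?_⟩
    generalize bits (D.sp i u) 18 3 = ty at h1
    generalize bits (D.sp i u) 20 511 = a at h1
    generalize bits (D.sp i u) 29 511 = b at h1
    rcases ty with _ | _ | _ | ty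
    · obtain ⟨h2, h3⟩ := (an_iff _ _).1 h1
      rw [Nat.beq_eq] at h2 h3
      rw [h3, h2, hM.g0, inv_one, one_mul, mul_one]
    · obtain ⟨h2, h3⟩ := (an_iff _ _).1 h1
      rw [Nat.beq_eq] at h2 h3
      rw [h2, h3, hM.k0 hK, one_mul, mul_one]
    · have h2 : D.rA i (D.ss i u) i a (eqF ⟨0, 0, D.st i u, 0, 0⟩) = true := h1
      simp only [Dat.rA, eqF, an_iff, Nat.blt_eq, Nat.beq_eq] at h2
      obtain ⟨ha, hp, hc, he, hl, hr⟩ := h2
      have h3 := (hM.rel a ha).2.2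
      have hi' : i < 128 := lt_of_lt_of_le hi hK.n1
      rw [hp, dd_code hi' hi' (lt_of_lt_of_le hs hK.k1), ← hc, ← he, ← hl, ← hr, hM.d0 hK,
        hM.k0 hK, pw, if_pos rfl, mul_one, mul_one, zz] at h3
      rw [← h3, mul_inv_cancel_right]
    · have h2 : an (Nat.blt a u) (an (Nat.blt b u)
          (an (Nat.beq (D.ss i u) (D.mul (D.ss i a) (D.ss i b)))
            (Nat.beq (D.st i u) (D.mul (D.st i a) (D.st i b))))) = true := h1
      simp only [an_iff, Nat.blt_eq, Nat.beq_eq] at h2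
      obtain ⟨ha, hb, e1, e2⟩ := h2
      obtain ⟨a1, a2, a3⟩ := ih a ha (by omega)
      obtain ⟨b1, b2, b3⟩ := ih b hb (by omega)
      rw [e1, e2, hM.mul _ a1 _ b1, hM.mul _ a2 _ b2, ← mul_assoc, a3, mul_assoc, b3, mul_assoc]

theorem canSt : CanSt := by
  intro D G _ κ g hK hC hM
  have H : ∀ i < D.n, D.m i * D.nr i = D.nK ∧ D.bs (i + 1) = D.bs i + D.nr i * (D.n - i) ∧
      (∀ u < D.m i, D.spOk i u = true) ∧ (∀ t < D.nr i, D.rk i t < D.nK) ∧
      ∀ k < D.nK, D.cx i k < D.nK ∧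
        D.mul (D.ss i (D.cx i k % D.m i)) (D.rk i (D.cx i k / D.m i)) = k ∧
        D.cs i k = D.st i (D.cx i k % D.m i) ∧ D.cb i k = D.ad i (D.cx i k / D.m i) 0 := by
    intro i hi
    have h := hC.orb i hi
    simp only [Dat.orbOk, Dat.canOk, Dat.canOk1, an_iff, allLT_iff, Nat.blt_eq, Nat.beq_eq] at h
    exact h
  refine ⟨fun i hi => (H i hi).1, fun i hi => (H i hi).2.1, fun i hi => (H i hi).2.2.2.1,
    fun i hi => can_ss hK hM hi (H i hi).2.2.1, fun i hi k hk => ?_, fun i hi F => ?_⟩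
  · obtain ⟨h1, -, -, -, h2⟩ := H i hi
    obtain ⟨h3, h4⟩ := h2 k hk
    have hm : 0 < D.m i := Nat.pos_of_mul_pos_right (h1 ▸ hK.k0)
    exact ⟨_, Nat.div_lt_of_lt_mul (h1 ▸ h3), _, Nat.mod_lt _ hm, h4⟩
  · obtain ⟨h1, -, -, -, h2⟩ := H i hi
    rw [sum_of_linv D.nK (fun x => D.mul (D.ss i (x % D.m i)) (D.rk i (x / D.m i))) (D.cx i)
      (fun k hk => ⟨(h2 k hk).1, (h2 k hk).2.1⟩) F, ← h1]
    exact sum_mod_div (D.m i) (D.nr i) fun t u => F (D.mul (D.ss i u) (D.rk i t))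

end Pool.Agent.MC
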