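import Pool.Agent.Lib.MP_c86c76_al.C.Bas

/-!
Soundness of the deduction rules.
-/

set_option autoImplicit false

noncomputable section

namespace Pool.Agent.MC

variable {G : Type} [Group G] {κ g : ℕ → G} {D : Dat}

namespace Dd

theorem eqF_holds {F E : Fa} {x : G} (h : eqF F E = true) : Holds κ g D x F ↔ Holds κ g D x E := by
  simp only [eqF, an_iff, Nat.beq_eq] at h
  obtain ⟨h1, h2, h3, h4⟩ := h
  rw [Holds, Holds, h1, h2, h3, h4]

/-- All facts of level below `L` hold. -/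
structure P (κ g : ℕ → G) (D : Dat) (L : ℕ) : Prop where
  pos : ∀ i < D.n, ∀ t < D.nr i, ∀ l < D.n - i, (dec (D.ft (D.ad i t l))).l < L →
    Holds κ g D (zz κ g i (D.rk i t) (D.n1 - l)) (dec (D.ft (D.ad i t l)))
  loop : ∀ l, 0 < l → l < D.nL → (dec (D.lf l)).l < L →
    Holds κ g D (pw (dd κ g (dec (D.lf l)).c) (bits (D.lf l) 48 1)) (dec (D.lf l))

theorem P.mono {L L' : ℕ} (h : P κ g D L) (e : L' ≤ L) : P κ g D L' :=
  ⟨fun i hi t ht l hl k => h.pos i hi t ht l hl (k.trans_le e),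
    fun l h1 h2 k => h.loop l h1 h2 (k.trans_le e)⟩

variable (hK : KOk D) (hM : Model κ g D)
include hK hM

theorem flip {x : G} {F : Fa} (h : Holds κ g D x F) : Holds κ g D x⁻¹ (D.flip F) := by
  obtain ⟨h1, h2, rfl⟩ := h
  refine ⟨(hK.inv _ h2).1, (hK.inv _ h1).1, ?_⟩
  show _ = κ (D.inv F.b) * pw (dd κ g F.c) (1 - F.e) * κ (D.inv F.a)
  rw [hM.kinv hK h1, hM.kinv hK h2, pw_flip]
  group

theorem app1 {x : G} {q X : Fa} (h : Holds κ g D x q) (hc : X.c = q.c)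
    (hX : Holds κ g D (pw (dd κ g q.c) q.e) X) : Holds κ g D x (D.app1 q X) := by
  obtain ⟨h1, h2, rfl⟩ := h
  obtain ⟨k1, k2, k3⟩ := hX
  refine ⟨(hK.mul _ h1 _ k1).1, (hK.mul _ k2 _ h2).1, ?_⟩
  show _ = κ (D.mul q.a X.a) * pw (dd κ g q.c) X.e * κ (D.mul X.b q.b)
  rw [hM.mul _ h1 _ k1, hM.mul _ k2 _ h2, k3, hc]
  group

theorem eC {x y x' y' : G} {q r q' r' p' : Fa} {L : ℕ} {kk : Fa → Bool} (hq : Holds κ g D x q)
    (hr : Holds κ g D y r) (hq' : q'.l < L → Holds κ g D x' q') (hr' : r'.l < L → Holds κ g D y' r')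
    (hp' : p'.l < L → Holds κ g D (x' * y') p') (h : D.eC q r q' r' p' L kk = true) :
    ∃ F, Holds κ g D (x * y) F ∧ kk F = true := by
  simp only [Dat.eC, an_iff, Nat.beq_eq, Nat.blt_eq] at h
  obtain ⟨l1, l2, l3, e1, e2, e3, e4, e5, h⟩ := h
  obtain ⟨a1, a2, rfl⟩ := hq
  obtain ⟨b1, b2, rfl⟩ := hr
  obtain ⟨c1, c2, rfl⟩ := hq' l1
  obtain ⟨d1, d2, rfl⟩ := hr' l2
  obtain ⟨f1, f2, f3⟩ := hp' l3
  have m1 := (hK.mul _ a1 _ (hK.inv _ c1).1).1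
  have m2 := (hK.mul _ f2 _ (hK.inv _ d2).1).1
  refine ⟨_, ⟨(hK.mul _ m1 _ f1).1, (hK.mul _ m2 _ b2).1, ?_⟩, h⟩
  have e6 := congrArg κ e5
  rw [hM.mul _ a2 _ b1, hM.mul _ c2 _ d1] at e6
  show _ = κ (D.mul (D.mul q.a (D.inv q'.a)) p'.a) * pw (dd κ g p'.c) p'.e *
    κ (D.mul (D.mul p'.b (D.inv r'.b)) r.b)
  rw [hM.mul _ m1 _ f1, hM.mul _ m2 _ b2, hM.mul _ a1 _ (hK.inv _ c1).1,
    hM.mul _ f2 _ (hK.inv _ d2).1, hM.kinv hK c1, hM.kinv hK d2, e1, e2, e3, e4]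
  calc _ = κ q.a * pw (dd κ g q'.c) q'.e * (κ q.b * κ r.a) * pw (dd κ g r'.c) r'.e * κ r.b := by
        group
    _ = κ q.a * (κ q'.a)⁻¹ * (κ q'.a * pw (dd κ g q'.c) q'.e * κ q'.b *
          (κ r'.a * pw (dd κ g r'.c) r'.e * κ r'.b)) * (κ r'.b)⁻¹ * κ r.b := by rw [e6]; group
    _ = _ := by rw [f3]; group

theorem zz_inv {i k j : ℕ} (hk : k < D.nK) : (zz κ g j (D.inv k) i)⁻¹ = zz κ g i k j := by
  rw [zz, zz, hM.kinv hK hk]
  group

theorem zz_mul {i k j k1 m : ℕ} (hk : k < D.nK) (hk1 : k1 < D.nK) :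
    zz κ g i k1 m * zz κ g m (D.mul (D.inv k1) k) j = zz κ g i k j := by
  rw [zz, zz, zz, hM.mul _ (hK.inv _ hk1).1 _ hk, hM.kinv hK hk1]
  group

theorem app {x : G} {q : Fa} {l L : ℕ} (hP : P κ g D L) (h : Holds κ g D x q)
    (hl : D.appOk q l L = true) : Holds κ g D x (D.app q l) := by
  rcases l with _ | l
  · exact h
  · have hl' : an (Nat.blt (l + 1) D.nL) (an (Nat.beq (dec (D.lf (l + 1))).c q.c)
      (an (Nat.beq (bits (D.lf (l + 1)) 48 1) q.e) (Nat.blt (dec (D.lf (l + 1))).l L))) = true := hl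
    simp only [an_iff, Nat.beq_eq, Nat.blt_eq] at hl'
    obtain ⟨h1, h2, h3, h4⟩ := hl'
    exact app1 hK hM h h2 (h2 ▸ h3 ▸ hP.loop _ l.succ_pos h1 h4)

theorem rA {i k j y : ℕ} {kk : Fa → Bool} (hi : i < D.n) (hj : j < D.n) (hk : k < D.nK)
    (h : D.rA i k j y kk = true) : ∃ F, Holds κ g D (zz κ g i k j) F ∧ kk F = true := by
  simp only [Dat.rA, an_iff, Nat.beq_eq, Nat.blt_eq] at h
  have h1 := hM.rel y h.1
  rw [h.2.1, dd_code (hi.trans_le hK.n1) (hj.trans_le hK.n1) (hk.trans_le hK.k1)] at h1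
  exact ⟨_, h1, h.2.2⟩

variable (hC : Can κ g D)
include hC

omit hK in
theorem row {i k : ℕ} (hi : i < D.n) (hk : k < D.nK) : ∃ t < D.nr i, D.cs i k < D.nK ∧
    D.cb i k = D.ad i t 0 ∧ (g i)⁻¹ * κ k = κ (D.cs i k) * (g i)⁻¹ * κ (D.rk i t) := by
  obtain ⟨t, ht, u, hu, h1, h2, h3⟩ := hC.can i hi k hk
  obtain ⟨k1, k2, k3⟩ := hC.ss i hi u hu
  refine ⟨t, ht, h2 ▸ k2, h3, ?_⟩
  rw [h2, ← k3, mul_assoc, ← hM.mul _ k1 _ (hC.rk i hi t ht), h1]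

variable {L : ℕ} (hP : P κ g D L)
include hP

theorem get0 {i k j : ℕ} (hij : i ≤ j) (hj : j < D.n) (hk : k < D.nK)
    (h : (D.get0 i k j).l < L) : Holds κ g D (zz κ g i k j) (D.get0 i k j) := by
  obtain ⟨t, ht, h1, h2, h3⟩ := row hM hC (hij.trans_lt hj) hk
  have n0 := hK.n0
  have e : D.get0 i k j = D.get1 (D.cs i k) (D.ft (D.ad i t (D.n1 - j))) :=
    congrArg (fun A => D.get1 (D.cs i k) (D.ft (A + (D.n1 - j)))) h2
  rw [e] at h ⊢
  obtain ⟨k1, k2, k3⟩ := hP.pos i (hij.trans_lt hj) t ht (D.n1 - j) (by omega) h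
  refine ⟨(hK.mul _ h1 _ k1).1, k2, ?_⟩
  show _ = κ (D.mul (D.cs i k) (dec _).a) * pw (dd κ g (dec _).c) (dec _).e * κ (dec _).b
  rw [hM.mul _ h1 _ k1, mul_assoc (κ _), mul_assoc (κ _), ← k3, show D.n1 - (D.n1 - j) = j by omega,
    zz, zz, h3]
  group

theorem get {i k j : ℕ} (hi : i < D.n) (hj : j < D.n) (hk : k < D.nK)
    (h : (D.get i k j).l < L) : Holds κ g D (zz κ g i k j) (D.get i k j) := by
  rcases e : Nat.blt j i with _ | _
  · have e' : D.get i k j = D.get0 i k j := by rw [Dat.get, e]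
    rw [e'] at h ⊢
    refine get0 hK hM hC hP (not_lt.1 fun k => ?_) hj hk h
    rw [Nat.blt_eq.mpr k] at e
    exact Bool.noConfusion e
  · have e' : D.get i k j = D.flip (D.get0 j (D.inv k) i) := by rw [Dat.get, e]
    rw [e'] at h ⊢
    exact zz_inv hK hM hk ▸ flip hK hM (get0 hK hM hC hP (Nat.blt_eq.mp e).le hi (hK.inv _ hk).1 h)

theorem eA {x y : G} {q r : Fa} {w : ℕ} {kk : Fa → Bool} (hq : q.l < L → Holds κ g D x q)
    (hr : r.l < L → Holds κ g D y r) (h : D.eA q r w L kk = true) :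
    ∃ F, Holds κ g D (x * y) F ∧ kk F = true := by
  simp only [Dat.eA, Dat.eB, an_iff, Nat.blt_eq] at h
  obtain ⟨h1, h2, h3, h4, h5, h6, h7, h8, h9, h⟩ := h
  exact eC hK hM (app hK hM hP (hq h6) h8) (app hK hM hP (hr h7) h9) (get hK hM hC hP h1 h3 h5)
    (get hK hM hC hP h3 h2 (hK.mul _ (hK.inv _ h5).1 _ h4).1)
    (fun k => (zz_mul hK hM h4 h5).symm ▸ get hK hM hC hP h1 h2 h4 k) h

omit hP in
theorem rM {F : Fa} {i k j y : ℕ} {kk : Fa → Bool} (hj : j < D.n) (hk : k < D.nK)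
    (hF : y < D.nK → F.l < L → Holds κ g D (zz κ g i y j) F) (h : D.rM F k j y L kk = true) :
    ∃ F, Holds κ g D (zz κ g i k j) F ∧ kk F = true := by
  simp only [Dat.rM, Dat.rM1, an_iff, Nat.beq_eq, Nat.blt_eq] at h
  obtain ⟨h1, h2, h3, h⟩ := h
  obtain ⟨t, -, a1, a2, a3⟩ := row hM hC hj (hK.inv _ hk).1
  obtain ⟨t', -, b1, b2, b3⟩ := row hM hC hj (hK.inv _ h1).1
  have e : D.bs j + t * (D.n - j) + 0 = D.bs j + t' * (D.n - j) + 0 := a2.symm.trans (h2.trans b2)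
  obtain rfl : t = t' := Nat.eq_of_mul_eq_mul_right (Nat.sub_pos_of_lt hj) (by omega)
  obtain ⟨c1, c2, c3⟩ := hF h1 h3
  have m1 := (hK.mul _ c2 _ b1).1
  refine ⟨_, ?_, h⟩
  refine ⟨c1, (hK.mul _ m1 _ (hK.inv _ a1).1).1, ?_⟩
  show _ = κ F.a * pw (dd κ g F.c) F.e *
    κ (D.mul (D.mul F.b (D.cs j (D.inv y))) (D.inv (D.cs j (D.inv k))))
  rw [hM.kinv hK hk] at a3
  rw [hM.kinv hK h1] at b3
  rw [hM.mul _ m1 _ (hK.inv _ a1).1, hM.mul _ c2 _ b1, hM.kinv hK a1, ← mul_assoc, ← mul_assoc,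
    ← c3, zz, zz]
  calc _ = (g i)⁻¹ * ((g j)⁻¹ * (κ k)⁻¹)⁻¹ := by group
    _ = (g i)⁻¹ * ((g j)⁻¹ * (κ y)⁻¹)⁻¹ * κ (D.cs j (D.inv y)) * (κ (D.cs j (D.inv k)))⁻¹ := by
        rw [a3, b3]; group
    _ = _ := by group

theorem rule {i k j w : ℕ} {kk : Fa → Bool} (hi : i < D.n) (hj : j < D.n) (hk : k < D.nK)
    (h : D.rule i k j w L kk = true) : ∃ F, Holds κ g D (zz κ g i k j) F ∧ kk F = true := by
  rw [Dat.rule] at h
  generalize Nat.land w 7 = ty at h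
  generalize Nat.shiftRight w 3 = y at h
  rcases ty with _ | _ | _ | _ | _ | ty
  · refine ⟨_, ⟨hK.k0, hK.k0, ?_⟩, h⟩
    show _ = κ 0 * dd κ g (code i k j) * κ 0
    rw [dd_code (hi.trans_le hK.n1) (hj.trans_le hK.n1) (hk.trans_le hK.k1), hM.k0 hK, one_mul,
      mul_one]
  · exact rM hK hM hC hj hk (fun h1 => get hK hM hC hP hi hj h1) h
  · have h' : D.rE1 i k j (Nat.land (D.et y) 511) (bits (D.et y) 9 127) (D.et y) L kk = true := h
    simp only [Dat.rE1, an_iff, Nat.blt_eq] at h'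
    exact zz_mul hK hM hk h'.2.1 ▸ eA hK hM hC hP (get hK hM hC hP hi h'.1 h'.2.1)
      (get hK hM hC hP h'.1 hj (hK.mul _ (hK.inv _ h'.2.1).1 _ hk).1) h'.2.2
  · exact rM hK hM hC hj hk (fun h1 h2 => zz_inv hK hM h1 ▸
      flip hK hM (get hK hM hC hP hj hi (hK.inv _ h1).1 h2)) h
  · have h' : Dat.rD i k j kk = true := h
    simp only [Dat.rD, an_iff, Nat.beq_eq] at h'
    obtain ⟨rfl, rfl, h'⟩ := h'
    refine ⟨_, ⟨hK.k0, hK.k0, ?_⟩, h'⟩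
    show _ = κ 0 * dd κ g 0 * κ 0
    rw [hM.d0 hK, zz, hM.k0 hK]
    group
  · exact rA hK hM hi hj hk h

theorem loop {F w : ℕ} (hL : (dec F).l = L)
    (h : Nat.rec (motive := fun _ => Bool)
      (D.lP (dec F) (bits F 48 1) (bits w 2 127) (bits w 16 511) (bits w 9 127)
        (Nat.shiftRight w 25))
      (fun t _ => Nat.rec (motive := fun _ => Bool)
        (D.lM (dec F) (bits F 48 1) (bits w 2 4095) (bits w 14 4095))
        (fun _ _ => D.lI (dec F) (bits F 48 1) (bits w 2 4095)) t) (Nat.land w 3) = true) :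
    Holds κ g D (pw (dd κ g (dec F).c) (bits F 48 1)) (dec F) := by
  generalize dec F = X at h hL
  generalize bits F 48 1 = e at h
  generalize Nat.land w 3 = ty at h
  subst hL
  rcases ty with _ | _ | ty
  · have h' : D.lP X e _ _ _ _ = true := h
    simp only [Dat.lP, an_iff, Nat.blt_eq] at h'
    obtain ⟨h1, h2, h3, h4, h5⟩ := h'
    obtain ⟨a1, a2, a3⟩ := get hK hM hC hP h1 h2 h3 h4
    obtain ⟨E, ⟨b1, b2, b3⟩, h6⟩ := rule hK hM hC hP h1 h2 h3 h5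
    simp only [Dat.lP1, an_iff, Nat.beq_eq] at h6
    obtain ⟨e1, e2, e3, e4, e5, e6⟩ := h6
    refine ⟨e5 ▸ (hK.mul _ (hK.inv _ a1).1 _ b1).1, e6 ▸ (hK.mul _ b2 _ (hK.inv _ a2).1).1, ?_⟩
    rw [e1, e3, b3, e2, e4] at a3
    rw [e5, e6, hM.mul _ (hK.inv _ a1).1 _ b1, hM.mul _ b2 _ (hK.inv _ a2).1, hM.kinv hK a1,
      hM.kinv hK a2]
    rw [mul_assoc _ (κ E.a), ← mul_assoc _ (κ E.b), mul_assoc _ _ (κ E.b), a3]
    group
  · have h' : D.lM X e _ _ = true := h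
    simp only [Dat.lM, Dat.lB, an_iff, Nat.beq_eq, Nat.blt_eq] at h'
    obtain ⟨⟨h1, h2, h3⟩, h4, h5, h6⟩ := h'
    have h7 := app hK hM hP (hP.loop _ h1 h2 h3) h5
    have h8 : X.c = (dec (D.lf (bits w 2 4095))).c := by
      simp only [eqF, an_iff, Nat.beq_eq] at h6
      refine h6.1.trans ?_
      rcases bits w 14 4095 with _ | _ <;> rfl
    exact (eqF_holds h6).2 (h8 ▸ h4 ▸ h7)
  · have h' : D.lI X e _ = true := h
    simp only [Dat.lI, Dat.lB, an_iff, Nat.beq_eq, Nat.blt_eq] at h'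
    obtain ⟨⟨h1, h2, h3⟩, h4, h6⟩ := h'
    have h7 := flip hK hM (hP.loop _ h1 h2 h3)
    have h8 : X.c = (dec (D.lf (bits w 2 4095))).c := by
      simp only [eqF, an_iff, Nat.beq_eq] at h6
      exact h6.1
    rw [← pw_flip] at h7
    exact (eqF_holds h6).2 (h8 ▸ h4 ▸ h7)

omit hP in
theorem all (hD : DedOk D) (L : ℕ) : P κ g D L := by
  induction L with
  | zero => exact ⟨fun _ _ _ _ _ _ h => absurd h (Nat.not_lt_zero _),
      fun _ _ _ h => absurd h (Nat.not_lt_zero _)⟩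
  | succ L ih =>
    refine ⟨fun i hi t ht l hl h => ?_, fun l h1 h2 h =>
      loop hK hM hC (ih.mono (Nat.lt_succ_iff.1 h)) rfl (hD.loop l h1 h2)⟩
    have n0 := hK.n0
    obtain ⟨F, h1, h2⟩ := rule hK hM hC (ih.mono (Nat.lt_succ_iff.1 h)) hi
      (show D.n1 - l < D.n by omega) (hC.rk i hi t ht)
      ((allLT_iff _ _).1 (hD.row i hi t ht) l hl)
    exact (eqF_holds h2).2 h1

end Dd

theorem lev_lt (D : Dat) (i k j : ℕ) : (D.get i k j).l < 64 := by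
  rw [Dat.get]
  rcases Nat.blt j i with _ | _ <;> exact Nat.lt_succ_of_le (bits_le _ _ _)

theorem dedSt : DedSt := fun D _ _ _ _ hK hM hC hD =>
  have h := Dd.all hK hM hC hD 64
  ⟨fun i hi j hj k hk => Dd.get hK hM hC h hi hj hk (lev_lt D i k j),
    fun i hi t ht l hl => h.pos i hi t ht l hl (Nat.lt_succ_of_le (bits_le _ _ _)),
    fun l h1 h2 => h.loop l h1 h2 (Nat.lt_succ_of_le (bits_le _ _ _))⟩

theorem virSt : VirSt := by
  intro D G _ κ g hK hM hC hD hV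
  have hP : Dd.P κ g D 64 := ⟨fun i hi t ht l hl _ => hD.pos i hi t ht l hl,
    fun l h1 h2 _ => hD.loop l h1 h2⟩
  have n0 : 0 < D.n := by have := hK.n0; omega
  have hg : ∀ a < D.ng, (D.gen a < D.n ∧ 0 < D.wt a ∧ D.oq (a + 1) = D.oq a + D.nr (D.gen a)) ∧
      D.rA (D.gen a) 0 0 (D.sy a) (fun F =>
        an (Nat.beq F.c (Nat.mul 128 (D.gen a))) (Nat.beq F.e 0)) = true := fun a ha => by
    have h := hV.gen a ha
    simp only [Dat.genOk, an_iff, Nat.beq_eq, Nat.blt_eq] at h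
    exact ⟨⟨h.1, h.2.1, h.2.2.1⟩, h.2.2.2⟩
  have hd : ∀ x < D.n, dd κ g (Nat.mul 128 x) = g x := fun x hx => by
    rw [show Nat.mul 128 x = code 0 0 x by simp [code],
      dd_code (by omega) (hx.trans_le hK.n1) (by omega), zz, hM.g0, hM.k0 hK]
    group
  refine ⟨fun v hv a ha t ht => ?_, fun j h1 h2 => ?_, fun a ha => ?_, fun a ha => (hg a ha).1⟩
  · have h := hV.vir v hv
    simp only [Dat.virOk, Dat.virOk2, an_iff, Nat.blt_eq, allLT_iff, fc_eq] at h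
    obtain ⟨h1, h2, h3, h⟩ := h
    have h4 : D.gen a < D.n := ha.lt_or_eq.elim (fun h => (hg a h).1.1) fun e => by
      rw [e, hV.g0]; exact n0
    obtain ⟨F, ⟨-, -, h5⟩, h6⟩ := Dd.eA hK hM hC hP
      (fun _ => hD.get _ h4 _ n0 _ (hC.rk _ h4 t ht)) (fun _ => hD.get _ h1 _ h2 _ h3)
      (h a (Nat.lt_succ_of_le ha) t ht)
    exact ⟨_, _, _, (Nat.beq_eq ▸ h6 : F.c = _) ▸ h5⟩
  · have h := hV.bl j h1 h2
    simp only [Dat.blOk, Dat.blOk1, an_iff, Nat.beq_eq, Nat.blt_eq] at h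
    obtain ⟨k1, k2, k3, k4, k5⟩ := h
    obtain ⟨-, -, h5⟩ := hD.get _ k1 _ h2 _ k2
    rw [k4, hd _ (hg _ k3).1.1] at h5
    exact ⟨_, _, _, _, _, _, k3, k5, h5⟩
  · obtain ⟨F, ⟨-, -, h5⟩, h6⟩ := Dd.rA hK hM (hg a ha).1.1 n0 hK.k0 (hg a ha).2
    simp only [an_iff, Nat.beq_eq] at h6
    rw [h6.1, h6.2, hd _ (hg a ha).1.1, zz, hM.g0, hM.k0 hK, mul_one, mul_one] at h5
    exact ⟨_, _, h5⟩

end Pool.Agent.MC
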