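import Pool.Agent.Lib.MP_c86c76_al.T.Defs

/-!
The checkers of an energy certificate: a finite group `K` with codes `k < nK`, elements `g i`,
positions `z i k j = (g i)⁻¹ κ k g j`, and facts `z = κ a * d ^ (± 1) * κ b`.
-/

set_option autoImplicit false

noncomputable section

namespace Pool.Agent.MC

/-- Evaluate `v` before continuing. -/
def fc {α : Type} (z : α) (v : ℕ) (k : ℕ → α) : α :=
  Nat.rec (motive := fun _ => α) z (fun m _ => k m) (Nat.add v 1)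

def an (a b : Bool) : Bool := Bool.rec false b a

def bits (x s m : ℕ) : ℕ := Nat.land (Nat.shiftRight x s) m

def allLT (n : ℕ) (p : ℕ → Bool) : Bool :=
  Nat.rec (motive := fun _ => Bool) true (fun i r => an (p i) r) n

def sumLT (n : ℕ) (f : ℕ → ℕ) : ℕ :=
  Nat.rec (motive := fun _ => ℕ) 0 (fun i r => Nat.add (f i) r) n

/-- `p` holds on `[a, a + l)`. -/
def allIn (a l : ℕ) (p : ℕ → Bool) : Bool := allLT l fun u => fc false (Nat.add a u) p

def pk (w n : ℕ) (f : ℕ → ℕ) : ℕ :=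
  Nat.rec (motive := fun _ => ℕ) 0 (fun i r => Nat.add r (Nat.shiftLeft (f i) (Nat.mul w i))) n

/-- The combinatorial data. -/
structure Dat where
  nK : ℕ
  n : ℕ
  n1 : ℕ
  mul : ℕ → ℕ → ℕ
  inv : ℕ → ℕ
  m : ℕ → ℕ
  nr : ℕ → ℕ
  bs : ℕ → ℕ
  rk : ℕ → ℕ → ℕ
  sp : ℕ → ℕ → ℕ
  can : ℕ → ℕ → ℕ
  ft : ℕ → ℕ
  pr : ℕ → ℕ
  et : ℕ → ℕ
  nA : ℕ
  ax : ℕ → ℕ
  nL : ℕ
  lf : ℕ → ℕ
  lp : ℕ → ℕ
  ng : ℕ
  gen : ℕ → ℕ
  wt : ℕ → ℕ
  sy : ℕ → ℕ
  bl : ℕ → ℕ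
  bp : ℕ → ℕ
  nv : ℕ
  nq : ℕ
  oq : ℕ → ℕ
  cz : ℕ → ℕ

/-- A fact: class code, sign, left and right factor, level. -/
structure Fa where
  c : ℕ
  e : ℕ
  a : ℕ
  b : ℕ
  l : ℕ

def f0 : Fa := ⟨0, 0, 0, 0, 0⟩

def dec (F : ℕ) : Fa :=
  ⟨Nat.land F 8388607, bits F 23 1, bits F 24 511, bits F 33 511, bits F 42 63⟩

def code (i k j : ℕ) : ℕ := Nat.add (Nat.add i (Nat.mul 128 j)) (Nat.mul 16384 k)
def pI (p : ℕ) : ℕ := Nat.land p 127
def pJ (p : ℕ) : ℕ := bits p 7 127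
def pK (p : ℕ) : ℕ := bits p 14 511

def eqF (F G : Fa) : Bool :=
  an (Nat.beq F.c G.c) (an (Nat.beq F.e G.e) (an (Nat.beq F.a G.a) (Nat.beq F.b G.b)))

namespace Dat

variable (D : Dat)

def ad (i t l : ℕ) : ℕ := Nat.add (Nat.add (D.bs i) (Nat.mul t (Nat.sub D.n i))) l
def ss (i u : ℕ) : ℕ := Nat.land (D.sp i u) 511
def st (i u : ℕ) : ℕ := bits (D.sp i u) 9 511
def cb (i k : ℕ) : ℕ := Nat.land (D.can i k) 262143
def cs (i k : ℕ) : ℕ := bits (D.can i k) 18 511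
def cx (i k : ℕ) : ℕ := bits (D.can i k) 27 511
def ps (t : ℕ) : ℕ := bits (D.ax t) 48 8388607

def flip (F : Fa) : Fa := ⟨F.c, Nat.sub 1 F.e, D.inv F.b, D.inv F.a, F.l⟩

def get1 (s F : ℕ) : Fa :=
  ⟨Nat.land F 8388607, bits F 23 1, D.mul s (bits F 24 511), bits F 33 511, bits F 42 63⟩

def get0 (i k j : ℕ) : Fa :=
  fc f0 (D.can i k) fun X =>
    fc f0 (D.ft (Nat.add (Nat.land X 262143) (Nat.sub D.n1 j))) (D.get1 (bits X 18 511))

def get (i k j : ℕ) : Fa :=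
  Bool.rec (motive := fun _ => Fa) (D.get0 i k j) (D.flip (D.get0 j (D.inv k) i)) (Nat.blt j i)

def app1 (q X : Fa) : Fa := ⟨q.c, X.e, D.mul q.a X.a, D.mul X.b q.b, q.l⟩

def app (q : Fa) (l : ℕ) : Fa :=
  Nat.rec (motive := fun _ => Fa) q (fun _ _ => D.app1 q (dec (D.lf l))) l

def appOk (q : Fa) (l L : ℕ) : Bool :=
  Nat.rec (motive := fun _ => Bool) true (fun _ _ =>
    an (Nat.blt l D.nL) (an (Nat.beq (dec (D.lf l)).c q.c)
      (an (Nat.beq (bits (D.lf l) 48 1) q.e) (Nat.blt (dec (D.lf l)).l L)))) l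

def eC (q r q' r' p' : Fa) (L : ℕ) (kk : Fa → Bool) : Bool :=
  an (Nat.blt q'.l L) (an (Nat.blt r'.l L) (an (Nat.blt p'.l L)
    (an (Nat.beq q.c q'.c) (an (Nat.beq q.e q'.e) (an (Nat.beq r.c r'.c) (an (Nat.beq r.e r'.e)
      (an (Nat.beq (D.mul q.b r.a) (D.mul q'.b r'.a))
        (kk ⟨p'.c, p'.e, D.mul (D.mul q.a (D.inv q'.a)) p'.a,
          D.mul (D.mul p'.b (D.inv r'.b)) r.b, 0⟩))))))))

def eB (q r : Fa) (i j k k1 m l1 l2 L : ℕ) (kk : Fa → Bool) : Bool :=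
  an (Nat.blt i D.n) (an (Nat.blt j D.n) (an (Nat.blt m D.n) (an (Nat.blt k D.nK)
    (an (Nat.blt k1 D.nK) (an (Nat.blt q.l L) (an (Nat.blt r.l L)
      (an (D.appOk q l1 L) (an (D.appOk r l2 L)
        (D.eC (D.app q l1) (D.app r l2) (D.get i k1 m) (D.get m (D.mul (D.inv k1) k) j)
          (D.get i k j) L kk)))))))))

/-- A fact for the product of two elements with facts `q` and `r`. -/
def eA (q r : Fa) (x L : ℕ) (kk : Fa → Bool) : Bool :=
  D.eB q r (bits x 16 127) (bits x 23 127) (bits x 30 511) (bits x 39 511) (bits x 48 127)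
    (bits x 55 4095) (bits x 67 4095) L kk

def rE1 (i k j k1 m x L : ℕ) (kk : Fa → Bool) : Bool :=
  an (Nat.blt m D.n) (an (Nat.blt k1 D.nK)
    (D.eA (D.get i k1 m) (D.get m (D.mul (D.inv k1) k) j) x L kk))

def rE (i k j y L : ℕ) (kk : Fa → Bool) : Bool :=
  fc false (D.et y) fun x => D.rE1 i k j (Nat.land x 511) (bits x 9 127) x L kk

def rM1 (F : Fa) (X Y L : ℕ) (kk : Fa → Bool) : Bool :=
  an (Nat.beq (Nat.land X 262143) (Nat.land Y 262143)) (an (Nat.blt F.l L)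
    (kk ⟨F.c, F.e, F.a, D.mul (D.mul F.b (bits Y 18 511)) (D.inv (bits X 18 511)), 0⟩))

def rM (F : Fa) (k j y L : ℕ) (kk : Fa → Bool) : Bool :=
  an (Nat.blt y D.nK) (D.rM1 F (D.can j (D.inv k)) (D.can j (D.inv y)) L kk)

def rD (i k j : ℕ) (kk : Fa → Bool) : Bool := an (Nat.beq i j) (an (Nat.beq k 0) (kk f0))

def rA (i k j y : ℕ) (kk : Fa → Bool) : Bool :=
  an (Nat.blt y D.nA) (an (Nat.beq (D.ps y) (code i k j)) (kk (dec (D.ax y))))

def rule1 (i k j ty y L : ℕ) (kk : Fa → Bool) : Bool :=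
  Nat.rec (motive := fun _ => Bool) (kk ⟨code i k j, 0, 0, 0, 0⟩) (fun t1 _ =>
    Nat.rec (motive := fun _ => Bool) (D.rM (D.get i y j) k j y L kk) (fun t2 _ =>
      Nat.rec (motive := fun _ => Bool) (D.rE i k j y L kk) (fun t3 _ =>
        Nat.rec (motive := fun _ => Bool) (D.rM (D.flip (D.get j (D.inv y) i)) k j y L kk)
          (fun t4 _ => Nat.rec (motive := fun _ => Bool) (rD i k j kk)
            (fun _ _ => D.rA i k j y kk) t4) t3) t2) t1) ty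

/-- Derive a fact for the position `(i, k, j)` from premises of level below `L`. -/
def rule (i k j w L : ℕ) (kk : Fa → Bool) : Bool :=
  D.rule1 i k j (Nat.land w 7) (Nat.shiftRight w 3) L kk

def posOk1 (i k j A : ℕ) : Bool :=
  fc false (D.ft A) fun F => fc false (D.pr A) fun w =>
    D.rule i k j w (bits F 42 63) (eqF (dec F))

def posOk (i t l : ℕ) : Bool :=
  fc false (D.ad i t l) (D.posOk1 i (D.rk i t) (Nat.sub D.n1 l))

def rowOk (i t : ℕ) : Bool := allLT (Nat.sub D.n i) (D.posOk i t)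

def lP1 (X : Fa) (e : ℕ) (F G : Fa) : Bool :=
  an (Nat.beq F.c X.c) (an (Nat.beq G.c X.c) (an (Nat.beq F.e e) (an (Nat.beq G.e X.e)
    (an (Nat.beq X.a (D.mul (D.inv F.a) G.a)) (Nat.beq X.b (D.mul G.b (D.inv F.b)))))))

def lP (X : Fa) (e i k j w : ℕ) : Bool :=
  an (Nat.blt i D.n) (an (Nat.blt j D.n) (an (Nat.blt k D.nK) (an (Nat.blt (D.get i k j).l X.l)
    (D.rule i k j w X.l (D.lP1 X e (D.get i k j))))))

def lB (X : Fa) (l : ℕ) : Bool :=
  an (Nat.blt 0 l) (an (Nat.blt l D.nL) (Nat.blt (dec (D.lf l)).l X.l))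

def lM (X : Fa) (e l1 l2 : ℕ) : Bool :=
  an (D.lB X l1) (an (Nat.beq (bits (D.lf l1) 48 1) e) (an (D.appOk (dec (D.lf l1)) l2 X.l)
    (eqF X (D.app (dec (D.lf l1)) l2))))

def lI (X : Fa) (e l1 : ℕ) : Bool :=
  an (D.lB X l1) (an (Nat.beq (Nat.sub 1 (bits (D.lf l1) 48 1)) e)
    (eqF X (D.flip (dec (D.lf l1)))))

def loopOk (l : ℕ) : Bool :=
  fc false (D.lf l) fun F => fc false (D.lp l) fun w =>
    Nat.rec (motive := fun _ => Bool)
      (D.lP (dec F) (bits F 48 1) (bits w 2 127) (bits w 16 511) (bits w 9 127)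
        (Nat.shiftRight w 25))
      (fun t _ => Nat.rec (motive := fun _ => Bool)
        (D.lM (dec F) (bits F 48 1) (bits w 2 4095) (bits w 14 4095))
        (fun _ _ => D.lI (dec F) (bits F 48 1) (bits w 2 4095)) t) (Nat.land w 3)

def spOk1 (i u s t ty a b : ℕ) : Bool :=
  an (Nat.blt s D.nK) (an (Nat.blt t D.nK)
    (Nat.rec (motive := fun _ => Bool) (an (Nat.beq i 0) (Nat.beq s t)) (fun t1 _ =>
      Nat.rec (motive := fun _ => Bool) (an (Nat.beq s 0) (Nat.beq t 0)) (fun t2 _ =>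
        Nat.rec (motive := fun _ => Bool) (D.rA i s i a (eqF ⟨0, 0, t, 0, 0⟩)) (fun _ _ =>
          an (Nat.blt a u) (an (Nat.blt b u) (an (Nat.beq s (D.mul (D.ss i a) (D.ss i b)))
            (Nat.beq t (D.mul (D.st i a) (D.st i b)))))) t2) t1) ty))

def spOk (i u : ℕ) : Bool :=
  D.spOk1 i u (D.ss i u) (D.st i u) (bits (D.sp i u) 18 3) (bits (D.sp i u) 20 511)
    (bits (D.sp i u) 29 511)

def canOk1 (i k x u t : ℕ) : Bool :=
  an (Nat.blt x D.nK) (an (Nat.beq (D.mul (D.ss i u) (D.rk i t)) k)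
    (an (Nat.beq (D.cs i k) (D.st i u)) (Nat.beq (D.cb i k) (D.ad i t 0))))

def canOk (i k : ℕ) : Bool :=
  D.canOk1 i k (D.cx i k) (Nat.mod (D.cx i k) (D.m i)) (Nat.div (D.cx i k) (D.m i))

def orbOk (i : ℕ) : Bool :=
  an (Nat.beq (Nat.mul (D.m i) (D.nr i)) D.nK) (an (Nat.beq (D.bs (Nat.succ i)) (D.ad i (D.nr i) 0))
    (an (allLT (D.m i) (D.spOk i)) (an (allLT (D.nr i) fun t => Nat.blt (D.rk i t) D.nK)
      (allLT D.nK (D.canOk i)))))

def blOk1 (j i k a : ℕ) : Bool :=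
  an (Nat.blt i D.n) (an (Nat.blt k D.nK) (an (Nat.blt a D.ng)
    (an (Nat.beq (D.get i k j).c (Nat.mul 128 (D.gen a))) (Nat.blt (D.bl i) (D.bl j)))))

def blOk (j : ℕ) : Bool := D.blOk1 j (pI (D.bp j)) (pK (D.bp j)) (pJ (D.bp j))

def genOk (a : ℕ) : Bool :=
  an (Nat.blt (D.gen a) D.n) (an (Nat.blt 0 (D.wt a))
    (an (Nat.beq (D.oq (Nat.succ a)) (Nat.add (D.oq a) (D.nr (D.gen a))))
      (D.rA (D.gen a) 0 0 (D.sy a) fun F =>
        an (Nat.beq F.c (Nat.mul 128 (D.gen a))) (Nat.beq F.e 0))))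

/-- The address of a virtual position. -/
def va (v a t : ℕ) : ℕ :=
  Nat.add (Nat.add (Nat.add (D.bs D.n) (Nat.mul D.nq v)) (D.oq a)) t

def virOk1 (q r : Fa) (A : ℕ) : Bool :=
  fc false (D.et (Nat.shiftRight (D.pr A) 3)) fun x =>
    D.eA q r x 64 fun F => Nat.beq F.c (Nat.land (D.ft A) 8388607)

def virOk2 (v i k j : ℕ) : Bool :=
  an (Nat.blt i D.n) (an (Nat.blt j D.n) (an (Nat.blt k D.nK)
    (allLT (Nat.succ D.ng) fun a => allLT (D.nr (D.gen a)) fun t =>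
      fc false (D.va v a t) (D.virOk1 (D.get (D.gen a) (D.rk (D.gen a) t) 0) (D.get i k j)))))

def virOk (v : ℕ) : Bool := D.virOk2 v (pI (D.cz v)) (pK (D.cz v)) (pJ (D.cz v))

/-- The number of addresses. -/
def nT : ℕ := Nat.add (D.bs D.n) (Nat.mul D.nq D.nv)

def bd (c : ℕ) : ℕ :=
  Nat.mul (Nat.add (D.bl (pI c)) (D.bl (pJ c))) (Nat.add (D.bl (pI c)) (D.bl (pJ c)))

end Dat

/-- The numerical data. -/
structure Cer where
  cv : ℕ → ℕ
  pi : ℕ → ℕ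
  nS : ℕ
  sg : ℕ → ℕ
  rb : ℕ → ℕ
  mu : ℕ → ℕ
  ch : ℕ → ℕ
  nG : ℕ → ℕ
  dr : ℕ → ℕ → ℕ
  LL : ℕ → ℕ → List ℕ

namespace Cer

variable (C : Cer) (D : Dat)

def ky (a : ℕ) : ℕ := Nat.add (Nat.shiftLeft (Nat.land (D.ft a) 8388607) 18) a

def fl (kp t R : ℕ) : ℕ :=
  Nat.add R (Nat.mul (Nat.sub t 1180591620717411303424) (D.bd (Nat.shiftRight kp 18)))

def go (x0 T b len : ℕ) : ℕ → ℕ → ℕ → Bool :=
  Nat.rec (motive := fun _ => ℕ → ℕ → ℕ → Bool) (fun kp t R => Nat.ble (fl D kp t R) b)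
    (fun l ih kp t R => fc false (C.pi (Nat.add x0 l)) fun a => fc false (ky D a) fun key =>
      an (Nat.blt key kp) (an (Nat.blt a T)
        (Bool.rec (motive := fun _ => Bool)
          (fc false (fl D kp t R) fun R' =>
            fc false (Nat.sub 1180591761454899658752 (C.cv a)) fun t' => ih key t' R')
          (fc false (Nat.sub (Nat.add t 140737488355328) (C.cv a)) fun t' => ih key t' R)
          (Nat.beq (Nat.shiftRight key 18) (Nat.shiftRight kp 18))))) len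

def segOk (s : ℕ) : Bool :=
  fc false (C.sg s) fun x0 => fc false (C.sg (Nat.succ s)) fun x1 => fc false D.nT fun T =>
    an (Nat.ble x0 x1) (fc false (ky D (C.pi x1)) fun kp =>
      C.go D x0 T (C.rb s) (Nat.sub x1 x0) kp 1180591620717411303424 0)

def vc1 (A y w : ℕ) : Bool :=
  Nat.ble (Nat.add (C.cv A) (Nat.mul y w))
    (Nat.add 140737488355328 (Nat.mul 1099511627776 w))

def vc2 (A y w : ℕ) : Bool :=
  Nat.ble (Nat.add (C.cv A) (Nat.mul 1099511627776 w))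
    (Nat.add 140737488355328 (Nat.mul y w))

def vcOk (v : ℕ) : Bool :=
  an (allLT D.ng fun a => allLT (D.nr (D.gen a)) fun t =>
      C.vc1 (D.va v a t) (C.mu v) (Nat.mul (D.m (D.gen a)) (D.wt a)))
    (C.vc2 (D.va v D.ng 0) (C.mu v) (Nat.mul D.nK (sumLT D.ng D.wt)))

def finOk : Bool :=
  allLT D.ng fun a => Nat.blt (Nat.add (sumLT C.nS C.rb)
    (Nat.mul (Nat.mul D.nv 1099511627776) (Nat.mul D.nK (D.wt a))))
      (Nat.mul (sumLT D.nv C.mu) (Nat.mul D.nK (D.wt a)))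

def on (i : ℕ) : ℕ := pk 96 (Nat.sub D.n i) fun _ => 1
def mk' (i : ℕ) : ℕ := Nat.mul (on D i) 4294967295
def sh (i : ℕ) : ℕ := Nat.mul 96 (Nat.sub D.n1 i)

def drp (n : ℕ) (l : List ℕ) : List ℕ :=
  Nat.rec (motive := fun _ => List ℕ) l
    (fun _ r => List.rec (motive := fun _ => List ℕ) [] (fun _ t _ => t) r) n

def col (b d i : ℕ) : List ℕ := drp (C.dr b i) (C.LL b d)

def ln (h i : ℕ) : ℕ := bits h (sh D i) 79228162514264337593543950335

def tri (x h M : ℕ) : ℕ :=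
  Nat.add (Nat.add (Nat.mul (Nat.land x 4294967295) (Nat.land h M))
    (Nat.mul (bits x 32 4294967295) (bits h 32 M))) (Nat.mul (Nat.shiftRight x 64) (bits h 64 M))

def dot (i : ℕ) (l1 : List ℕ) : List ℕ → ℕ :=
  List.rec (motive := fun _ => List ℕ → ℕ) (fun _ => 0) (fun h1 _ ih l2 =>
    List.rec (motive := fun _ => ℕ) 0
      (fun h2 t2 _ => Nat.add (tri (ln D h1 i) h2 (mk' D i)) (ih t2)) l2) l1

def sm (i : ℕ) (l : List ℕ) : ℕ :=
  List.rec (motive := fun _ => ℕ) 0 (fun h _ ih => Nat.add (Nat.add (Nat.add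
    (Nat.land h (mk' D i)) (bits h 32 (mk' D i))) (bits h 64 (mk' D i))) ih) l

def sc (i b d : ℕ) : ℕ := sm D i (C.col b d i)

def wp (i b d e : ℕ) : ℕ :=
  Nat.sub (Nat.add (dot D i (C.col b d i) (C.col b e i))
      (Nat.mul (Nat.add (Nat.mul (Nat.sub (C.nG b) (C.dr b i)) 13835058055282163712)
        4722366482869645213696) (on D i)))
    (Nat.mul 2147483648 (Nat.add (C.sc D i b e)
      (Nat.mul (Nat.shiftRight (C.sc D i b d) (sh D i)) (on D i))))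

def wq (i x e : ℕ) : ℕ :=
  fc 0 (Nat.div x 10) fun b => fc 0 (Nat.mod x 10) fun d => C.wp D i b d e

def ws (i x y : ℕ) : ℕ :=
  fc 0 (Nat.shiftRight y 1) fun e =>
    Nat.rec (motive := fun _ => ℕ) (C.wq D i x e)
      (fun _ _ => Nat.sub (Nat.mul 9444732965739290427392 (on D i)) (C.wq D i x e)) (Nat.land y 1)

def ina1 (i : ℕ) (l : List ℕ) : Bool :=
  List.rec (motive := fun _ => Bool) true
    (fun h _ ih => an (Nat.beq (ln D h i) 39614081266355540835774234624) ih) l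

def ina (i x : ℕ) : Bool :=
  fc false (Nat.div x 10) fun b => fc false (Nat.mod x 10) fun d => ina1 D i (C.col b d i)

def actL (i : ℕ) : List ℕ :=
  Nat.rec (motive := fun _ => List ℕ) []
    (fun x r => Bool.rec (motive := fun _ => List ℕ) (x :: r) r (C.ina D i x)) 80

def dl (x : ℕ) : ℕ := Nat.mul 32 (Nat.mod x 10)
def cx (x : ℕ) : ℕ := C.ch (Nat.div x 10)
def par (y : ℕ) : ℕ := bits 2523490710 y 1

def ix1 (c T : ℕ) : ℕ := Nat.add (Nat.mul 2 (Nat.shiftRight T 5)) (par (Nat.land c T))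
def ix (x k : ℕ) : ℕ := ix1 (C.cx x) (D.mul (dl x) k)

def sumL (l : List ℕ) (f : ℕ → ℕ) : ℕ :=
  List.rec (motive := fun _ => ℕ) 0 (fun x _ ih => Nat.add (f x) ih) l

def row (i t : ℕ) : ℕ :=
  sumLT (D.m i) fun u => fc 0 (D.mul (D.ss i u) (D.rk i t)) fun k =>
    sumL (C.actL D i) fun x => fc 0 (C.ix D x k) (C.ws D i x)

def cn (i : ℕ) : ℕ :=
  Nat.mul (Nat.mul (D.m i) (sumL (C.actL D i) fun _ => 1)) 4722366482869645213696

def laneOk (R A c w l : ℕ) : Bool :=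
  Nat.ble (Nat.add (Nat.shiftLeft (C.cv (Nat.add A l)) 24) (Nat.mul w c))
    (Nat.add (Nat.mul w (bits R (Nat.mul 96 l) 79228162514264337593543950335))
      2361183241434822606848)

def rowOk (i t : ℕ) : Bool :=
  fc false (C.row D i t) fun R => fc false (D.ad i t 0) fun A =>
    an (C.laneOk R A (C.cn D i) 1 (Nat.sub D.n1 i))
      (allLT (Nat.sub D.n1 i) (C.laneOk R A (C.cn D i) 2))

def dg (b p u d j : ℕ) : ℕ :=
  bits ((C.LL b d).getD p 0) (Nat.add (sh D j) (Nat.mul 32 u)) 4294967295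

def zsOk (p u : ℕ) : Bool :=
  Nat.beq (sumLT 10 fun d => sumLT D.n fun j =>
      Bool.rec (motive := fun _ => ℕ) 2147483648 (C.dg D 0 p u d j) (Nat.ble (C.dr 0 j) p))
    (Nat.mul D.n 21474836480)

def blkOk (b : ℕ) : Bool :=
  an (Nat.blt (C.ch b) 32) (an (Nat.ble (C.nG b) 128)
    (an (allLT 10 fun d => Nat.beq (C.LL b d).length (C.nG b))
      (allLT D.n1 fun i => Nat.ble (C.dr b (Nat.succ i)) (C.dr b i))))

end Cer

end Pool.Agent.MC
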