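import Pool.Agent.Lib.MP_c86c76_al.C.Bas

/-!
Gathering the coefficients by class, and the energy inequality.
-/

set_option autoImplicit false

noncomputable section

namespace Pool.Agent.MC

open Finset

theorem gat_ky (D : Dat) {a : ℕ} (ha : a < 262144) :
    Nat.shiftRight (Cer.ky D a) 18 = (dec (D.ft a)).c := by
  show ((dec (D.ft a)).c <<< 18 + a) >>> 18 = _
  rw [Nat.shiftRight_eq_div_pow, Nat.shiftLeft_eq]
  omega

theorem gat_sub (a b : ℕ) : (a : ℝ) - b ≤ (Nat.sub a b : ℕ) := by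
  have : a ≤ Nat.sub a b + b := by
    show a ≤ a - b + b
    omega
  rw [sub_le_iff_le_add]
  exact_mod_cast this

theorem gat_fl (D : Dat) {Φ : ℕ → ℝ} {M : ℝ} (h0 : ∀ c, 0 ≤ Φ c) (h1 : ∀ c, Φ c ≤ D.bd c * M)
    (kp t R : ℕ) (S : ℝ) (h : 0 ≤ S + ((t : ℝ) - 2 ^ 70) * Φ (Nat.shiftRight kp 18) + R * M) :
    0 ≤ S + (Cer.fl D kp t R : ℕ) * M := by
  have h2 := gat_sub t 1180591620717411303424
  have h4 := mul_le_mul_of_nonneg_right h2 (h0 (Nat.shiftRight kp 18))
  have h5 := mul_le_mul_of_nonneg_left (h1 (Nat.shiftRight kp 18))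
    (Nat.cast_nonneg (α := ℝ) (Nat.sub t 1180591620717411303424))
  rw [Cer.fl, Nat.add_eq, Nat.mul_eq, Nat.cast_add, Nat.cast_mul]
  rw [Nat.cast_ofNat] at h4
  linarith

theorem gat_succ (D : Dat) (C : Cer) (x0 T b n kp t R : ℕ) : C.go D x0 T b (n + 1) kp t R =
    an (Nat.blt (Cer.ky D (C.pi (x0 + n))) kp) (an (Nat.blt (C.pi (x0 + n)) T)
      (Bool.rec (motive := fun _ => Bool)
        (C.go D x0 T b n (Cer.ky D (C.pi (x0 + n)))
          (Nat.sub 1180591761454899658752 (C.cv (C.pi (x0 + n)))) (Cer.fl D kp t R))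
        (C.go D x0 T b n (Cer.ky D (C.pi (x0 + n)))
          (Nat.sub (Nat.add t 140737488355328) (C.cv (C.pi (x0 + n)))) R)
        (Nat.beq (Nat.shiftRight (Cer.ky D (C.pi (x0 + n))) 18) (Nat.shiftRight kp 18)))) := by
  show fc false (C.pi (x0 + n)) (fun a => fc false (Cer.ky D a) fun key =>
    an (Nat.blt key kp) (an (Nat.blt a T) (Bool.rec (motive := fun _ => Bool)
      (fc false (Cer.fl D kp t R) fun R' => fc false (Nat.sub 1180591761454899658752 (C.cv a))
        fun t' => C.go D x0 T b n key t' R')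
      (fc false (Nat.sub (Nat.add t 140737488355328) (C.cv a)) fun t' => C.go D x0 T b n key t' R)
      (Nat.beq (Nat.shiftRight key 18) (Nat.shiftRight kp 18))))) = _
  rw [fc_eq, fc_eq, fc_eq, fc_eq, fc_eq]

theorem gat_go (D : Dat) (C : Cer) {Φ : ℕ → ℝ} {M : ℝ} (h0 : ∀ c, 0 ≤ Φ c)
    (h1 : ∀ c, Φ c ≤ D.bd c * M) (hM : 0 ≤ M) {x0 T b : ℕ} (hT : T ≤ 262144) (len : ℕ) :
    ∀ (t R : ℕ) (S : ℝ), C.go D x0 T b len (Cer.ky D (C.pi (x0 + len))) t R = true →
      0 ≤ S + ((t : ℝ) - 2 ^ 70) * Φ (Nat.shiftRight (Cer.ky D (C.pi (x0 + len))) 18) + R * M →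
      0 ≤ S + ∑ l ∈ range len, ((C.cv (C.pi (x0 + l)) : ℝ) - 2 ^ 47) *
        Φ (dec (D.ft (C.pi (x0 + l)))).c + b * M ∧
      ∀ l < len, C.pi (x0 + l) < T ∧ Cer.ky D (C.pi (x0 + l)) < Cer.ky D (C.pi (x0 + l + 1)) := by
  have hfl := gat_fl D h0 h1
  induction len with
  | zero =>
    intro t R S h hS
    have h2 : (Cer.fl D (Cer.ky D (C.pi (x0 + 0))) t R : ℝ) ≤ b := by
      exact_mod_cast Nat.le_of_ble_eq_true h
    have := hfl _ t R S hS
    refine ⟨?_, fun l hl => absurd hl (Nat.not_lt_zero l)⟩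
    rw [sum_range_zero]
    nlinarith
  | succ n ih =>
    intro t R S h hS
    rw [gat_succ, an_iff, an_iff] at h
    obtain ⟨h2, h3, h⟩ := h
    replace h2 : Cer.ky D (C.pi (x0 + n)) < Cer.ky D (C.pi (x0 + n + 1)) := Nat.blt_eq.mp h2
    replace h3 : C.pi (x0 + n) < T := Nat.blt_eq.mp h3
    have hk := gat_ky D (h3.trans_le hT)
    have hp := h0 (dec (D.ft (C.pi (x0 + n)))).c
    obtain ⟨t', R', h4, h5⟩ : ∃ t' R', C.go D x0 T b n (Cer.ky D (C.pi (x0 + n))) t' R' = true ∧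
        0 ≤ S + ((C.cv (C.pi (x0 + n)) : ℝ) - 2 ^ 47) * Φ (dec (D.ft (C.pi (x0 + n)))).c +
          ((t' : ℝ) - 2 ^ 70) * Φ (Nat.shiftRight (Cer.ky D (C.pi (x0 + n))) 18) + R' * M := by
      cases hb : Nat.beq (Nat.shiftRight (Cer.ky D (C.pi (x0 + n))) 18)
        (Nat.shiftRight (Cer.ky D (C.pi (x0 + (n + 1)))) 18) with
      | false =>
        rw [hb] at h
        refine ⟨_, _, h, ?_⟩
        have h6 := hfl _ t R S hS
        have h7 := mul_le_mul_of_nonneg_right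
          (gat_sub 1180591761454899658752 (C.cv (C.pi (x0 + n)))) hp
        rw [hk]
        rw [Nat.cast_ofNat] at h7
        linarith
      | true =>
        rw [hb] at h
        refine ⟨_, _, h, ?_⟩
        have h7 := mul_le_mul_of_nonneg_right
          (gat_sub (Nat.add t 140737488355328) (C.cv (C.pi (x0 + n)))) hp
        rw [← Nat.eq_of_beq_eq_true hb, hk] at hS
        rw [hk]
        nth_rw 1 [Nat.add_eq] at h7
        rw [Nat.cast_add, Nat.cast_ofNat] at h7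
        linarith
    obtain ⟨h6, h7⟩ := ih t' R' _ h4 h5
    refine ⟨by rw [sum_range_succ]; linarith, fun l hl => ?_⟩
    rcases Nat.lt_succ_iff_lt_or_eq.1 hl with h8 | rfl
    exacts [h7 l h8, ⟨h3, h2⟩]

theorem gatSt : GatSt := by
  intro D C hG Φ M hM h0 h1
  set F : ℕ → ℝ := fun A => ((C.cv A : ℝ) - 2 ^ 47) * Φ (dec (D.ft A)).c with hF
  have key : ∀ s ≤ C.nS, -((∑ s ∈ range s, C.rb s : ℕ) * M) ≤ ∑ x ∈ range (C.sg s), F (C.pi x) ∧
      ∀ x < C.sg s, C.pi x < D.nT ∧ Cer.ky D (C.pi x) < Cer.ky D (C.pi (x + 1)) := by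
    intro s
    induction s with
    | zero => simp [hG.s0]
    | succ s ih =>
      intro hs
      obtain ⟨i1, i2⟩ := ih (by omega)
      obtain ⟨h2, h3⟩ := (an_iff _ _).1 (hG.seg s hs)
      obtain ⟨n, hn⟩ := Nat.exists_eq_add_of_le (Nat.le_of_ble_eq_true h2 : C.sg s ≤ C.sg (s + 1))
      replace h3 : C.go D (C.sg s) D.nT (C.rb s) (C.sg (s + 1) - C.sg s)
        (Cer.ky D (C.pi (C.sg (s + 1)))) 1180591620717411303424 0 = true := h3
      rw [hn, Nat.add_sub_cancel_left] at h3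
      obtain ⟨h4, h5⟩ := gat_go D C h0 h1 hM hG.nT n _ _ 0 h3 (by norm_num)
      rw [hn, sum_range_succ, sum_range_add _ (C.sg s)]
      refine ⟨by simp only [hF] at i1 ⊢; push_cast at i1 ⊢; linarith, fun x hx => ?_⟩
      by_cases h : x < C.sg s
      · exact i2 x h
      · obtain ⟨l, rfl⟩ := Nat.exists_eq_add_of_le (not_lt.1 h)
        exact h5 l (by omega)
  obtain ⟨h2, h3⟩ := key _ le_rfl
  rw [hG.s1] at h2 h3
  have h4 : ∀ x y, x < y → y ≤ D.nT → Cer.ky D (C.pi x) < Cer.ky D (C.pi y) := by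
    intro x y hxy
    induction y, hxy using Nat.le_induction with
    | base => exact fun h => (h3 x h).2
    | succ y _ ih => exact fun h => (ih (by omega)).trans (h3 y h).2
  have h5 : Set.InjOn C.pi (range D.nT : Finset ℕ) := fun x hx y hy e => by
    have hx' := mem_range.1 hx
    have hy' := mem_range.1 hy
    rcases lt_trichotomy x y with h | h | h
    · exact absurd (h4 x y h hy'.le) (by rw [e]; exact lt_irrefl _)
    · exact h
    · exact absurd (h4 y x h hx'.le) (by rw [e]; exact lt_irrefl _)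
  have h6 : (range D.nT).image C.pi = range D.nT :=
    eq_of_subset_of_card_le (image_subset_iff.2 fun x hx => mem_range.2 (h3 x (mem_range.1 hx)).1)
      (card_image_of_injOn h5).ge
  rwa [← sum_image h5, h6] at h2

theorem gat_mul (F : ℕ → ℝ) (a b : ℕ) :
    ∑ x ∈ range (a * b), F x = ∑ t ∈ range a, ∑ l ∈ range b, F (t * b + l) := by
  induction a with
  | zero => simp
  | succ a ih => rw [add_mul, one_mul, sum_range_add, ih, sum_range_succ]

theorem gat_tile (F : ℕ → ℝ) (o w : ℕ → ℕ) (n : ℕ) (h0 : o 0 = 0)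
    (h : ∀ i < n, o (i + 1) = o i + w i) :
    ∑ x ∈ range (o n), F x = ∑ i ∈ range n, ∑ t ∈ range (w i), F (o i + t) := by
  induction n with
  | zero => simp [h0]
  | succ n ih =>
    rw [h n (by omega), sum_range_add, ih fun i hi => h i (by omega), sum_range_succ]

section Asm

variable {G : Type} [Group G] {κ g : ℕ → G} {D : Dat}
  {H : Type} [NormedAddCommGroup H] [InnerProductSpace ℝ H] {f : G → H}

omit [InnerProductSpace ℝ H] in
theorem gat_len (hm : Model κ g D) (hv : Vir κ g D) (hf : Eqv κ f) (j : ℕ) :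
    √(ph f (g j)) ≤ D.bl j * √(en g D f) := by
  induction hb : D.bl j using Nat.strong_induction_on generalizing j with
  | _ b ih =>
    by_cases h : 0 < j ∧ j < D.n
    · obtain ⟨i, k, a, x, y, e, ha, hi, hz⟩ := hv.bl j h.1 h.2
      have h1 : g j = (κ k)⁻¹ * (g i * zz κ g i k j) := by simp [zz, mul_assoc]
      have h2 := hf.tri (g i) (zz κ g i k j)
      have h3 := ih _ (hb ▸ hi) i rfl
      have h4 : √(ph f (g (D.gen a))) ≤ √(en g D f) := Real.sqrt_le_sqrt
        (single_le_sum (f := fun a => ph f (g (D.gen a))) (fun _ _ => ph_nonneg _) (mem_range.2 ha))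
      have h5 : (D.bl i : ℝ) + 1 ≤ b := by exact_mod_cast hb ▸ hi
      rw [h1, hf.left']
      rw [show ph f (zz κ g i k j) = ph f (g (D.gen a)) by rw [hz, hf.cls]] at h2
      nlinarith [Real.sqrt_nonneg (en g D f)]
    · have : g j = 1 := by
        rcases Nat.eq_zero_or_pos j with rfl | h1
        exacts [hm.g0, hm.gout j (by omega)]
      rw [this, ph_one, Real.sqrt_zero]
      positivity

theorem gat_har (hK : KOk D) (hm : Model κ g D) (hc : Can κ g D) (hv : Vir κ g D) (hf : Eqv κ f)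
    (z : G) : ∑ a ∈ range D.ng, ∑ t ∈ range (D.nr (D.gen a)), ((D.m (D.gen a) : ℝ) * D.wt a) *
      ph f (zz κ g (D.gen a) (D.rk (D.gen a) t) 0 * z) =
    D.nK * (∑ a ∈ range D.ng, (D.wt a : ℝ)) * ph f z +
      ∑ a ∈ range D.ng, (D.nK : ℝ) * D.wt a * ph f (g (D.gen a)) +
      2 * inner ℝ (f z - f 1) (lap κ g D f) := by
  rw [lap, inner_sum, mul_sum, mul_sum, sum_mul, ← sum_add_distrib, ← sum_add_distrib]
  refine sum_congr rfl fun a ha => ?_
  have hn := (hv.gen a (mem_range.1 ha)).1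
  have h1 : ∑ t ∈ range (D.nr (D.gen a)), (D.m (D.gen a) : ℝ) *
      ph f (zz κ g (D.gen a) (D.rk (D.gen a) t) 0 * z) =
      ∑ k ∈ range D.nK, ph f (zz κ g (D.gen a) k 0 * z) := by
    rw [hc.sum _ hn]
    refine sum_congr rfl fun t ht => ?_
    rw [sum_congr rfl (g := fun _ => ph f (zz κ g (D.gen a) (D.rk (D.gen a) t) 0 * z)), sum_const,
      card_range, nsmul_eq_mul]
    intro u hu
    obtain ⟨h2, -, h3⟩ := hc.ss _ hn u (mem_range.1 hu)
    rw [zz, hm.mul _ h2 _ (hc.rk _ hn t (mem_range.1 ht)), ← mul_assoc, h3,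
      ← hf.left (zz κ g _ _ 0 * z) (D.st (D.gen a) u)]
    simp only [zz, mul_assoc]
  have h2 : ∑ k ∈ range D.nK, ph f (zz κ g (D.gen a) k 0 * z) =
      ∑ k ∈ range D.nK, ph f ((κ k * g (D.gen a))⁻¹ * z) :=
    sum_nbij' D.inv D.inv (fun k hk => mem_range.2 (hK.inv k (mem_range.1 hk)).1)
      (fun k hk => mem_range.2 (hK.inv k (mem_range.1 hk)).1)
      (fun k hk => (hK.inv k (mem_range.1 hk)).2.2) (fun k hk => (hK.inv k (mem_range.1 hk)).2.2)
      fun k hk => by rw [hm.kinv hK (mem_range.1 hk), zz, hm.g0]; simp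
  have h3 : ∀ k ∈ range D.nK, ph f ((κ k * g (D.gen a))⁻¹ * z) = ph f z + ph f (g (D.gen a)) +
      2 * inner ℝ (f z - f 1) (f 1 - f (κ k * g (D.gen a))) := fun k _ => by
    rw [← hf.dist, ← sub_add_sub_cancel _ (f 1), norm_add_sq_real, ← hf.left (g _) k, ph, ph,
      norm_sub_rev (f 1)]
    ring
  rw [sum_congr rfl h3, sum_add_distrib, sum_const, card_range, nsmul_eq_mul, ← mul_sum,
    ← inner_sum, ← h1] at h2
  rw [inner_smul_right]
  simp only [mul_comm (D.m (D.gen a) : ℝ) (D.wt a), mul_assoc (D.wt a : ℝ), ← mul_sum] at h2 ⊢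
  rw [h2]
  ring

end Asm

theorem asmSt : AsmSt := by
  intro hG D C G _ κ g hK hm hco hc hd hvo hv hgo hfo hs
  let μ : ℕ → ℝ := fun v => (C.mu v : ℝ) - 2 ^ 40
  let β : ℕ → ℝ := fun c => (D.bl (pI c) : ℝ) + D.bl (pJ c)
  have a1 : 0 ≤ ∑ v ∈ range D.nv, 2 * |μ v| * β (D.cz v) := sum_nonneg fun _ _ => by positivity
  have a2 : 0 ≤ ∑ j ∈ range D.n, (D.bl j : ℝ) ^ 2 := sum_nonneg fun _ _ => by positivity
  refine ⟨1 + ∑ v ∈ range D.nv, 2 * |μ v| * β (D.cz v) + ∑ j ∈ range D.n, (D.bl j : ℝ) ^ 2,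
    by linarith, fun H _ _ f hf => ?_⟩
  have hM : 0 ≤ en g D f := sum_nonneg fun _ _ => ph_nonneg _
  have hsq : ∀ (x : G) (b : ℝ), √(ph f x) ≤ b * √(en g D f) → ph f x ≤ b ^ 2 * en g D f :=
    fun x b h => by
      have := pow_le_pow_left₀ (Real.sqrt_nonneg _) h 2
      rwa [Real.sq_sqrt (ph_nonneg _), mul_pow, Real.sq_sqrt hM] at this
  have hβ : ∀ c, √(ph f (dd κ g c)) ≤ β c * √(en g D f) := fun c => by
    have h1 := hf.tri (g (pI c))⁻¹ (κ (pK c) * g (pJ c))
    rw [hf.inv, hf.left, ← mul_assoc] at h1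
    exact h1.trans ((add_le_add (gat_len hm hv hf _) (gat_len hm hv hf _)).trans_eq
      (add_mul _ _ _).symm)
  refine ⟨?_, fun j => ?_⟩
  swap
  · by_cases hj : j < D.n
    · refine (hsq _ _ (gat_len hm hv hf j)).trans (mul_le_mul_of_nonneg_right ?_ hM)
      have := single_le_sum (f := fun j => (D.bl j : ℝ) ^ 2) (fun _ _ => by positivity)
        (mem_range.2 hj)
      linarith
    · rw [hm.gout j (not_lt.1 hj), ph_one]
      positivity
  have h1 := hG D C hgo (fun c => ph f (dd κ g c)) _ hM (fun _ => ph_nonneg _) fun c =>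
    (hsq _ _ (hβ c)).trans_eq (by
      rw [show D.bd c = (D.bl (pI c) + D.bl (pJ c)) * (D.bl (pI c) + D.bl (pJ c)) from rfl]
      simp only [β]; push_cast; ring)
  set F : ℕ → ℝ := fun A => ((C.cv A : ℝ) - 2 ^ 47) * ph f (dd κ g (dec (D.ft A)).c) with hF
  set E := ∑ a ∈ range D.ng, (D.nK : ℝ) * D.wt a * ph f (g (D.gen a)) with hE
  have h2 : ∑ A ∈ range (D.bs D.n), F A ≤ 0 := by
    rw [gat_tile F D.bs _ D.n hco.b0 hc.bs]
    refine Eq.trans_le (sum_congr rfl fun i hi => ?_) (hs H f hf)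
    rw [gat_mul fun x => F (D.bs i + x)]
    refine sum_congr rfl fun t ht => sum_congr rfl fun l hl => ?_
    rw [(hd.pos i (mem_range.1 hi) t (mem_range.1 ht) l (mem_range.1 hl)).2.2, hf.cls, ← add_assoc]
    rfl
  have h3 : ∀ v ∈ range D.nv, ∑ q ∈ range D.nq, F (D.bs D.n + (v * D.nq + q)) ≤
      -(μ v * E) + 2 * |μ v| * β (D.cz v) * √(en g D f) * ‖lap κ g D f‖ := by
    intro v hv'
    replace hv' := mem_range.1 hv'
    obtain ⟨c1, c2⟩ := (an_iff _ _).1 (hfo.vc v hv')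
    have hva : ∀ a t, D.bs D.n + (v * D.nq + (D.oq a + t)) = D.va v a t := fun a t => by
      show _ = D.bs D.n + D.nq * v + D.oq a + t
      ring
    have hcl : ∀ a ≤ D.ng, ∀ t < D.nr (D.gen a), ph f (dd κ g (dec (D.ft (D.va v a t))).c) =
        ph f (zz κ g (D.gen a) (D.rk (D.gen a) t) 0 * dd κ g (D.cz v)) := fun a ha t ht => by
      obtain ⟨x, y, e, h⟩ := hv.vir v hv' a ha t ht
      rw [h, hf.cls]
    have h4 : ∑ a ∈ range D.ng, ∑ t ∈ range (D.nr (D.gen a)), F (D.va v a t) ≤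
        -μ v * ∑ a ∈ range D.ng, ∑ t ∈ range (D.nr (D.gen a)), ((D.m (D.gen a) : ℝ) * D.wt a) *
          ph f (zz κ g (D.gen a) (D.rk (D.gen a) t) 0 * dd κ g (D.cz v)) := by
      simp only [mul_sum]
      refine sum_le_sum fun a ha => sum_le_sum fun t ht => ?_
      have h5 : C.cv (D.va v a t) + C.mu v * (D.m (D.gen a) * D.wt a) ≤
          140737488355328 + 1099511627776 * (D.m (D.gen a) * D.wt a) := Nat.le_of_ble_eq_true
        ((allLT_iff _ _).1 ((allLT_iff _ _).1 c1 a (mem_range.1 ha)) t (mem_range.1 ht))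
      replace h5 := (Nat.cast_le (α := ℝ)).2 h5
      push_cast at h5
      rw [← hcl a (mem_range.1 ha).le t (mem_range.1 ht), ← mul_assoc]
      exact mul_le_mul_of_nonneg_right (by simp only [μ]; linarith) (ph_nonneg _)
    have h5 : F (D.va v D.ng 0) ≤
        μ v * (D.nK * ∑ a ∈ range D.ng, (D.wt a : ℝ)) * ph f (dd κ g (D.cz v)) := by
      have h6 : C.cv (D.va v D.ng 0) + 1099511627776 * (D.nK * sumLT D.ng D.wt) ≤
          140737488355328 + C.mu v * (D.nK * sumLT D.ng D.wt) := Nat.le_of_ble_eq_true c2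
      rw [sumLT_eq] at h6
      replace h6 := (Nat.cast_le (α := ℝ)).2 h6
      push_cast at h6
      have h7 := hcl D.ng le_rfl 0 (Nat.pos_of_mul_pos_left (a := D.m (D.gen D.ng)) (by
        rw [hc.mn _ (by rw [hvo.g0, ← hK.n0]; omega)]; exact hK.k0))
      rw [hvo.g0, zz, hm.g0, inv_one, one_mul, mul_one, hf.left] at h7
      simp only [hF]
      rw [h7]
      exact mul_le_mul_of_nonneg_right (by simp only [μ]; linarith) (ph_nonneg _)
    have h6 : |inner ℝ (f (dd κ g (D.cz v)) - f 1) (lap κ g D f)| ≤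
        β (D.cz v) * √(en g D f) * ‖lap κ g D f‖ := by
      refine (abs_real_inner_le_norm _ _).trans (mul_le_mul_of_nonneg_right ?_ (norm_nonneg _))
      have := hβ (D.cz v)
      rwa [ph, Real.sqrt_sq (norm_nonneg _)] at this
    have h7 := (neg_le_abs _).trans ((abs_mul _ _).trans_le
      (mul_le_mul_of_nonneg_left h6 (abs_nonneg (μ v))))
    rw [gat_har hK hm hc hv hf] at h4
    rw [hvo.nq, sum_range_succ, ← hvo.nq,
      gat_tile _ D.oq _ D.ng hvo.o0 fun a ha => (hv.gen a ha).2.2]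
    simp only [hva]
    rw [← add_zero (D.oq D.ng), hva]
    linarith
  have h4 : en g D f + (∑ s ∈ range C.nS, C.rb s : ℕ) * en g D f ≤ (∑ v ∈ range D.nv, μ v) * E := by
    rw [en, hE, mul_sum, mul_sum _ _ (∑ v ∈ range D.nv, μ v), ← sum_add_distrib]
    refine sum_le_sum fun a ha => ?_
    have h5 : sumLT C.nS C.rb + D.nv * 1099511627776 * (D.nK * D.wt a) + 1 ≤
        sumLT D.nv C.mu * (D.nK * D.wt a) :=
      Nat.blt_eq.mp ((allLT_iff _ _).1 hfo.fin a (mem_range.1 ha))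
    rw [sumLT_eq, sumLT_eq] at h5
    replace h5 := mul_le_mul_of_nonneg_right ((Nat.cast_le (α := ℝ)).2 h5)
      (ph_nonneg (f := f) (g (D.gen a)))
    simp only [μ, sum_sub_distrib, sum_const, card_range, nsmul_eq_mul]
    push_cast at h5 ⊢
    linarith
  rw [show D.nT = D.bs D.n + D.nv * D.nq by rw [mul_comm]; rfl, sum_range_add,
    gat_mul fun x => F (D.bs D.n + x)] at h1
  have h5 := sum_le_sum h3
  rw [sum_add_distrib, sum_neg_distrib, ← sum_mul, ← sum_mul, ← sum_mul] at h5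
  have h6 : 0 ≤ √(en g D f) * ‖lap κ g D f‖ := by positivity
  nlinarith [mul_nonneg a2 h6]

end Pool.Agent.MC
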