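import Pool.Agent.Lib.MP_c86c76_al.C.Bas

/-!
The packed arithmetic of the sum of squares: the stored coefficients are below the true ones.
-/

set_option autoImplicit false

noncomputable section

namespace Pool.Agent.MC

open Finset

namespace SA

/-- Integer lanes of width 96. -/
def P (N : ℕ) (F : ℕ → ℤ) : ℤ := ∑ l ∈ range N, 2 ^ (96 * l) * F l

variable {N : ℕ} {F G : ℕ → ℤ}

theorem P_pk (N : ℕ) (f : ℕ → ℕ) : (pk 96 N f : ℤ) = P N fun l => f l := by
  rw [pk_eq, P]; push_cast; rfl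

theorem P_congr (h : ∀ l < N, F l = G l) : P N F = P N G :=
  sum_congr rfl fun l hl => by rw [h l (mem_range.1 hl)]

theorem P_add : P N F + P N G = P N fun l => F l + G l := by
  simp only [P, mul_add, sum_add_distrib]

theorem P_sub : P N F - P N G = P N fun l => F l - G l := by
  simp only [P, mul_sub, sum_sub_distrib]

theorem P_mul (c : ℤ) : c * P N F = P N fun l => c * F l := by
  simp only [P, mul_sum]
  exact sum_congr rfl fun l _ => by ring

theorem P_sum (s : Finset ℕ) (F : ℕ → ℕ → ℤ) :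
    ∑ x ∈ s, P N (F x) = P N fun l => ∑ x ∈ s, F x l := by
  simp only [P, mul_sum]
  exact sum_comm

theorem P_zero : P N (fun _ => 0) = 0 := by simp [P]

theorem P_natsub {A B : ℕ} (h : (A : ℤ) - B = P N F) (h0 : ∀ l < N, 0 ≤ F l) :
    ((A - B : ℕ) : ℤ) = P N F := by
  have : 0 ≤ P N F := sum_nonneg fun l hl => mul_nonneg (by positivity) (h0 l (mem_range.1 hl))
  omega

theorem P_toNat {R : ℕ} (h : (R : ℤ) = P N F) (h0 : ∀ l < N, 0 ≤ F l) :
    R = pk 96 N fun l => (F l).toNat := by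
  have : (R : ℤ) = pk 96 N fun l => (F l).toNat := by
    rw [h, P_pk]
    exact P_congr fun l hl => (Int.toNat_of_nonneg (h0 l hl)).symm
  exact_mod_cast this

theorem pk_top (n : ℕ) (f : ℕ → ℕ) (h : ∀ i < n, f i < 2 ^ 96) :
    pk 96 (n + 1) f / 2 ^ (96 * n) = f n := by
  rw [pk_succ, Nat.add_mul_div_left _ _ (by positivity), Nat.div_eq_of_lt (pk_lt 96 n f h), zero_add]

theorem pk_lane (n : ℕ) (f : ℕ → ℕ) (h : ∀ i < n, f i < 2 ^ 96) (l : ℕ) (hl : l < n) :
    pk 96 n f / 2 ^ (96 * l) % 2 ^ 96 = f l := by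
  induction n with
  | zero => omega
  | succ n ih =>
    rcases Nat.lt_succ_iff_lt_or_eq.1 hl with h1 | rfl
    · obtain ⟨r, rfl⟩ : ∃ r, n = l + 1 + r := ⟨n - (l + 1), by omega⟩
      rw [pk_succ, show 96 * (l + 1 + r) = 96 * l + (96 + 96 * r) by ring, pow_add, pow_add,
        mul_assoc, Nat.add_mul_div_left _ _ (by positivity), mul_assoc, Nat.add_mul_mod_self_left]
      exact ih (fun i hi => h i (by omega)) h1
    · rw [pk_top _ _ fun i hi => h i (by omega), Nat.mod_eq_of_lt (h _ hl)]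

theorem P_lane {R : ℕ} (h : (R : ℤ) = P N F) (h0 : ∀ l < N, 0 ≤ F l) (h1 : ∀ l < N, F l < 2 ^ 96)
    {l : ℕ} (hl : l < N) : (bits R (96 * l) (2 ^ 96 - 1) : ℤ) = F l := by
  rw [bits_eq, P_toNat h h0, pk_lane _ _ _ l hl, Int.toNat_of_nonneg (h0 l hl)]
  intro i hi
  have := h0 i hi
  have := h1 i hi
  omega

theorem P_top {R n : ℕ} (h : (R : ℤ) = P (n + 1) F) (h0 : ∀ l < n + 1, 0 ≤ F l)
    (h1 : ∀ l < n + 1, F l < 2 ^ 96) : ((R / 2 ^ (96 * n) : ℕ) : ℤ) = F n := by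
  rw [P_toNat h h0, pk_top, Int.toNat_of_nonneg (h0 n (by omega))]
  intro i hi
  have := h0 i (by omega)
  have := h1 i (by omega)
  omega

theorem and_split (x a b k : ℕ) (hb : b < 2 ^ k) :
    x &&& (b + 2 ^ k * a) = (x &&& b) + 2 ^ k * (x / 2 ^ k &&& a) := by
  apply Nat.eq_of_testBit_eq
  intro j
  rw [add_comm b, add_comm (x &&& b), Nat.testBit_and, Nat.testBit_two_pow_mul_add _ hb,
    Nat.testBit_two_pow_mul_add _ (lt_of_le_of_lt Nat.and_le_right hb)]
  split_ifs with hj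
  · rw [Nat.testBit_and]
  · rw [Nat.testBit_and, Nat.testBit_div_two_pow, show j - k + k = j by omega]

theorem mask (n x : ℕ) : x &&& pk 96 n (fun _ => 2 ^ 32 - 1) =
    pk 96 n fun l => x / 2 ^ (96 * l) % 2 ^ 32 := by
  induction n with
  | zero => exact Nat.and_zero x
  | succ n ih =>
    rw [pk_succ, pk_succ, and_split _ _ _ _ (pk_lt 96 n _ fun _ _ => by norm_num), ih,
      Nat.and_two_pow_sub_one_eq_mod]

/-- Digit `u` of lane `l`. -/
def dgt (h l u : ℕ) : ℕ := h / 2 ^ (96 * l + 32 * u) % 2 ^ 32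

theorem dgt_lt (h l u : ℕ) : dgt h l u < 2 ^ 32 := Nat.mod_lt _ (by positivity)

variable (C : Cer) (D : Dat) (i : ℕ)

theorem on_eq : (Cer.on D i : ℤ) = P (D.n - i) fun _ => 1 := P_pk _ _

theorem bits_mk (h u : ℕ) :
    (bits h (32 * u) (Cer.mk' D i) : ℤ) = P (D.n - i) fun l => dgt h l u := by
  have h1 : Cer.mk' D i = pk 96 (D.n - i) fun _ => 2 ^ 32 - 1 := by
    show pk 96 (D.n - i) (fun _ => 1) * 4294967295 = _
    rw [pk_eq, pk_eq, sum_mul]
    exact sum_congr rfl fun l _ => by norm_num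
  have h2 : bits h (32 * u) (Cer.mk' D i) = (h / 2 ^ (32 * u)) &&& Cer.mk' D i := by
    rw [← Nat.shiftRight_eq_div_pow]; rfl
  rw [h2, h1, mask, P_pk]
  exact P_congr fun l _ => by rw [dgt, Nat.div_div_eq_div_mul, ← pow_add, add_comm]

theorem ln_eq (h : ℕ) : Cer.ln D h i = h / 2 ^ (96 * (D.n1 - i)) % 2 ^ 96 := bits_eq _ _ 96

theorem dgt_eq (h l u : ℕ) : dgt h l u = h / 2 ^ (96 * l) / 2 ^ (32 * u) % 2 ^ 32 := by
  rw [dgt, Nat.div_div_eq_div_mul, ← pow_add]

theorem tri_eq (h1 h2 : ℕ) : (Cer.tri (Cer.ln D h1 i) h2 (Cer.mk' D i) : ℤ) =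
    P (D.n - i) fun l => ∑ u ∈ range 3, (dgt h1 (D.n1 - i) u : ℤ) * dgt h2 l u := by
  have e0 : Nat.land (Cer.ln D h1 i) 4294967295 = dgt h1 (D.n1 - i) 0 := by
    rw [show 4294967295 = 2 ^ 32 - 1 from rfl, land_eq, ln_eq, dgt_eq]; omega
  have e1 : bits (Cer.ln D h1 i) 32 4294967295 = dgt h1 (D.n1 - i) 1 := by
    rw [show 4294967295 = 2 ^ 32 - 1 from rfl, bits_eq, ln_eq, dgt_eq]; omega
  have e2 : Nat.shiftRight (Cer.ln D h1 i) 64 = dgt h1 (D.n1 - i) 2 := by
    show Cer.ln D h1 i >>> 64 = _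
    rw [Nat.shiftRight_eq_div_pow, ln_eq, dgt_eq]; omega
  rw [Cer.tri, e0, e1, e2]
  show ((_ * bits h2 (32 * 0) _ + _ * bits h2 (32 * 1) _ + _ * bits h2 (32 * 2) _ : ℕ) : ℤ) = _
  rw [Nat.cast_add, Nat.cast_add, Nat.cast_mul, Nat.cast_mul, Nat.cast_mul, bits_mk, bits_mk, bits_mk,
    P_mul, P_mul, P_mul, P_add, P_add]
  exact P_congr fun l _ => by simp [sum_range_succ]

theorem dot_eq (l1 l2 : List ℕ) (hl : l1.length = l2.length) : (Cer.dot D i l1 l2 : ℤ) =
    P (D.n - i) fun l => ∑ q ∈ range l1.length, ∑ u ∈ range 3,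
      (dgt (l1.getD q 0) (D.n1 - i) u : ℤ) * dgt (l2.getD q 0) l u := by
  induction l1 generalizing l2 with
  | nil => exact P_zero.symm
  | cons h1 t1 ih =>
    rcases l2 with _ | ⟨h2, t2⟩
    · simp at hl
    show ((Cer.tri (Cer.ln D h1 i) h2 (Cer.mk' D i) + Cer.dot D i t1 t2 : ℕ) : ℤ) = _
    rw [Nat.cast_add, tri_eq, ih t2 (by simpa using hl), P_add]
    exact P_congr fun l _ => by rw [List.length_cons, sum_range_succ' _ t1.length, add_comm]; rfl

theorem sm_eq (l1 : List ℕ) : (Cer.sm D i l1 : ℤ) =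
    P (D.n - i) fun l => ∑ q ∈ range l1.length, ∑ u ∈ range 3, (dgt (l1.getD q 0) l u : ℤ) := by
  induction l1 with
  | nil => exact P_zero.symm
  | cons h t ih =>
    show ((bits h (32 * 0) _ + bits h (32 * 1) _ + bits h (32 * 2) _ + Cer.sm D i t : ℕ) : ℤ) = _
    rw [Nat.cast_add, Nat.cast_add, Nat.cast_add, bits_mk, bits_mk, bits_mk, ih, P_add, P_add, P_add]
    refine P_congr fun l _ => ?_
    rw [List.length_cons, sum_range_succ' _ t.length, add_comm]
    simp [sum_range_succ]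

theorem col_eq (b d : ℕ) : C.col b d i = (C.LL b d).drop (C.dr b i) := by
  rw [Cer.col]
  induction C.dr b i with
  | zero => rfl
  | succ n ih =>
    show List.rec (motive := fun _ => List ℕ) [] (fun _ t _ => t) (Cer.drp n _) = _
    rw [ih, ← List.tail_drop]
    cases List.drop n (C.LL b d) <;> rfl

theorem col_get (b d q : ℕ) : (C.col b d i).getD q 0 = (C.LL b d).getD (C.dr b i + q) 0 := by
  rw [col_eq, List.getD_eq_getElem?_getD, List.getD_eq_getElem?_getD, List.getElem?_drop]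

theorem sum_shift (n r : ℕ) (F : ℕ → ℤ) (h : ∀ p < r, F p = 0) :
    ∑ p ∈ range n, F p = ∑ q ∈ range (n - r), F (r + q) := by
  rcases le_total r n with h1 | h1
  · obtain ⟨s, rfl⟩ := Nat.exists_eq_add_of_le h1
    rw [sum_range_add, sum_eq_zero fun p hp => h p (mem_range.1 hp), zero_add,
      Nat.add_sub_cancel_left]
  · rw [Nat.sub_eq_zero_of_le h1, sum_eq_zero fun p hp => h p (lt_of_lt_of_le (mem_range.1 hp) h1)]
    rfl

theorem Lz_eq {b p j : ℕ} (u d : ℕ) (h : C.dr b j ≤ p) :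
    Lz C D b p u d j = dgt ((C.LL b d).getD p 0) (D.n1 - j) u - 2 ^ 31 := by
  rw [Lz, if_pos h, Cer.dg, show 4294967295 = 2 ^ 32 - 1 from rfl, bits_eq]; rfl

theorem Mz_bd {b : ℕ} (hb : C.nG b ≤ 128) (d e j : ℕ) : |Mz C D b d i e j| ≤ 2 ^ 71 := by
  have hL : ∀ p u d j, |Lz C D b p u d j| ≤ 2 ^ 31 := fun p u d j => by
    by_cases h : C.dr b j ≤ p
    · have := dgt_lt ((C.LL b d).getD p 0) (D.n1 - j) u
      rw [Lz_eq C D u d h, abs_le]; omega
    · rw [Lz, if_neg h]; norm_num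
  refine (abs_sum_le_sum_abs _ _).trans ((sum_le_card_nsmul _ _ (3 * 2 ^ 62) fun p _ =>
    (abs_sum_le_sum_abs _ _).trans ((sum_le_card_nsmul _ _ (2 ^ 62) fun u _ => ?_).trans ?_)).trans ?_)
  · rw [abs_mul]
    exact (mul_le_mul (hL _ _ _ _) (hL _ _ _ _) (abs_nonneg _) (by norm_num)).trans (by norm_num)
  · simp
  · rw [card_range, nsmul_eq_mul]; omega

variable {C D i}

theorem blk {b : ℕ} (h : C.blkOk D b = true) : C.nG b ≤ 128 ∧
    (∀ d < 10, (C.col b d i).length = C.nG b - C.dr b i) ∧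
      ∀ j, i ≤ j → j ≤ D.n1 → C.dr b j ≤ C.dr b i := by
  simp only [Cer.blkOk, an_iff, allLT_iff, Nat.beq_eq, Nat.ble_eq] at h
  refine ⟨h.2.1, fun d hd => by rw [col_eq, List.length_drop, h.2.2.1 d hd], fun j hj => ?_⟩
  induction j, hj using Nat.le_induction with
  | base => exact fun _ => le_rfl
  | succ j _ ih => exact fun h1 => (h.2.2.2 j h1).trans (ih (by omega))

theorem Mz_eq {b l : ℕ} (h : C.blkOk D b = true) (hl : l ≤ D.n1 - i) (hi : i ≤ D.n1) (d e : ℕ) :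
    Mz C D b d i e (D.n1 - l) = ∑ q ∈ range (C.nG b - C.dr b i), ∑ u ∈ range 3,
      ((dgt ((C.col b d i).getD q 0) (D.n1 - i) u : ℤ) - 2 ^ 31) *
        (dgt ((C.col b e i).getD q 0) l u - 2 ^ 31) := by
  rw [Mz, sum_shift _ (C.dr b i) _ fun p hp => sum_eq_zero fun u _ => by
    rw [Lz, if_neg (by omega), zero_mul]]
  refine sum_congr rfl fun q _ => sum_congr rfl fun u _ => ?_
  have := (blk (i := i) h).2.2 (D.n1 - l) (by omega) (by omega)
  rw [Lz_eq C D u d (by omega), Lz_eq C D u e (by omega), col_get, col_get,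
    show D.n1 - (D.n1 - l) = l by omega]

theorem wp_eq {b d e : ℕ} (h : C.blkOk D b = true) (hn : D.n1 + 1 = D.n) (hi : i < D.n)
    (hd : d < 10) (he : e < 10) :
    (C.wp D i b d e : ℤ) = P (D.n - i) fun l => Mz C D b d i e (D.n1 - l) + 2 ^ 72 := by
  obtain ⟨h1, h2, -⟩ := blk (i := i) h
  have hs : ((C.sc D i b d / 2 ^ (96 * (D.n1 - i)) : ℕ) : ℤ) =
      ∑ q ∈ range (C.nG b - C.dr b i), ∑ u ∈ range 3,
        (dgt ((C.col b d i).getD q 0) (D.n1 - i) u : ℤ) := by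
    have h3 := sm_eq D i (C.col b d i)
    rw [show D.n - i = D.n1 - i + 1 by omega, h2 d hd] at h3
    refine P_top h3 (fun l _ => by positivity) fun l _ => ?_
    refine lt_of_le_of_lt (sum_le_card_nsmul _ _ (3 * 2 ^ 32) fun q _ =>
      (sum_le_card_nsmul _ _ (2 ^ 32) fun u _ => ?_).trans (by simp)) ?_
    · exact_mod_cast (dgt_lt _ _ _).le
    · rw [card_range, nsmul_eq_mul]; omega
  refine P_natsub ?_ fun l _ => by have := abs_le.1 (Mz_bd C D i h1 d e (D.n1 - l)); omega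
  show ((Cer.dot D i _ _ + ((C.nG b - C.dr b i) * 13835058055282163712 + 4722366482869645213696) *
    Cer.on D i : ℕ) : ℤ) - ((2147483648 * (Cer.sm D i (C.col b e i) +
      C.sc D i b d >>> (96 * (D.n1 - i)) * Cer.on D i) : ℕ) : ℤ) = _
  rw [Nat.shiftRight_eq_div_pow, Nat.cast_add, Nat.cast_mul, Nat.cast_mul, Nat.cast_add (Cer.sm _ _ _),
    Nat.cast_mul, hs, dot_eq _ _ _ _ (by rw [h2 d hd, h2 e he]), sm_eq, on_eq, P_mul, P_mul, P_add,
    P_add, P_mul, P_sub, h2 d hd, h2 e he]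
  refine P_congr fun l hl => ?_
  rw [Mz_eq h (by omega) (by omega)]
  simp only [sub_mul, mul_sub, sum_sub_distrib, ← mul_sum, ← sum_mul, sum_const, card_range,
    nsmul_eq_mul]
  push_cast
  ring

theorem ina_zero {x l : ℕ} (h : C.blkOk D (x / 10) = true) (hl : l ≤ D.n1 - i) (hi : i ≤ D.n1)
    (hx : C.ina D i x = true) (e : ℕ) : Mz C D (x / 10) (x % 10) i e (D.n1 - l) = 0 := by
  have h1 : ∀ L : List ℕ, Cer.ina1 D i L = true → ∀ q < L.length,
      Cer.ln D (L.getD q 0) i = 39614081266355540835774234624 := fun L => by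
    induction L with
    | nil => simp
    | cons a t ih =>
      intro hL q hq
      have h2 := (an_iff _ _).1 hL
      rcases q with _ | q
      exacts [Nat.eq_of_beq_eq_true h2.1, ih h2.2 q (by simpa using hq)]
  rw [Mz_eq h hl hi]
  refine sum_eq_zero fun q hq => sum_eq_zero fun u hu => mul_eq_zero_of_left ?_ _
  have h3 := h1 _ hx q (by
    rw [show Nat.div x 10 = x / 10 from rfl, show Nat.mod x 10 = x % 10 from rfl,
      (blk h).2.1 _ (Nat.mod_lt _ (by norm_num))]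
    exact mem_range.1 hq)
  rw [ln_eq] at h3
  rw [dgt_eq]
  change (C.col (x / 10) (x % 10) i).getD q 0 / _ % _ = _ at h3
  generalize (C.col (x / 10) (x % 10) i).getD q 0 / 2 ^ (96 * (D.n1 - i)) = y at h3
  have hu := mem_range.1 hu
  interval_cases u <;> omega

theorem ws_eq {x c T : ℕ} (h : C.blkOk D (x / 10) = true) (hn : D.n1 + 1 = D.n) (hi : i < D.n)
    (hT : T < 320) : (C.ws D i x (Cer.ix1 c T) : ℤ) =
      P (D.n - i) fun l => sgn c T * Mz C D (x / 10) (x % 10) i (T / 32) (D.n1 - l) + 2 ^ 72 := by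
  have hp : Cer.par (c &&& T) ≤ 1 := bits_le _ _ _
  have h0 : Cer.ix1 c T = 2 * (T / 32) + Cer.par (c &&& T) := by
    show 2 * (T >>> 5) + _ = _
    rw [Nat.shiftRight_eq_div_pow]; rfl
  have h1 : Nat.shiftRight (Cer.ix1 c T) 1 = T / 32 := by
    show _ >>> 1 = _
    rw [Nat.shiftRight_eq_div_pow, h0]; omega
  have h2 : Nat.land (Cer.ix1 c T) 1 = Cer.par (c &&& T) := by
    rw [show 1 = 2 ^ 1 - 1 from rfl, land_eq, h0]; omega
  have h3 := wp_eq h hn hi (Nat.mod_lt x (by norm_num)) (show T / 32 < 10 by omega)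
  rw [Cer.ws, fc_eq, h1, h2, sgn]
  rcases Nat.le_one_iff_eq_zero_or_eq_one.1 hp with h4 | h4 <;> rw [h4]
  · rw [if_pos rfl]
    exact h3.trans (P_congr fun l _ => by rw [one_mul])
  · rw [if_neg one_ne_zero]
    refine P_natsub ?_ fun l _ => by
      have := abs_le.1 (Mz_bd C D i (blk (i := i) h).1 (x % 10) (T / 32) (D.n1 - l)); omega
    show ((9444732965739290427392 * Cer.on D i : ℕ) : ℤ) - C.wp D i (x / 10) (x % 10) _ = _
    rw [Nat.cast_mul, h3, on_eq, P_mul, P_sub]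
    exact P_congr fun l _ => by push_cast; ring

theorem act_eq (f : ℕ → ℕ) : Cer.sumL (C.actL D i) f =
    ∑ x ∈ range 80, if C.ina D i x = true then 0 else f x := by
  rw [Cer.actL]
  induction 80 with
  | zero => rfl
  | succ n ih =>
    rw [sum_range_succ, ← ih]
    show Cer.sumL (Bool.rec (motive := fun _ => List ℕ) (n :: _) _ (C.ina D i n)) f = _
    cases C.ina D i n
    · exact add_comm _ _
    · rfl

theorem sum_ten (n : ℕ) (F : ℕ → ℕ → ℤ) :
    ∑ x ∈ range (10 * n), F (x / 10) (x % 10) = ∑ b ∈ range n, ∑ d ∈ range 10, F b d := by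
  induction n with
  | zero => rfl
  | succ n ih =>
    rw [mul_add, mul_one, sum_range_add, ih, sum_range_succ _ n]
    refine congrArg _ (sum_congr rfl fun d hd => ?_)
    have := mem_range.1 hd
    rw [show (10 * n + d) / 10 = n by omega, show (10 * n + d) % 10 = d by omega]

end SA

open SA in
theorem sosASt : SosASt := by
  intro D C G _ κ g hK hC hS i hi t ht l hl
  have hn := hK.n0
  have hm : D.m i ≤ 320 := by
    rw [← hS.nK, ← hC.mn i hi]
    exact Nat.le_mul_of_pos_right _ (by omega)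
  have hb : ∀ x ∈ range 80, C.blkOk D (x / 10) = true := fun x hx =>
    hS.blk _ (by have := mem_range.1 hx; omega)
  set T : ℕ → ℕ → ℕ := fun u x => D.mul (32 * (x % 10)) (D.mul (D.ss i u) (D.rk i t)) with hT
  set S : ℕ → ℕ → ℕ → ℤ := fun u x l =>
    sgn (C.ch (x / 10)) (T u x) * Mz C D (x / 10) (x % 10) i (T u x / 32) (D.n1 - l) with hSd
  have hR : (C.row D i t : ℤ) = P (D.n - i) fun l => ∑ u ∈ range (D.m i), ∑ x ∈ range 80,
      if C.ina D i x = true then 0 else S u x l + 2 ^ 72 := by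
    rw [Cer.row, sumLT_eq, Nat.cast_sum, ← P_sum]
    refine sum_congr rfl fun u hu => ?_
    rw [fc_eq, act_eq, Nat.cast_sum, ← P_sum]
    refine sum_congr rfl fun x hx => ?_
    split_ifs
    · exact P_zero.symm
    · have h1 := (hK.mul _ (hC.ss i hi u (mem_range.1 hu)).1 _ (hC.rk i hi t ht)).1
      have h2 := (hK.mul (32 * (x % 10)) (by rw [hS.nK]; omega) _ h1).1
      exact ws_eq (hb x hx) hn hi (hS.nK ▸ h2)
  have hS1 : ∀ u l, ∀ x ∈ range 80, 0 ≤ S u x l + 2 ^ 72 ∧ S u x l + 2 ^ 72 ≤ 2 ^ 73 := by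
    intro u l x hx
    have := abs_le.1 (Mz_bd C D i (blk (i := i) (hb x hx)).1 (x % 10) (T u x / 32) (D.n1 - l))
    simp only [hSd, sgn]
    split_ifs <;> omega
  have hL := P_lane hR (fun l _ => sum_nonneg fun u _ => sum_nonneg fun x hx => by
    split_ifs
    exacts [le_rfl, (hS1 u l x hx).1]) (fun l _ => by
    refine lt_of_le_of_lt (sum_le_card_nsmul _ _ (80 * 2 ^ 73) fun u _ =>
      (sum_le_card_nsmul _ _ (2 ^ 73) fun x hx => ?_).trans (by simp)) ?_
    · split_ifs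
      exacts [by norm_num, (hS1 u l x hx).2]
    · rw [card_range, nsmul_eq_mul]; omega) hl
  have hc : (∑ u ∈ range (D.m i), ∑ x ∈ range 80,
      if C.ina D i x = true then 0 else S u x l + 2 ^ 72) =
      ∑ u ∈ range (D.m i), Cz C D i (D.mul (D.ss i u) (D.rk i t)) (D.n1 - l) + C.cn D i := by
    have h1 : (C.cn D i : ℤ) = ∑ u ∈ range (D.m i), ∑ x ∈ range 80,
        if C.ina D i x = true then 0 else 2 ^ 72 := by
      show ((D.m i * Cer.sumL _ _ * 4722366482869645213696 : ℕ) : ℤ) = _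
      rw [act_eq, sum_const, card_range, nsmul_eq_mul, mul_assoc, Nat.cast_mul, sum_mul, Nat.cast_sum]
      refine congrArg _ (sum_congr rfl fun x _ => ?_)
      split_ifs <;> norm_num
    rw [h1, ← sum_add_distrib]
    refine sum_congr rfl fun u _ => ?_
    rw [Cz, ← sum_ten 8, ← sum_add_distrib]
    refine sum_congr rfl fun x hx => ?_
    split_ifs with h2
    · rw [ina_zero (hb x hx) (by omega) (by omega) h2, mul_zero, add_zero]
    · rfl
  have hw : ∀ w : ℕ, C.laneOk (C.row D i t) (D.ad i t 0) (C.cn D i) w l = true →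
      ((C.cv (D.ad i t l) : ℤ) - 2 ^ 47) * 2 ^ 24 ≤
        w * ∑ u ∈ range (D.m i), Cz C D i (D.mul (D.ss i u) (D.rk i t)) (D.n1 - l) := by
    intro w h
    have h1 : C.cv (D.ad i t l) <<< 24 + w * C.cn D i ≤
        w * bits (C.row D i t) (96 * l) (2 ^ 96 - 1) + 2 ^ 71 := Nat.le_of_ble_eq_true h
    rw [Nat.shiftLeft_eq] at h1
    have h2 := (Nat.cast_le (α := ℤ)).2 h1
    rw [Nat.cast_add, Nat.cast_add, Nat.cast_mul, Nat.cast_mul, Nat.cast_mul, hL, hc] at h2
    push_cast at h2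
    linarith
  have h := (an_iff _ _).1 (hS.row i hi t ht)
  split_ifs with h1
  · exact hw 1 (h1 ▸ h.1)
  · exact hw 2 ((allLT_iff _ _).1 h.2 l (by show l < D.n1 - i; omega))

end Pool.Agent.MC
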