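import Pool.Agent.Lib.MP_c86c76_al.C.Bas

/-!
From the integer coefficients to the sum of squares.
-/

set_option autoImplicit false

noncomputable section

namespace Pool.Agent.MC

open Finset

theorem sgn_mod {c : ℕ} (hc : c < 32) (x : ℕ) : sgn c x = sgn c (x % 32) := by
  have : c &&& x = c &&& (x % 2 ^ 5) := by
    apply Nat.eq_of_testBit_eq
    intro i
    rw [Nat.testBit_and, Nat.testBit_and, Nat.testBit_mod_two_pow]
    by_cases hi : i < 5
    · simp [hi]
    · have : c.testBit i = false := Nat.testBit_lt_two_pow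
        (lt_of_lt_of_le (show c < 2 ^ 5 from hc) (Nat.pow_le_pow_right two_pos (by omega)))
      simp [this]
  rw [sgn, this]; rfl

theorem sgn_tab : ∀ c < 32, ∀ a < 32, ∀ r < 32, sgn c a * sgn c (r ^^^ a) = sgn c r := by
  decide +kernel

theorem sgn_sum : ∀ c < 32, c ≠ 0 → ∑ a ∈ range 32, sgn c a = 0 := by
  decide +kernel

theorem sgn_zero (x : ℕ) : sgn 0 x = 1 := by
  rw [sgn, Nat.zero_and]; rfl

theorem sgn_xor {c a : ℕ} (hc : c < 32) (ha : a < 32) (d T : ℕ) :
    sgn c (32 * d + a) * sgn c (T ^^^ a) = sgn c T := by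
  have h1 : (32 * d + a) % 32 = a := by omega
  have h2 : (T ^^^ a) % 32 = T % 32 ^^^ a := by
    have := @Nat.xor_mod_two_pow T a 5
    rwa [show a % 2 ^ 5 = a from Nat.mod_eq_of_lt ha] at this
  rw [sgn_mod hc, sgn_mod hc (T ^^^ a), sgn_mod hc T, h1, h2]
  exact sgn_tab c hc a ha _ (Nat.mod_lt _ (by norm_num))

theorem xor_div {a : ℕ} (ha : a < 32) (T : ℕ) : (T ^^^ a) / 32 = T / 32 := by
  have := @Nat.xor_div_two_pow T a 5
  rwa [show a / 2 ^ 5 = 0 from Nat.div_eq_of_lt ha, Nat.xor_zero] at this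

theorem sum_blocks {R : Type} [AddCommMonoid R] (F : ℕ → R) (m : ℕ) :
    ∑ x ∈ range (32 * m), F x = ∑ d ∈ range m, ∑ a ∈ range 32, F (32 * d + a) := by
  induction m with
  | zero => simp
  | succ m ih => rw [Nat.mul_succ, sum_range_add, ih, sum_range_succ _ m]

theorem sum_symm (T : ℕ → ℕ → ℝ) (hT : ∀ i j, T i j = T j i) (n : ℕ) :
    ∑ i ∈ range n, ∑ j ∈ range n, T i j =
      ∑ i ∈ range n, ∑ j ∈ Ico i n, (if j = i then 1 else 2) * T i j := by
  induction n with
  | zero => simp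
  | succ n ih =>
    have h1 : ∀ i ∈ range n, ∑ j ∈ Ico i (n + 1), (if j = i then 1 else 2) * T i j =
        ∑ j ∈ Ico i n, (if j = i then 1 else 2) * T i j + 2 * T i n := fun i hi => by
      have hi' := mem_range.1 hi
      rw [sum_Ico_succ_top hi'.le, if_neg hi'.ne']
    rw [sum_range_succ, sum_range_succ (fun i => ∑ j ∈ Ico i (n + 1), _), sum_congr rfl h1,
      sum_add_distrib, ← ih, sum_range_succ (fun j => T n j)]
    simp only [sum_range_succ, sum_add_distrib, Nat.Ico_succ_singleton, sum_singleton, if_true,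
      ← mul_sum, hT n]
    ring

theorem sum_tri (T : ℕ → ℕ → ℝ) (hT : ∀ i j, T i j = T j i) {n n1 : ℕ} (hn : n1 + 1 = n) :
    ∑ i ∈ range n, ∑ j ∈ range n, T i j =
      ∑ i ∈ range n, ∑ l ∈ range (n - i), (if l = n1 - i then 1 else 2) * T i (n1 - l) := by
  rw [sum_symm T hT]
  refine sum_congr rfl fun i hi => ?_
  have hi' := mem_range.1 hi
  have := sum_Ico_reflect (fun j => (if j = i then 1 else 2) * T i j) 0 (m := n - i) (n := n1)
    (by omega)
  rw [show n1 + 1 - (n - i) = i by omega, show n1 + 1 - 0 = n by omega] at this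
  rw [← this, range_eq_Ico]
  refine sum_congr rfl fun l hl => ?_
  have hl' := (mem_Ico.1 hl).2
  exact congrArg (· * _) (if_congr (by omega) rfl rfl)

theorem neg_type {H : Type} [NormedAddCommGroup H] [InnerProductSpace ℝ H] {ι : Type}
    (s : Finset ι) (w : ι → ℝ) (P : ι → H) (hw : ∑ a ∈ s, w a = 0) :
    ∑ a ∈ s, ∑ b ∈ s, w a * w b * ‖P a - P b‖ ^ 2 ≤ 0 := by
  have h1 : ∀ a b, w a * w b * ‖P a - P b‖ ^ 2 = w a * ‖P a‖ ^ 2 * w b + w a * (w b * ‖P b‖ ^ 2)
      - 2 * inner ℝ (w a • P a) (w b • P b) := fun a b => by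
    rw [norm_sub_sq_real, real_inner_smul_left, real_inner_smul_right]; ring
  simp only [h1, sum_sub_distrib, sum_add_distrib, ← mul_sum, ← sum_mul, hw, ← inner_sum,
    ← sum_inner]
  have := real_inner_self_nonneg (x := ∑ a ∈ s, w a • P a)
  linarith

variable {D : Dat} {C : Cer}

theorem ell_sum (hS : SosOk D C) {b p u : ℕ} (hb : b < 8) (hp : p < C.nG b) (hu : u < 3) :
    ∑ i ∈ range D.n, ∑ x ∈ range 320, sgn (C.ch b) x * Lz C D b p u (x / 32) i = 0 := by
  have hc : C.ch b < 32 := by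
    have := hS.blk b hb
    simp only [Cer.blkOk, an_iff, Nat.blt_eq] at this
    exact this.1
  have h1 : ∀ i, ∑ x ∈ range 320, sgn (C.ch b) x * Lz C D b p u (x / 32) i =
      (∑ a ∈ range 32, sgn (C.ch b) a) * ∑ d ∈ range 10, Lz C D b p u d i := fun i => by
    rw [show 320 = 32 * 10 from rfl, sum_blocks, mul_sum]
    refine sum_congr rfl fun d _ => ?_
    rw [sum_mul]
    refine sum_congr rfl fun a ha => ?_
    have ha' := mem_range.1 ha
    rw [sgn_mod hc, show (32 * d + a) % 32 = a by omega, show (32 * d + a) / 32 = d by omega]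
  simp only [h1, ← mul_sum]
  by_cases h0 : C.ch b = 0
  · obtain rfl : b = 0 := by
      by_contra h
      exact hS.ch b hb (Nat.pos_of_ne_zero h) h0
    have hz := hS.zs p hp u hu
    simp only [Cer.zsOk, Nat.beq_eq, sumLT_eq] at hz
    have h2 : ∀ d j, Lz C D 0 p u d j = ((Bool.rec (motive := fun _ => ℕ) 2147483648
        (C.dg D 0 p u d j) (Nat.ble (C.dr 0 j) p) : ℕ) : ℤ) - 2 ^ 31 := fun d j => by
      rw [Lz]
      split_ifs with h
      · rw [Nat.ble_eq_true_of_le h]
      · rw [Bool.eq_false_iff.2 fun h' => h (Nat.le_of_ble_eq_true h')]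
        show (0 : ℤ) = ((2147483648 : ℕ) : ℤ) - 2 ^ 31
        norm_num
    rw [sum_comm]
    simp only [h2, sum_sub_distrib, ← Nat.cast_sum, hz]
    simp only [sum_const, card_range, Nat.mul_eq]
    push_cast
    ring
  · rw [sgn_sum _ hc h0, zero_mul]

theorem ell_conv (hS : SosOk D C) (i j : ℕ) {k : ℕ} (hk : k < 320) :
    ∑ b ∈ range 8, ∑ p ∈ range (C.nG b), ∑ u ∈ range 3, ∑ x ∈ range 320,
      sgn (C.ch b) x * Lz C D b p u (x / 32) i *
        (sgn (C.ch b) (D.mul x k) * Lz C D b p u (D.mul x k / 32) j) = 32 * Cz C D i k j := by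
  rw [Cz, mul_sum]
  refine sum_congr rfl fun b hb => ?_
  have hc : C.ch b < 32 := by
    have := hS.blk b (mem_range.1 hb)
    simp only [Cer.blkOk, an_iff, Nat.blt_eq] at this
    exact this.1
  have h1 : ∀ p u, ∑ x ∈ range 320, sgn (C.ch b) x * Lz C D b p u (x / 32) i *
      (sgn (C.ch b) (D.mul x k) * Lz C D b p u (D.mul x k / 32) j) =
      ∑ d ∈ range 10, 32 * (sgn (C.ch b) (D.mul (32 * d) k) *
        (Lz C D b p u d i * Lz C D b p u (D.mul (32 * d) k / 32) j)) := fun p u => by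
    rw [show 320 = 32 * 10 from rfl, sum_blocks]
    refine sum_congr rfl fun d hd => ?_
    have hd' := mem_range.1 hd
    rw [sum_congr rfl (g := fun _ => sgn (C.ch b) (D.mul (32 * d) k) *
      (Lz C D b p u d i * Lz C D b p u (D.mul (32 * d) k / 32) j)) fun a ha => ?_]
    · simp
    · have ha' := mem_range.1 ha
      rw [hS.wal _ (by omega) k hk, show (32 * d + a) % 32 = a by omega,
        show (32 * d + a) / 32 = d by omega, xor_div ha', ← sgn_xor hc ha' d (D.mul (32 * d) k)]
      ring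
  simp only [h1, Mz, mul_sum]
  rw [sum_comm (s := range 10)]
  exact sum_congr rfl fun p _ => sum_comm

theorem sosBSt : SosBSt := by
  intro hA D C G _ κ g hK hM hC hS H _ _ f hf
  have hL := hA D C G κ g hK hC hS
  have hn := hS.nK
  set w : ℕ → ℕ → ℕ → ℕ → ℕ → ℝ := fun b p u i x =>
    ((sgn (C.ch b) x * Lz C D b p u (x / 32) i : ℤ) : ℝ) with hw
  set U : ℕ → ℕ → ℝ := fun i j => ∑ b ∈ range 8, ∑ p ∈ range (C.nG b), ∑ u ∈ range 3,
    ∑ x ∈ range 320, ∑ y ∈ range 320,
      w b p u i x * w b p u j y * ‖f (κ x * g i) - f (κ y * g j)‖ ^ 2 with hU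
  have hsym : ∀ i j, U i j = U j i := fun i j => by
    refine sum_congr rfl fun b _ => sum_congr rfl fun p _ => sum_congr rfl fun u _ => ?_
    rw [sum_comm]
    refine sum_congr rfl fun x _ => sum_congr rfl fun y _ => ?_
    rw [norm_sub_rev]; ring
  have hneg : ∑ i ∈ range D.n, ∑ j ∈ range D.n, U i j ≤ 0 := by
    simp only [hU]
    simp only [sum_comm (s := range D.n) (t := range 8)]
    refine sum_nonpos fun b hb => ?_
    simp only [sum_comm (s := range D.n) (t := range (C.nG b))]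
    refine sum_nonpos fun p hp => ?_
    simp only [sum_comm (s := range D.n) (t := range 3)]
    refine sum_nonpos fun u hu => ?_
    have h0 := ell_sum hS (mem_range.1 hb) (mem_range.1 hp) (mem_range.1 hu)
    have := neg_type (range D.n ×ˢ range 320) (fun a => w b p u a.1 a.2)
      (fun a => f (κ a.2 * g a.1)) (by
        rw [sum_product]
        simp only [hw, ← Int.cast_sum, h0, Int.cast_zero])
    simp only [sum_product] at this
    refine le_of_eq_of_le (sum_congr rfl fun i _ => sum_comm) this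
  have hval : ∀ i j, U i j = 32 * ∑ k ∈ range D.nK, (Cz C D i k j : ℝ) * ph f (zz κ g i k j) := by
    intro i j
    have h1 : ∀ b p u, ∀ x ∈ range 320, ∑ y ∈ range 320,
        w b p u i x * w b p u j y * ‖f (κ x * g i) - f (κ y * g j)‖ ^ 2 =
        ∑ k ∈ range 320, w b p u i x * w b p u j (D.mul x k) * ph f (zz κ g i k j) := by
      intro b p u x hx
      have hx' : x < D.nK := hn ▸ mem_range.1 hx
      rw [← hn]
      refine (sum_nbij' (D.mul x) (D.mul (D.inv x)) ?_ ?_ ?_ ?_ ?_).symm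
      · exact fun k hk => mem_range.2 (hK.mul x hx' k (mem_range.1 hk)).1
      · exact fun k hk => mem_range.2 (hK.mul _ (hK.inv x hx').1 k (mem_range.1 hk)).1
      · exact fun k hk => (hK.mul x hx' k (mem_range.1 hk)).2
      · intro k hk
        have := (hK.mul _ (hK.inv x hx').1 k (mem_range.1 hk)).2
        rwa [(hK.inv x hx').2.2] at this
      · intro k hk
        rw [hf.dist, hM.mul x hx' k (mem_range.1 hk), ← hf.inv (zz κ g i k j), zz]
        congr 2
        group
    have h2 : ∀ k ∈ range 320, 32 * ((Cz C D i k j : ℝ) * ph f (zz κ g i k j)) =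
        ∑ b ∈ range 8, ∑ p ∈ range (C.nG b), ∑ u ∈ range 3, ∑ x ∈ range 320,
          w b p u i x * w b p u j (D.mul x k) * ph f (zz κ g i k j) := fun k hk => by
      have := congrArg (Int.cast : ℤ → ℝ) (ell_conv (C := C) hS i j (mem_range.1 hk))
      simp only [Int.cast_sum, Int.cast_mul _ (sgn _ _ * _), Int.cast_mul 32,
        Int.cast_ofNat] at this
      simp only [← sum_mul, hw]
      rw [this, mul_assoc]
    rw [hn, mul_sum, sum_congr rfl h2, sum_comm]
    refine sum_congr rfl fun b _ => ?_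
    rw [sum_comm (s := range 320)]
    refine sum_congr rfl fun p _ => ?_
    rw [sum_comm (s := range 320)]
    refine sum_congr rfl fun u _ => ?_
    rw [sum_congr rfl (h1 b p u), sum_comm]
  rw [sum_tri U hsym hK.n0] at hneg
  have hle : (32 * 2 ^ 24 : ℝ) * ∑ i ∈ range D.n, ∑ t ∈ range (D.nr i), ∑ l ∈ range (D.n - i),
      ((C.cv (D.ad i t l) : ℝ) - 2 ^ 47) * ph f (zz κ g i (D.rk i t) (D.n1 - l)) ≤ 0 := by
    refine le_trans ?_ hneg
    rw [mul_sum]
    refine sum_le_sum fun i hi => ?_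
    have hi' := mem_range.1 hi
    rw [sum_comm, mul_sum]
    refine sum_le_sum fun l hl => ?_
    rw [hval, hC.sum i hi', mul_sum, mul_sum, mul_sum]
    refine sum_le_sum fun t ht => ?_
    have h3 : ∀ u ∈ range (D.m i), (Cz C D i (D.mul (D.ss i u) (D.rk i t)) (D.n1 - l) : ℝ) *
        ph f (zz κ g i (D.mul (D.ss i u) (D.rk i t)) (D.n1 - l)) =
        Cz C D i (D.mul (D.ss i u) (D.rk i t)) (D.n1 - l) *
          ph f (zz κ g i (D.rk i t) (D.n1 - l)) := fun u hu => by
      obtain ⟨h4, -, h5⟩ := hC.ss i hi' u (mem_range.1 hu)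
      rw [zz, hM.mul _ h4 _ (hC.rk i hi' t (mem_range.1 ht)), ← mul_assoc, h5, mul_assoc,
        mul_assoc, hf.left, zz, mul_assoc]
    have h6 := (Int.cast_le (R := ℝ)).2 (hL i hi' t (mem_range.1 ht) l (mem_range.1 hl))
    push_cast at h6
    rw [sum_congr rfl h3, ← sum_mul]
    have := mul_le_mul_of_nonneg_right h6 (ph_nonneg (f := f) (zz κ g i (D.rk i t) (D.n1 - l)))
    linarith
  exact nonpos_of_mul_nonpos_right hle (by norm_num)

end Pool.Agent.MC
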