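import Pool.Agent.Lib.MP_c86c76_al.C.An
import Pool.Agent.Lib.MP_c86c76_al.C.Can
import Pool.Agent.Lib.MP_c86c76_al.C.Ded
import Pool.Agent.Lib.MP_c86c76_al.C.Gat
import Pool.Agent.Lib.MP_c86c76_al.C.SosA
import Pool.Agent.Lib.MP_c86c76_al.C.SosB

/-!
The engine.
-/

set_option autoImplicit false

namespace Pool.Agent.MC

theorem engSt : EngSt := topSt canSt dedSt virSt (sosBSt sosASt) gatSt asmSt anSt

end Pool.Agent.MC
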