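import Pool.Agent.Lib.MP_c86c76_al.C.Wd
import Pool.Agent.Lib.MP_c86c76_al.T.Out

/-!
Outer classes of substitutions and relations between them.
-/

set_option autoImplicit false

noncomputable section

namespace Pool.Agent.MQ

open Pool.Agent.MC Pool.Agent.Lib.MP_c86c76_al

/-- Evaluate the list before continuing. -/
def fl (L : List ℕ) : (List ℕ → Bool) → Bool :=
  List.rec (motive := fun _ => (List ℕ → Bool) → Bool) (fun k => k [])
    (fun a _ ih k => fc false a fun b => ih fun t => k (b :: t)) L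

theorem fl_eq (L : List ℕ) (k : List ℕ → Bool) : fl L k = k L := by
  induction L generalizing k with
  | nil => rfl
  | cons a t ih => exact ih _

variable (f : ℕ → ℕ → ℕ) (tab : ℕ → ℕ)

/-- The image of a letter under a product of substitutions. -/
def app (L : List ℕ) : ℕ → ℕ :=
  List.rec (motive := fun _ => ℕ → ℕ) (fun d => d)
    (fun s _ ih d => fc 0 (tab s) fun W => sif f (lan W) 0 (ih (Nat.xor d 1))) L

def relOk (n : ℕ) (A B : List ℕ) (u : ℕ) : Bool := fl A fun A' => fl B fun B' =>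
  allIn 1 n fun l => cj f (app f tab A' (Nat.mul 2 l)) (app f tab B' (Nat.mul 2 l)) u

def newOk (n : ℕ) (A : List ℕ) (s u : ℕ) : Bool := fl A fun A' => fc false (tab s) fun W =>
  an (prOk n (lan W))
    (allIn 1 n fun l => cj f (lan W (Nat.mul 2 l)) (app f tab A' (Nat.mul 2 l)) u)

variable {Q : Type} [Group Q] (X : ℕ → Q)

/-- The table number `s` is the table of an automorphism. -/
def Gd (s : ℕ) : Prop := ∃ φ : MulAut Q, RH X φ (lan (tab s))

open Classical in
/-- Its outer class. -/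
def oc (s : ℕ) : Out Q := if h : Gd tab X s then Lib.MP_c86c76_al.cls Q h.choose else 1

variable {f tab X} {n r : ℕ}

theorem Mark.oc (M : Mark X n r) {s : ℕ} {φ : MulAut Q} (h : RH X φ (lan (tab s))) :
    oc tab X s = Lib.MP_c86c76_al.cls Q φ := by
  have g : Gd tab X s := ⟨φ, h⟩
  rw [MQ.oc, dif_pos g]
  refine congrArg _ (MulEquiv.toMonoidHom_injective (M.ext fun l _ _ => ?_))
  have := M.lt
  have e := (g.choose_spec (2 * l) (by omega)).trans (h _ (by omega)).symm
  rwa [lt_two] at e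

theorem Mark.app (M : Mark X n r) (h : Snd X f) (L : List ℕ) (g : ∀ s ∈ L, Gd tab X s) :
    ∃ φ : MulAut Q, (L.map (MQ.oc tab X)).prod = Lib.MP_c86c76_al.cls Q φ ∧
      ∀ d < 32, φ (MQ.lt X d) = ev X (MQ.app f tab L d) := by
  induction L with
  | nil => exact ⟨1, (map_one _).symm, fun d hd => (h.dig hd).symm⟩
  | cons s t ih =>
    obtain ⟨ψ, a, b⟩ := ih fun x hx => g x (List.mem_cons_of_mem _ hx)
    obtain ⟨φ, c⟩ := g s List.mem_cons_self
    refine ⟨φ * ψ, by rw [List.map_cons, List.prod_cons, a, M.oc c, map_mul], fun d hd => ?_⟩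
    refine Eq.trans ?_ (c.si h (MQ.app f tab t (d ^^^ 1))).symm
    rw [← b _ (xor_one d hd).1, lt_xor hd, map_inv, map_inv, inv_inv]
    rfl

theorem Mark.eq (M : Mark X n r) (h : Snd X f) {A B : List ℕ} {u : ℕ} (gA : ∀ s ∈ A, Gd tab X s)
    (gB : ∀ s ∈ B, Gd tab X s) (e : relOk f tab n A B u = true) :
    (A.map (MQ.oc tab X)).prod = (B.map (MQ.oc tab X)).prod := by
  obtain ⟨φ, a, a'⟩ := M.app h A gA
  obtain ⟨ψ, b, b'⟩ := M.app h B gB
  rw [relOk, fl_eq, fl_eq, allIn_iff] at e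
  rw [a, b]
  refine MT.cls_eq (ev X u) fun x => DFunLike.congr_fun (M.ext (φ := φ.toMonoidHom)
    (ψ := (MulAut.conj (ev X u) * ψ).toMonoidHom) fun l h1 h2 => ?_) x
  have := M.lt
  have e := h.cj (e l h1 h2)
  change ev X (MQ.app f tab A (2 * l)) = _ * ev X (MQ.app f tab B (2 * l)) * _ at e
  rwa [← a' _ (by omega), ← b' _ (by omega), lt_two] at e

theorem Mark.new (M : Mark X n r) (h : Snd X f) {A : List ℕ} {s u : ℕ} (gA : ∀ s ∈ A, Gd tab X s)
    (e : newOk f tab n A s u = true) :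
    Gd tab X s ∧ MQ.oc tab X s = (A.map (MQ.oc tab X)).prod := by
  obtain ⟨φ, a, a'⟩ := M.app h A gA
  rw [newOk, fl_eq, fc_eq, an_iff, allIn_iff] at e
  have k : RH X (MulAut.conj (ev X u) * φ : MulAut Q) (lan (tab s)) := M.rh e.1 fun l h1 h2 => by
    have := M.lt
    have e := h.cj (e.2 l h1 h2)
    change ev X (lan (tab s) (2 * l)) = _ * ev X (MQ.app f tab A (2 * l)) * _ at e
    rw [e, ← a' _ (by omega), lt_two]
    rfl
  exact ⟨⟨_, k⟩, by rw [M.oc k, a]; exact MT.cls_eq (ev X u) fun _ => rfl⟩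

end Pool.Agent.MQ
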