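import Pool.Agent.Lib.MP_c86c76_al.C.Defs

/-!
Statements about the checkers.
-/

set_option autoImplicit false

noncomputable section

namespace Pool.Agent.MC

open Pool.Agent.MT Finset

section Sem

variable {G : Type} [Group G] (κ g : ℕ → G)

def zz (i k j : ℕ) : G := (g i)⁻¹ * κ k * g j

def dd (c : ℕ) : G := zz κ g (pI c) (pK c) (pJ c)

def pw (x : G) (e : ℕ) : G := if e = 0 then x else x⁻¹

def Holds (D : Dat) (x : G) (F : Fa) : Prop :=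
  F.a < D.nK ∧ F.b < D.nK ∧ x = κ F.a * pw (dd κ g F.c) F.e * κ F.b

/-- The relations that the group has to satisfy. -/
structure Model (D : Dat) : Prop where
  mul : ∀ a < D.nK, ∀ b < D.nK, κ (D.mul a b) = κ a * κ b
  kout : ∀ k, D.nK ≤ k → κ k = 1
  gout : ∀ j, D.n ≤ j → g j = 1
  g0 : g 0 = 1
  rel : ∀ t < D.nA, Holds κ g D (dd κ g (D.ps t)) (dec (D.ax t))

/-- All positions have their facts. -/
structure Ded (D : Dat) : Prop where
  get : ∀ i < D.n, ∀ j < D.n, ∀ k < D.nK, Holds κ g D (zz κ g i k j) (D.get i k j)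
  pos : ∀ i < D.n, ∀ t < D.nr i, ∀ l < D.n - i,
    Holds κ g D (zz κ g i (D.rk i t) (D.n1 - l)) (dec (D.ft (D.ad i t l)))
  loop : ∀ l, 0 < l → l < D.nL →
    Holds κ g D (pw (dd κ g (dec (D.lf l)).c) (bits (D.lf l) 48 1)) (dec (D.lf l))

/-- The rows are the cosets of the stabilisers. -/
structure Can (D : Dat) : Prop where
  mn : ∀ i < D.n, D.m i * D.nr i = D.nK
  bs : ∀ i < D.n, D.bs (i + 1) = D.bs i + D.nr i * (D.n - i)
  rk : ∀ i < D.n, ∀ t < D.nr i, D.rk i t < D.nK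
  ss : ∀ i < D.n, ∀ u < D.m i, D.ss i u < D.nK ∧ D.st i u < D.nK ∧
    (g i)⁻¹ * κ (D.ss i u) = κ (D.st i u) * (g i)⁻¹
  can : ∀ i < D.n, ∀ k < D.nK, ∃ t < D.nr i, ∃ u < D.m i, D.mul (D.ss i u) (D.rk i t) = k ∧
    D.cs i k = D.st i u ∧ D.cb i k = D.ad i t 0
  sum : ∀ i < D.n, ∀ F : ℕ → ℝ, ∑ k ∈ range D.nK, F k =
    ∑ t ∈ range (D.nr i), ∑ u ∈ range (D.m i), F (D.mul (D.ss i u) (D.rk i t))

variable {H : Type} [NormedAddCommGroup H] [InnerProductSpace ℝ H]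

/-- An equivariant map that is constant on the cosets of `K`. -/
structure Eqv (f : G → H) : Prop where
  iso : ∀ a x y, ‖f (a * x) - f (a * y)‖ = ‖f x - f y‖
  fix : ∀ x k, f (x * κ k) = f x

def ph (f : G → H) (x : G) : ℝ := ‖f x - f 1‖ ^ 2

def en (D : Dat) (f : G → H) : ℝ := ∑ a ∈ range D.ng, ph f (g (D.gen a))

def lap (D : Dat) (f : G → H) : H :=
  ∑ a ∈ range D.ng, (D.wt a : ℝ) • ∑ k ∈ range D.nK, (f 1 - f (κ k * g (D.gen a)))

/-- The sum of squares. -/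
def Sos (D : Dat) (C : Cer) (f : G → H) : Prop :=
  ∑ i ∈ range D.n, ∑ t ∈ range (D.nr i), ∑ l ∈ range (D.n - i),
    ((C.cv (D.ad i t l) : ℝ) - 2 ^ 47) * ph f (zz κ g i (D.rk i t) (D.n1 - l)) ≤ 0

end Sem

/-- The energy inequality. -/
def Ineq {G : Type} [Group G] (κ g : ℕ → G) (D : Dat) (c : ℝ) : Prop :=
  ∀ (H : Type) [NormedAddCommGroup H] [InnerProductSpace ℝ H] (f : G → H), Eqv κ f →
    en g D f ≤ c * √(en g D f) * ‖lap κ g D f‖ ∧ ∀ j, ph f (g j) ≤ c * en g D f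

/-- Facts about the tables of `K`. -/
structure KOk (D : Dat) : Prop where
  k0 : 0 < D.nK
  k1 : D.nK ≤ 512
  n0 : D.n1 + 1 = D.n
  n1 : D.n ≤ 128
  mul : ∀ a < D.nK, ∀ b < D.nK, D.mul a b < D.nK ∧ D.mul (D.inv a) (D.mul a b) = b
  inv : ∀ a < D.nK, D.inv a < D.nK ∧ D.mul a (D.inv a) = 0 ∧ D.inv (D.inv a) = a
  one : D.mul 0 0 = 0

structure CanOk (D : Dat) : Prop where
  b0 : D.bs 0 = 0
  orb : ∀ i < D.n, D.orbOk i = true

structure DedOk (D : Dat) : Prop where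
  row : ∀ i < D.n, ∀ t < D.nr i, D.rowOk i t = true
  loop : ∀ l, 0 < l → l < D.nL → D.loopOk l = true

structure VirOk (D : Dat) : Prop where
  bl : ∀ j, 0 < j → j < D.n → D.blOk j = true
  gen : ∀ a < D.ng, D.genOk a = true
  g0 : D.gen D.ng = 0
  o0 : D.oq 0 = 0
  nq : D.nq = D.oq D.ng + 1
  vir : ∀ v < D.nv, D.virOk v = true

structure GatOk (D : Dat) (C : Cer) : Prop where
  nT : D.nT ≤ 262144
  s0 : C.sg 0 = 0
  s1 : C.sg C.nS = D.nT
  seg : ∀ s < C.nS, C.segOk D s = true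

structure FinOk (D : Dat) (C : Cer) : Prop where
  vc : ∀ v < D.nv, C.vcOk D v = true
  fin : C.finOk D = true

structure SosOk (D : Dat) (C : Cer) : Prop where
  nK : D.nK = 320
  wal : ∀ x < 320, ∀ k < 320, D.mul x k = D.mul (32 * (x / 32)) k ^^^ (x % 32)
  blk : ∀ b < 8, C.blkOk D b = true
  ch : ∀ b < 8, 0 < b → C.ch b ≠ 0
  zs : ∀ p < C.nG 0, ∀ u < 3, C.zsOk D p u = true
  row : ∀ i < D.n, ∀ t < D.nr i, C.rowOk D i t = true

def CanSt : Prop := ∀ (D : Dat) (G : Type) [Group G] (κ g : ℕ → G),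
  KOk D → CanOk D → Model κ g D → Can κ g D

def DedSt : Prop := ∀ (D : Dat) (G : Type) [Group G] (κ g : ℕ → G),
  KOk D → Model κ g D → Can κ g D → DedOk D → Ded κ g D

/-- Virtual positions, lengths, and symmetry of the generators. -/
structure Vir {G : Type} [Group G] (κ g : ℕ → G) (D : Dat) : Prop where
  vir : ∀ v < D.nv, ∀ a ≤ D.ng, ∀ t < D.nr (D.gen a), ∃ x y e,
    zz κ g (D.gen a) (D.rk (D.gen a) t) 0 * dd κ g (D.cz v) =
      κ x * pw (dd κ g (dec (D.ft (D.va v a t))).c) e * κ y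
  bl : ∀ j, 0 < j → j < D.n → ∃ i k a x y e, a < D.ng ∧ D.bl i < D.bl j ∧
    zz κ g i k j = κ x * pw (g (D.gen a)) e * κ y
  sy : ∀ a < D.ng, ∃ x y, (g (D.gen a))⁻¹ = κ x * g (D.gen a) * κ y
  gen : ∀ a < D.ng, D.gen a < D.n ∧ 0 < D.wt a ∧ D.oq (a + 1) = D.oq a + D.nr (D.gen a)

def VirSt : Prop := ∀ (D : Dat) (G : Type) [Group G] (κ g : ℕ → G),
  KOk D → Model κ g D → Can κ g D → Ded κ g D → VirOk D → Vir κ g D

def SosSt : Prop := ∀ (D : Dat) (C : Cer) (G : Type) [Group G] (κ g : ℕ → G),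
  KOk D → Model κ g D → Can κ g D → SosOk D C →
  ∀ (H : Type) [NormedAddCommGroup H] [InnerProductSpace ℝ H] (f : G → H), Eqv κ f →
    Sos κ g D C f

/-- The entries of the factor. -/
def Lz (C : Cer) (D : Dat) (b p u d j : ℕ) : ℤ :=
  if C.dr b j ≤ p then (C.dg D b p u d j : ℤ) - 2 ^ 31 else 0

def Mz (C : Cer) (D : Dat) (b d i e j : ℕ) : ℤ :=
  ∑ p ∈ range (C.nG b), ∑ u ∈ range 3, Lz C D b p u d i * Lz C D b p u e j

def sgn (c T : ℕ) : ℤ := if Cer.par (c &&& T) = 0 then 1 else -1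

def Cz (C : Cer) (D : Dat) (i k j : ℕ) : ℤ :=
  ∑ b ∈ range 8, ∑ d ∈ range 10,
    sgn (C.ch b) (D.mul (32 * d) k) * Mz C D b d i (D.mul (32 * d) k / 32) j

/-- The stored coefficients are below the true ones. -/
def Lanes (D : Dat) (C : Cer) : Prop := ∀ i < D.n, ∀ t < D.nr i, ∀ l < D.n - i,
  ((C.cv (D.ad i t l) : ℤ) - 2 ^ 47) * 2 ^ 24 ≤ (if l = D.n1 - i then 1 else 2) *
    ∑ u ∈ range (D.m i), Cz C D i (D.mul (D.ss i u) (D.rk i t)) (D.n1 - l)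

def SosASt : Prop := ∀ (D : Dat) (C : Cer) (G : Type) [Group G] (κ g : ℕ → G),
  KOk D → Can κ g D → SosOk D C → Lanes D C

def SosBSt : Prop := SosASt → SosSt

def GatSt : Prop := ∀ (D : Dat) (C : Cer), GatOk D C → ∀ (Φ : ℕ → ℝ) (M : ℝ), 0 ≤ M →
  (∀ c, 0 ≤ Φ c) → (∀ c, Φ c ≤ D.bd c * M) →
  -((∑ s ∈ range C.nS, C.rb s : ℕ) * M) ≤
    ∑ A ∈ range D.nT, ((C.cv A : ℝ) - 2 ^ 47) * Φ (dec (D.ft A)).c

def AsmSt : Prop := GatSt → ∀ (D : Dat) (C : Cer) (G : Type) [Group G] (κ g : ℕ → G),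
  KOk D → Model κ g D → CanOk D → Can κ g D → Ded κ g D → VirOk D → Vir κ g D → GatOk D C →
  FinOk D C →
  (∀ (H : Type) [NormedAddCommGroup H] [InnerProductSpace ℝ H] (f : G → H), Eqv κ f →
    Sos κ g D C f) → ∃ c : ℝ, 0 < c ∧ Ineq κ g D c

def AnSt : Prop := ∀ (D : Dat) (G : Type) [Group G] (κ g : ℕ → G) (c : ℝ),
  KOk D → Model κ g D → Vir κ g D → 0 < c → Ineq κ g D c →
  Subgroup.closure (Set.range κ ∪ Set.range g) = ⊤ → HasT G

/-- The whole engine. -/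
def EngSt : Prop := ∀ (D : Dat) (C : Cer) (G : Type) [Group G] (κ g : ℕ → G),
  KOk D → CanOk D → DedOk D → VirOk D → GatOk D C → FinOk D C → SosOk D C → Model κ g D →
  HasT (Subgroup.closure (Set.range κ ∪ Set.range g))

def TopSt : Prop := CanSt → DedSt → VirSt → SosSt → GatSt → AsmSt → AnSt → EngSt

end Pool.Agent.MC
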