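import Pool.Agent.Lib.MP_c86c76_al.Q.St
import Pool.Agent.Lib.MP_c86c76_al.C.Tab

/-!
Words in a group with one relator: multiplication with free and Dehn reduction, substitutions,
markings, and automorphisms given by substitutions.
-/

set_option autoImplicit false

noncomputable section

namespace Pool.Agent.MQ

open Pool.Agent.MC

/-- `P * M⁻¹`, letter by letter. -/
def dvf (f : ℕ → ℕ → ℕ) (P M : ℕ) : ℕ :=
  fc 0 M fun M' => Nat.rec (motive := fun _ => ℕ) P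
    (fun i r => fc 0 r fun r' => fc 0 (dgt M' i) (f r')) (ln M')

def pu1 (T h : ℕ) (f : ℕ → ℕ → ℕ) (x y j z : ℕ) : ℕ :=
  Bool.rec (motive := fun _ => ℕ) z
    (dvf f (Nat.shiftRight x h) (bits T (Nat.add j 64) 18446744073709551615))
    (Nat.beq y (bits T j 18446744073709551615))

/-- Multiplication by the inverse of a letter, with replacement of long pieces of the relator. -/
def pu (T T' h m : ℕ) (f : ℕ → ℕ → ℕ) (r d : ℕ) : ℕ :=
  Bool.rec (motive := fun _ => ℕ)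
    (fc 0 (Nat.add (Nat.mul 32 r) (Nat.xor d 1)) fun x => fc 0 (Nat.land x m) fun y =>
      fc 0 (Nat.mul 128 d) fun j => pu1 T h f x y j (pu1 T' h f x y j x))
    (Nat.shiftRight r 5) (Nat.beq (Nat.land r 31) d)

def lan (W d : ℕ) : ℕ := bits W (Nat.mul 128 d) 340282366920938463463374607431768211455

def tOk (q T C : ℕ) : Bool := allLT 32 fun d =>
  fc false (dvf stp (dvf stp (dvf stp (lan C d)
    (bits T (Nat.add (Nat.mul 128 d) 64) 18446744073709551615))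
    (bits T (Nat.mul 128 d) 18446744073709551615)) (lan C d)) fun z => Nat.beq z q || Nat.beq z 0

variable (f : ℕ → ℕ → ℕ)

/-- `P * (W w)⁻¹`. -/
def sif (W : ℕ → ℕ) (P w : ℕ) : ℕ := dvf (fun r d => dvf f r (W d)) P w

/-- `a = u * b * u⁻¹`. -/
def cj (a b u : ℕ) : Bool := Nat.beq (dvf f (dvf f (dvf f a (dvf f 0 u)) b) u) 0

def prOk (n : ℕ) (W : ℕ → ℕ) : Bool := allLT 16 fun l =>
  an (Nat.beq (W (Nat.add (Nat.mul 2 l) 1)) (dvf stp 0 (W (Nat.mul 2 l))))
    ((Nat.blt 0 l && Nat.ble l n) || Nat.beq (W (Nat.mul 2 l)) 0)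

def endOk (n r : ℕ) (W : ℕ → ℕ) : Bool := an (prOk n W) (Nat.beq (sif f W 0 r) 0)

def invOk (n : ℕ) (W W' : ℕ → ℕ) (u : ℕ) : Bool := allIn 1 n fun l =>
  cj f (sif f W 0 (W' (Nat.add (Nat.mul 2 l) 1))) (Nat.mul 2 l) u

def autOk (n r : ℕ) (W W' : ℕ → ℕ) (u v : ℕ) : Bool :=
  an (endOk f n r W) (an (endOk f n r W') (an (invOk f n W W' u) (invOk f n W' W v)))

def kill (W : ℕ → ℕ) (r r' u : ℕ) : Bool :=
  cj stp (sif stp W 0 r) r' u || cj stp (sif stp W 0 r) (dvf stp 0 r') u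

def chgOk (n r r' : ℕ) (W W' : ℕ → ℕ) (u v : ℕ) : Bool :=
  an (prOk n W) (an (prOk n W') (an (invOk stp n W W' 0) (an (invOk stp n W' W 0)
    (an (kill W r' r u) (kill W' r r' v)))))

section

variable {Q : Type} [Group Q]

def evL (L : ℕ → Q) (x : ℕ) : Q := ((Nat.digits 32 x).reverse.map L).prod

theorem evL_zero (L : ℕ → Q) : evL L 0 = 1 := by simp [evL]

theorem evL_step {L : ℕ → Q} (h : L 0 = 1) (x : ℕ) : evL L x = evL L (x / 32) * L (x % 32) := by
  rcases Nat.eq_zero_or_pos x with rfl | hx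
  · simp [evL, h]
  · rw [evL, Nat.digits_def' (by norm_num) hx]
    simp [evL]

theorem evL_cat {L : ℕ → Q} (h : L 0 = 1) (m a : ℕ) :
    ∀ b < 32 ^ m, evL L (a * 32 ^ m + b) = evL L a * evL L b := by
  induction m with
  | zero => intro b hb; obtain rfl : b = 0 := by omega
            simp [evL_zero]
  | succ m ih =>
    intro b hb
    rw [pow_succ] at hb
    rw [evL_step h, evL_step h b, pow_succ, ← mul_assoc a,
      show (a * 32 ^ m * 32 + b) / 32 = a * 32 ^ m + b / 32 by omega,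
      show (a * 32 ^ m * 32 + b) % 32 = b % 32 by omega, ih _ (by omega), mul_assoc]

theorem evL_dig {L : ℕ → Q} (h : L 0 = 1) {d : ℕ} (hd : d < 32) : evL L d = L d := by
  rw [evL_step h, Nat.div_eq_of_lt hd, Nat.mod_eq_of_lt hd, evL_zero, one_mul]

theorem evL_congr {L L' : ℕ → Q} (h : ∀ d < 32, L d = L' d) (x : ℕ) : evL L x = evL L' x :=
  congrArg List.prod (List.map_congr_left fun _ hd =>
    h _ (Nat.digits_lt_base (by norm_num) (List.mem_reverse.1 hd)))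

theorem evL_map {Q' : Type} [Group Q'] (φ : Q →* Q') (L : ℕ → Q) (x : ℕ) :
    φ (evL L x) = evL (fun d => φ (L d)) x := by
  rw [evL, map_list_prod, List.map_map]; rfl

theorem lt_map {Q' : Type} [Group Q'] (φ : Q →* Q') (X : ℕ → Q) (d : ℕ) :
    φ (lt X d) = lt (fun l => φ (X l)) d := by
  unfold lt pw; split_ifs <;> simp

theorem ev_map {Q' : Type} [Group Q'] (φ : Q →* Q') (X : ℕ → Q) (x : ℕ) :
    φ (ev X x) = ev (fun l => φ (X l)) x :=
  (evL_map φ _ x).trans (evL_congr (fun d _ => lt_map φ X d) x)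

theorem lt_ln' (x : ℕ) : x < 32 ^ ln x := by
  have h := @Nat.lt_log2_self (32 * x + 16)
  have h2 : 2 ^ (Nat.log2 (32 * x + 16) + 1) ≤ 2 ^ (5 * (ln x + 1)) :=
    Nat.pow_le_pow_right (by norm_num) (by
      show _ ≤ 5 * (Nat.log2 (32 * x + 16) / 5 + 1); omega)
  rw [pow_mul, pow_succ (2 ^ 5), show 2 ^ 5 = 32 from rfl] at h2
  omega

theorem xor_one : ∀ d < 32, (d ^^^ 1) < 32 ∧ (d ^^^ 1) / 2 = d / 2 ∧ (d ^^^ 1) % 2 = 1 - d % 2 := by
  decide

variable {X : ℕ → Q}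

theorem lt_xor {d : ℕ} (h : d < 32) : lt X (d ^^^ 1) = (lt X d)⁻¹ := by
  rw [lt, (xor_one d h).2.1, (xor_one d h).2.2, pw_flip, lt]

theorem lt_two (l : ℕ) : lt X (2 * l) = X l := by simp [lt, pw]

theorem lt_odd (l : ℕ) : lt X (2 * l + 1) = (X l)⁻¹ := by
  simp [lt, pw, show (2 * l + 1) / 2 = l by omega]

theorem lt_zero (h : X 0 = 1) : lt X 0 = 1 := (lt_two 0).trans h

theorem ev_zero : ev X 0 = 1 := evL_zero _

theorem dvf_ev {L : ℕ → Q} (h0 : L 0 = 1) {F : ℕ → ℕ → ℕ}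
    (hF : ∀ r, ∀ d < 32, ev X (F r d) = ev X r * (L d)⁻¹) (P M : ℕ) :
    ev X (dvf F P M) = ev X P * (evL L M)⁻¹ := by
  have key : ∀ n, ev X (Nat.rec (motive := fun _ => ℕ) P (fun i r => F r (dgt M i)) n) =
      ev X P * (evL L (M % 32 ^ n))⁻¹ := fun n => by
    induction n with
    | zero => simp [Nat.mod_one, evL_zero]
    | succ n ih =>
      have e : dgt M n = M / 32 ^ n % 32 := by
        rw [show (32 : ℕ) ^ n = 2 ^ (5 * n) by rw [pow_mul]; rfl]
        exact bits_eq M (5 * n) 5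
      have hd : M / 32 ^ n % 32 < 32 := Nat.mod_lt _ (by norm_num)
      show ev X (F _ (dgt M n)) = _
      rw [e, hF _ _ hd, ih, Nat.mod_pow_succ, add_comm, mul_comm (32 ^ n),
        evL_cat h0 _ _ _ (Nat.mod_lt _ (by positivity)), evL_dig h0 hd, mul_inv_rev, mul_assoc]
  have := key (ln M)
  rwa [Nat.mod_eq_of_lt (lt_ln' M)] at this

/-- A sound step. -/
def Snd (X : ℕ → Q) (f : ℕ → ℕ → ℕ) : Prop :=
  X 0 = 1 ∧ ∀ r, ∀ d < 32, ev X (f r d) = ev X r * (lt X d)⁻¹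

variable {f}

theorem Snd.dv (h : Snd X f) (P M : ℕ) : ev X (dvf f P M) = ev X P * (ev X M)⁻¹ :=
  dvf_ev (lt_zero h.1) h.2 P M

theorem Snd.dv0 (h : Snd X f) (M : ℕ) : ev X (dvf f 0 M) = (ev X M)⁻¹ := by
  rw [h.dv, ev_zero, one_mul]

theorem Snd.dig (h : Snd X f) {d : ℕ} (hd : d < 32) : ev X d = lt X d := evL_dig (lt_zero h.1) hd

theorem push_ev (h : X 0 = 1) (r : ℕ) {d : ℕ} (hd : d < 32) :
    ev X (32 * r + (d ^^^ 1)) = ev X r * (lt X d)⁻¹ ∧
      (Nat.beq (Nat.land r 31) d = true → ev X (r >>> 5) = ev X r * (lt X d)⁻¹) := by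
  have h1 := (xor_one d hd).1
  refine ⟨(evL_step (lt_zero h) _).trans ?_, fun e => ?_⟩
  · rw [show (32 * r + (d ^^^ 1)) / 32 = r by omega, show (32 * r + (d ^^^ 1)) % 32 = d ^^^ 1 by omega,
      lt_xor hd]; rfl
  · have e' : r % 32 = d := (land_eq r 5).symm.trans (Nat.eq_of_beq_eq_true e)
    rw [eq_mul_inv_iff_mul_eq, Nat.shiftRight_eq_div_pow, ← e']
    exact (evL_step (lt_zero h) r).symm

theorem snd_stp (h : X 0 = 1) : Snd X stp := ⟨h, fun r d hd => by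
  have := push_ev h r hd
  unfold stp
  cases e : Nat.beq (Nat.land r 31) d
  exacts [this.1, this.2 e]⟩

theorem pu1_ev (h : Snd X f) {q T C : ℕ} (hq : ev X q = 1) (hT : tOk q T C = true) (k x z : ℕ)
    {d : ℕ} (hd : d < 32) (hz : ev X z = ev X x) :
    ev X (pu1 T (5 * k) f x (Nat.land x (2 ^ (5 * k) - 1)) (128 * d) z) = ev X x := by
  unfold pu1
  cases e : Nat.beq (Nat.land x (2 ^ (5 * k) - 1)) (bits T (128 * d) 18446744073709551615)
  · exact hz
  have s := snd_stp h.1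
  have h1 := (allLT_iff _ _).1 hT d hd
  rw [fc_eq, Bool.or_eq_true, Nat.beq_eq, Nat.beq_eq] at h1
  have h2 := h1.elim (fun a => (congrArg (ev X) a).trans hq)
    fun a => (congrArg (ev X) a).trans ev_zero
  rw [s.dv, s.dv, s.dv, mul_inv_eq_one, mul_assoc, mul_eq_left, mul_inv_eq_one] at h2
  have e' := (land_eq x _).symm.trans (Nat.eq_of_beq_eq_true e)
  show ev X (dvf f (x >>> (5 * k)) _) = _
  rw [h.dv, Nat.shiftRight_eq_div_pow]
  refine (congrArg _ h2).trans ?_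
  show _ * ev X (bits T (128 * d) _) = _
  rw [← e', pow_mul, show 2 ^ 5 = 32 from rfl]
  conv_rhs => rw [← Nat.div_add_mod' x (32 ^ k)]
  exact (evL_cat (lt_zero h.1) k _ _ (Nat.mod_lt _ (by positivity))).symm

theorem Snd.pu (h : Snd X f) {q T C q' T' C' : ℕ} (hq : ev X q = 1) (hT : tOk q T C = true)
    (hq' : ev X q' = 1) (hT' : tOk q' T' C' = true) (k : ℕ) {s m : ℕ} (hs : s = 5 * k)
    (hm : m = 2 ^ s - 1) : Snd X (pu T T' s m f) := ⟨h.1, fun r d hd => by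
  subst hm hs
  have := push_ev h.1 r hd
  unfold MQ.pu
  cases e : Nat.beq (Nat.land r 31) d
  · exact (pu1_ev h hq hT k _ _ hd (pu1_ev h hq' hT' k _ _ hd rfl)).trans this.1
  · exact this.2 e⟩

theorem Snd.si (h : Snd X f) {W L} (hW : ∀ d < 32, L d = ev X (W d)) (h0 : L 0 = 1) (P w : ℕ) :
    ev X (sif f W P w) = ev X P * (evL L w)⁻¹ :=
  dvf_ev h0 (fun r d hd => by rw [h.dv, hW d hd]) P w

theorem Snd.cj (h : Snd X f) {a b u : ℕ} (e : cj f a b u = true) :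
    ev X a = ev X u * ev X b * (ev X u)⁻¹ := by
  have := congrArg (ev X) (Nat.eq_of_beq_eq_true e)
  rw [h.dv, h.dv, h.dv, h.dv0, ev_zero, inv_inv, mul_inv_eq_one, mul_inv_eq_iff_eq_mul] at this
  rw [← this, mul_inv_cancel_right]

/-- The values of a table. -/
def val (X : ℕ → Q) (W : ℕ → ℕ) (l : ℕ) : Q := if l < 16 then ev X (W (2 * l)) else 1

theorem pr_val (h : X 0 = 1) {n : ℕ} {W : ℕ → ℕ} (e : prOk n W = true) :
    (∀ d < 32, lt (val X W) d = ev X (W d)) ∧ (n < 16 → ∀ l, l = 0 ∨ n < l → val X W l = 1) := by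
  simp only [prOk, allLT_iff, an_iff, Bool.or_eq_true, Bool.and_eq_true, Nat.beq_eq, Nat.blt_eq,
    Nat.ble_eq] at e
  refine ⟨fun d hd => ?_, fun _ l hl => ?_⟩
  · obtain ⟨l, rfl | rfl⟩ := Nat.even_or_odd' d
    · rw [lt_two, val, if_pos (by omega)]
    · rw [lt_odd, val, if_pos (by omega), ← (snd_stp h).dv0]
      exact congrArg _ (e l (by omega)).1.symm
  · unfold val
    split_ifs with h1
    · rw [show W (2 * l) = 0 from (e l h1).2.resolve_left (by omega), ev_zero]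
    · rfl

/-- The generators `X 1, …, X n` with the single relator `r`. -/
structure Mark (X : ℕ → Q) (n r : ℕ) : Prop where
  lt : n < 16
  out : ∀ l, l = 0 ∨ n < l → X l = 1
  top : Subgroup.closure (Set.range X) = ⊤
  rel : ev X r = 1
  lift : ∀ Y : ℕ → Q, (∀ l, l = 0 ∨ n < l → Y l = 1) → ev Y r = 1 →
    ∃ φ : Q →* Q, ∀ l, φ (X l) = Y l

/-- The table lists the images of the letters. -/
def RH (X : ℕ → Q) (φ : Q →* Q) (W : ℕ → ℕ) : Prop := ∀ d < 32, φ (lt X d) = ev X (W d)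

theorem RH.si (h : Snd X f) {φ : Q →* Q} {W : ℕ → ℕ} (e : RH X φ W) (w : ℕ) :
    ev X (sif f W 0 w) = (φ (ev X w))⁻¹ := by
  rw [h.si e (by rw [lt_zero h.1, map_one]), ev_zero, one_mul]
  exact congrArg _ (evL_map φ _ w).symm

variable {n r : ℕ}

theorem Mark.ext (M : Mark X n r) {φ ψ : Q →* Q} (h : ∀ l, 1 ≤ l → l < 1 + n → φ (X l) = ψ (X l)) :
    φ = ψ :=
  MonoidHom.eq_of_eqOn_dense M.top (by
    rintro _ ⟨l, rfl⟩
    by_cases e : l = 0 ∨ n < l
    · rw [M.out l e, map_one, map_one]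
    · exact h l (by omega) (by omega))

theorem Mark.rh (M : Mark X n r) {φ : Q →* Q} {W : ℕ → ℕ} (e : prOk n W = true)
    (h : ∀ l, 1 ≤ l → l < 1 + n → φ (X l) = ev X (W (2 * l))) : RH X φ W := fun d hd => by
  obtain ⟨h1, h2⟩ := pr_val (M.out 0 (Or.inl rfl)) e
  rw [← h1 d hd, lt_map]
  congr 1
  ext l
  by_cases e : l = 0 ∨ n < l
  · rw [M.out l e, map_one, h2 M.lt l e]
  · rw [h l (by omega) (by omega), val, if_pos (by have := M.lt; omega)]

theorem Mark.end (M : Mark X n r) (h : Snd X f) {W : ℕ → ℕ} (e : endOk f n r W = true) :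
    ∃ φ, RH X φ W := by
  rw [endOk, an_iff, Nat.beq_eq] at e
  obtain ⟨h1, h2⟩ := pr_val h.1 e.1
  have := h.si h1 (lt_zero (h2 M.lt 0 (Or.inl rfl))) 0 r
  rw [e.2, ev_zero, one_mul, eq_comm, inv_eq_one] at this
  obtain ⟨φ, hφ⟩ := M.lift _ (h2 M.lt) this
  exact ⟨φ, fun d hd => by rw [← h1 d hd, lt_map, funext hφ]⟩

theorem Mark.inv (M : Mark X n r) (h : Snd X f) {φ ψ : Q →* Q} {W W' : ℕ → ℕ} {u : ℕ}
    (a : RH X φ W) (b : RH X ψ W') (e : invOk f n W W' u = true) (x : Q) :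
    φ (ψ x) = ev X u * x * (ev X u)⁻¹ :=
  DFunLike.congr_fun (M.ext (φ := φ.comp ψ) (ψ := (MulAut.conj (ev X u)).toMonoidHom)
    fun l h1 h2 => by
      have := M.lt
      have e := h.cj ((allIn_iff _ _ _).1 e l h1 h2)
      rw [a.si h] at e
      change (φ (ev X (W' (2 * l + 1))))⁻¹ = _ * ev X (2 * l) * _ at e
      rwa [← b _ (by omega), h.dig (d := 2 * l) (by omega), lt_two, lt_odd, map_inv, map_inv, inv_inv] at e) x

theorem Mark.aut (M : Mark X n r) (h : Snd X f) {W W' : ℕ → ℕ} {u v : ℕ}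
    (e : autOk f n r W W' u v = true) :
    ∃ φ : MulAut Q, RH X φ W ∧ (u = 0 → RH X (φ⁻¹ : MulAut Q) W') := by
  simp only [autOk, an_iff] at e
  obtain ⟨φ, a⟩ := M.end h e.1
  obtain ⟨ψ, b⟩ := M.end h e.2.1
  have h1 := M.inv h a b e.2.2.1
  have h2 := M.inv h b a e.2.2.2
  refine ⟨MulEquiv.ofBijective φ ⟨fun x y e => ?_, fun x => ⟨ψ ((ev X u)⁻¹ * x * ev X u), ?_⟩⟩,
    a, fun e d hd => (MulEquiv.symm_apply_eq _).2 ?_⟩
  · simpa using (h2 x).symm.trans ((congrArg ψ e).trans (h2 y))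
  · rw [h1]; group
  · show _ = φ _
    rw [← b d hd, h1, e, ev_zero]; group

theorem kill_ev {Y : ℕ → Q} (h : Y 0 = 1) {W : ℕ → ℕ} {r' u : ℕ} (p : prOk n W = true) (hn : n < 16)
    (e : kill W r r' u = true) (h1 : ev Y r' = 1) : ev (val Y W) r = 1 := by
  have s := snd_stp h
  obtain ⟨a, b⟩ := pr_val h p
  have := s.si a (lt_zero (b hn 0 (Or.inl rfl))) 0 r
  rw [ev_zero, one_mul] at this
  rw [kill, Bool.or_eq_true] at e
  refine inv_eq_one.1 (this.symm.trans ?_)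
  rcases e with e | e
  · rw [s.cj e, h1]; group
  · rw [s.cj e, s.dv0, h1]; group

theorem val_val {Y : ℕ → Q} (h : ∀ l, l = 0 ∨ n < l → Y l = 1) {W W' : ℕ → ℕ} (hn : n < 16)
    (p : prOk n W = true) (p' : prOk n W' = true) (e : invOk stp n W W' 0 = true) :
    val (val Y W) W' = Y := funext fun l => by
  have h0 := h 0 (Or.inl rfl)
  have s := snd_stp h0
  obtain ⟨a, b⟩ := pr_val h0 p
  obtain ⟨a', b'⟩ := pr_val (b hn 0 (Or.inl rfl)) p'
  by_cases c : l = 0 ∨ n < l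
  · rw [h l c, b' hn l c]
  have e := s.cj ((allIn_iff _ _ _).1 e l (by omega) (by omega))
  rw [s.si a (lt_zero (b hn 0 (Or.inl rfl))), ev_zero] at e
  change 1 * (ev (val Y W) (W' (2 * l + 1)))⁻¹ = _ * ev Y (2 * l) * _ at e
  rw [← a' _ (by omega), s.dig (by omega), lt_two, lt_odd] at e
  simpa using e

theorem val_map (φ : Q →* Q) (W : ℕ → ℕ) (l : ℕ) : φ (val X W l) = val (fun l => φ (X l)) W l := by
  unfold val; split_ifs
  exacts [ev_map φ X _, map_one φ]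

theorem ev_mem {H : Subgroup Q} (h : ∀ l, X l ∈ H) (x : ℕ) : ev X x ∈ H :=
  H.list_prod_mem fun y hy => by
    obtain ⟨d, -, rfl⟩ := List.mem_map.1 hy
    unfold lt pw; split_ifs
    exacts [h _, inv_mem (h _)]

/-- Change of the generators. -/
theorem Mark.chg (M : Mark X n r) {r' u v : ℕ} {W W' : ℕ → ℕ}
    (e : chgOk n r r' W W' u v = true) : Mark (val X W) n r' ∧ val (val X W) W' = X := by
  simp only [chgOk, an_iff] at e
  obtain ⟨p, p', i, i', k, k'⟩ := e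
  have h0 := M.out 0 (Or.inl rfl)
  have vv := val_val M.out M.lt p p' i
  refine ⟨⟨M.lt, (pr_val h0 p).2 M.lt, ?_, kill_ev h0 p M.lt k M.rel, fun Y a b => ?_⟩, vv⟩
  · rw [eq_top_iff, ← M.top, Subgroup.closure_le]
    rintro _ ⟨l, rfl⟩
    rw [← congrFun vv l, val]
    split_ifs
    exacts [ev_mem (fun l => Subgroup.subset_closure (Set.mem_range_self l)) _, one_mem _]
  · have y0 := a 0 (Or.inl rfl)
    obtain ⟨φ, hφ⟩ := M.lift _ ((pr_val y0 p').2 M.lt) (kill_ev y0 p' M.lt k' b)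
    exact ⟨φ, fun l => by rw [val_map, funext hφ, val_val a M.lt p' p i']⟩

end

end Pool.Agent.MQ
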